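import Mathlib

/-!
Bases of finitely generated groups modulo constants, and linear functionals on lattices.
-/

set_option autoImplicit false

open Finset

namespace Pool.Agent.N754.LT

theorem ofMul_prod_zpow {H : Type} [CommGroup H] {ι : Type} (s : Finset ι) (g : ι → H) (b : ι → ℤ) :
    Additive.ofMul (∏ j ∈ s, g j ^ b j) = ∑ j ∈ s, b j • Additive.ofMul (g j) := by
  classical
  induction s using Finset.induction_on with
  | empty => simp
  | insert i s hi ih =>
    rw [Finset.prod_insert hi, Finset.sum_insert hi, ofMul_mul, ih, ofMul_zpow]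

theorem exists_basis {G : Type} [CommGroup G] (C : Subgroup G)
    (htf : ∀ (g : G) (n : ℕ), 0 < n → g ^ n ∈ C → g ∈ C) {ι : Type} [Finite ι] (u : ι → G) :
    ∃ (r : ℕ) (w : Fin r → G) (a : ι → Fin r → ℤ) (c : ι → G), (∀ i, c i ∈ C) ∧
      (∀ i, u i = c i * ∏ j, w j ^ a i j) ∧ (∀ b : Fin r → ℤ, ∏ j, w j ^ b j ∈ C → b = 0) ∧
      (∀ j, Pi.single j 1 ∈ Submodule.span ℤ (Set.range a)) := by
  classical
  let M : Type := Additive (G ⧸ C)
  let π : G → M := fun g => Additive.ofMul (QuotientGroup.mk g)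
  have hπm : ∀ g h, π (g * h) = π g + π h := fun g h => rfl
  have hπ0 : ∀ g, π g = 0 ↔ g ∈ C := by
    intro g
    have h1 : π g = 0 ↔ (QuotientGroup.mk g : G ⧸ C) = 1 := Iff.rfl
    rw [h1, QuotientGroup.eq_one_iff]
  have hπprod : ∀ {κ : Type} (s : Finset κ) (g : κ → G) (b : κ → ℤ),
      π (∏ j ∈ s, g j ^ b j) = ∑ j ∈ s, b j • π (g j) := by
    intro κ s g b
    have h1 : π (∏ j ∈ s, g j ^ b j) = Additive.ofMul (∏ j ∈ s, (QuotientGroup.mk (g j) : G ⧸ C) ^ b j) := by
      show Additive.ofMul (QuotientGroup.mk' C (∏ j ∈ s, g j ^ b j)) = _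
      rw [map_prod]
      simp only [map_zpow]
      rfl
    rw [h1, ofMul_prod_zpow]
  have hsurj : ∀ x : M, ∃ g, π g = x := fun x => by
    obtain ⟨g, hg⟩ := QuotientGroup.mk_surjective (Additive.toMul x)
    exact ⟨g, congrArg Additive.ofMul hg⟩
  have htfM : ∀ (n : ℤ) (x : M), n • x = 0 → n = 0 ∨ x = 0 := by
    intro n x hx
    by_cases hn : n = 0
    · exact Or.inl hn
    right
    obtain ⟨g, rfl⟩ := hsurj x
    rw [hπ0]
    have h1 : ∀ m : ℤ, m • π g = π (g ^ m) := by
      intro m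
      have := hπprod (Finset.univ : Finset Unit) (fun _ => g) (fun _ => m)
      simpa using this.symm
    rw [h1, hπ0] at hx
    refine htf g n.natAbs (Int.natAbs_pos.2 hn) ?_
    rcases Int.natAbs_eq n with h2 | h2
    · rw [h2, zpow_natCast] at hx
      exact hx
    · rw [h2, zpow_neg, zpow_natCast] at hx
      exact (C.inv_mem_iff).1 hx
  let N : Submodule ℤ M := Submodule.span ℤ (Set.range fun i => π (u i))
  have hfin : Module.Finite ℤ N := Module.Finite.iff_fg.2 (Submodule.fg_span (Set.finite_range _))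
  have htfN : Module.IsTorsionFree ℤ N := by
    refine Module.IsTorsionFree.of_smul_eq_zero fun n x hx => ?_
    have h1 : n • (x : M) = 0 := by
      have := congrArg Subtype.val hx
      simpa using this
    rcases htfM n x h1 with h2 | h2
    · exact Or.inl h2
    · exact Or.inr (Subtype.ext h2)
  have hfree : Module.Free ℤ N := inferInstance
  let b := Module.finBasis ℤ N
  choose w hw using fun j => hsurj (b j : M)
  let a : ι → Fin (Module.finrank ℤ N) → ℤ := fun i j =>
    b.repr ⟨π (u i), Submodule.subset_span ⟨i, rfl⟩⟩ j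
  have hπw : ∀ c : Fin (Module.finrank ℤ N) → ℤ, π (∏ j, w j ^ c j) =
      ((∑ j, c j • b j : N) : M) := by
    intro c
    rw [hπprod]
    push_cast
    exact Finset.sum_congr rfl fun j _ => by rw [hw]
  refine ⟨Module.finrank ℤ N, w, a, fun i => u i * (∏ j, w j ^ a i j)⁻¹, fun i => ?_,
    fun i => by rw [inv_mul_cancel_right], fun c hc => ?_, fun j => ?_⟩
  · have h1 : π (u i) = π (∏ j, w j ^ a i j) := by
      rw [hπw]
      have h2 := b.sum_repr ⟨π (u i), Submodule.subset_span ⟨i, rfl⟩⟩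
      exact (congrArg Subtype.val h2).symm
    have h2 : π (u i * (∏ j, w j ^ a i j)⁻¹) = 0 := by
      have h3 : π (u i * (∏ j, w j ^ a i j)⁻¹) = π (u i) + -π (∏ j, w j ^ a i j) := rfl
      rw [h3, h1, add_neg_cancel]
    exact (hπ0 _).1 h2
  · rw [← hπ0, hπw] at hc
    have h1 : ∑ j, c j • b j = 0 := Subtype.ext hc
    funext j
    have h2 := Fintype.linearIndependent_iff.1 b.linearIndependent c h1 j
    exact h2
  · -- coordinates of a spanning set span
    let e : N ≃ₗ[ℤ] (Fin (Module.finrank ℤ N) → ℤ) := b.equivFun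
    have h1 : Submodule.span ℤ (Set.range fun i => (⟨π (u i), Submodule.subset_span ⟨i, rfl⟩⟩ : N))
        = ⊤ := by
      rw [eq_top_iff]
      rintro ⟨x, hx⟩ -
      refine Submodule.span_induction (p := fun x hx => (⟨x, hx⟩ : N) ∈
        Submodule.span ℤ (Set.range fun i => (⟨π (u i), Submodule.subset_span ⟨i, rfl⟩⟩ : N)))
        ?_ ?_ ?_ ?_ hx
      · rintro _ ⟨i, rfl⟩
        exact Submodule.subset_span ⟨i, rfl⟩
      · exact Submodule.zero_mem _
      · intro x y _ _ h h'
        exact Submodule.add_mem _ h h'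
      · intro c x _ h
        exact Submodule.smul_mem _ c h
    have h2 : Submodule.span ℤ (Set.range a) = ⊤ := by
      have h3 : Set.range a = e '' (Set.range fun i =>
          (⟨π (u i), Submodule.subset_span ⟨i, rfl⟩⟩ : N)) := by
        rw [← Set.range_comp]
        rfl
      rw [h3, ← LinearEquiv.coe_coe, Submodule.span_image, h1, Submodule.map_top,
        LinearEquiv.range]
    rw [h2]
    exact Submodule.mem_top

/-- a linear functional with integral coefficients which vanishes on a saturated lattice -/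
theorem exists_functional {r : ℕ} (L : Submodule ℤ (Fin r → ℤ))
    (hsat : ∀ (n : ℤ) (b : Fin r → ℤ), n ≠ 0 → n • b ∈ L → b ∈ L) (a : Fin r → ℤ) (ha : a ∉ L) :
    ∃ l : Fin r → ℤ, (∀ b ∈ L, ∑ j, l j * b j = 0) ∧ ∑ j, l j * a j ≠ 0 := by
  classical
  let ι : (Fin r → ℤ) →ₗ[ℤ] (Fin r → ℚ) :=
    { toFun := fun b j => (b j : ℚ)
      map_add' := fun x y => by funext j; simp
      map_smul' := fun n x => by funext j; simp }
  have hι : Function.Injective ι := by
    intro x y h
    funext j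
    have h1 : (x j : ℚ) = (y j : ℚ) := congrFun h j
    exact_mod_cast h1
  let V : Submodule ℚ (Fin r → ℚ) := Submodule.span ℚ (ι '' (L : Set (Fin r → ℤ)))
  have hV : ∀ v ∈ V, ∃ (n : ℤ) (b : Fin r → ℤ), n ≠ 0 ∧ b ∈ L ∧ (n : ℚ) • v = ι b := by
    intro v hv
    refine Submodule.span_induction ?_ ?_ ?_ ?_ hv
    · rintro _ ⟨b, hb, rfl⟩
      exact ⟨1, b, one_ne_zero, hb, by simp⟩
    · exact ⟨1, 0, one_ne_zero, L.zero_mem, by simp⟩
    · rintro x y _ _ ⟨n, b, hn, hb, h⟩ ⟨n', b', hn', hb', h'⟩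
      refine ⟨n * n', n' • b + n • b', mul_ne_zero hn hn',
        L.add_mem (L.smul_mem _ hb) (L.smul_mem _ hb'), ?_⟩
      rw [map_add, map_smul, map_smul, ← h, ← h']
      funext j
      simp
      ring
    · rintro c x _ ⟨n, b, hn, hb, h⟩
      refine ⟨n * c.den, c.num • b, mul_ne_zero hn (by exact_mod_cast c.den_ne_zero),
        L.smul_mem _ hb, ?_⟩
      rw [map_smul, ← h]
      funext j
      simp only [Int.cast_mul, Int.cast_natCast, Pi.smul_apply, smul_eq_mul, zsmul_eq_mul]
      have h1 : (c.den : ℚ) * c = c.num := by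
        rw [mul_comm]
        exact Rat.mul_den_eq_num c
      calc (n : ℚ) * c.den * (c * x j) = ((c.den : ℚ) * c) * (n * x j) := by ring
        _ = _ := by rw [h1]
  have haV : ι a ∉ V := by
    intro h
    obtain ⟨n, b, hn, hb, h1⟩ := hV _ h
    apply ha
    refine hsat n a hn ?_
    have h2 : n • a = b := by
      apply hι
      rw [map_smul, ← h1]
      funext j
      simp
    rw [h2]
    exact hb
  obtain ⟨f, hf1, hf2⟩ := Submodule.exists_le_ker_of_notMem haV
  -- integral coefficients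
  obtain ⟨d, hd, hd2⟩ : ∃ d : ℕ, d ≠ 0 ∧ ∀ j, ∃ z : ℤ, (d : ℚ) * f (Pi.single j 1) = z := by
    refine ⟨∏ j, (f (Pi.single j 1)).den, Finset.prod_ne_zero_iff.2 fun j _ => Rat.den_ne_zero _,
      fun j => ?_⟩
    refine ⟨(∏ i ∈ Finset.univ.erase j, ((f (Pi.single i 1)).den : ℤ)) * (f (Pi.single j 1)).num, ?_⟩
    rw [← Finset.mul_prod_erase _ _ (Finset.mem_univ j)]
    push_cast
    have h1 : (f (Pi.single j 1)) * ((f (Pi.single j 1)).den : ℚ) = (f (Pi.single j 1)).num :=
      Rat.mul_den_eq_num _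
    rw [← h1]
    ring
  choose l hl using hd2
  have hsum : ∀ b : Fin r → ℤ, ((∑ j, l j * b j : ℤ) : ℚ) = d * f (ι b) := by
    intro b
    have h1 : ι b = ∑ j, (b j : ℚ) • (Pi.single j 1 : Fin r → ℚ) := by
      funext i
      rw [Finset.sum_apply, Finset.sum_eq_single i]
      · simp [ι]
      · intro j _ hj
        rw [Pi.smul_apply, Pi.single_eq_of_ne (Ne.symm hj), smul_zero]
      · intro h
        exact absurd (Finset.mem_univ _) h
    rw [h1, map_sum, Finset.mul_sum]
    push_cast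
    refine Finset.sum_congr rfl fun j _ => ?_
    rw [map_smul, smul_eq_mul, ← hl]
    ring
  have hd0 : (d : ℚ) ≠ 0 := by exact_mod_cast hd
  refine ⟨l, fun b hb => ?_, fun h => ?_⟩
  · have h1 := hsum b
    have h2 : f (ι b) = 0 := hf2 (Submodule.subset_span ⟨b, hb, rfl⟩)
    rw [h2, mul_zero] at h1
    exact_mod_cast h1
  · have h1 := hsum a
    rw [h] at h1
    push_cast at h1
    exact hf1 ((mul_eq_zero.1 h1.symm).resolve_left hd0)

end Pool.Agent.N754.LT
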