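import Mathlib
import Pool.Agent.H159R3.Exp.Laur

/-!
Algebra: polynomials of degree at most one in some variables, universal numerators, and Laurent
curves from homogeneous denominators.
-/

set_option autoImplicit false

open Finset MvPolynomial

namespace Pool.Agent.N754.LT

open Pool.Agent.H159R3.Exp (Laur)

variable {k : Type} [Field k] {n : ℕ}

theorem ae_eval {σ : Type} (f : σ → k) (P : MvPolynomial σ k) : aeval f P = eval f P :=
  DFunLike.congr_fun (MvPolynomial.coe_aeval_eq_eval f) P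

/-- put the coordinates outside `U` equal to zero -/
def z0 {E : Type} [Zero E] (U : Finset (Fin n)) (z : Fin n → E) : Fin n → E :=
  fun i => if i ∈ U then z i else 0

/-- degree at most one in the variables outside `U` -/
def LinOff (U : Finset (Fin n)) {R : Type} [CommSemiring R] (P : MvPolynomial (Fin n) R) : Prop :=
  ∀ s ∈ P.support, ∑ j ∈ Uᶜ, s j ≤ 1

theorem affine_mon (U : Finset (Fin n)) (s : Fin n →₀ ℕ) (hs : ∑ j ∈ Uᶜ, s j ≤ 1) (c : k)
    {E : Type} [CommRing E] [Algebra k E] (z : Fin n → E) :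
    aeval z (monomial s c) = aeval (z0 U z) (monomial s c) +
      ∑ j ∈ Uᶜ, z j * aeval (z0 U z) (pderiv j (monomial s c)) := by
  classical
  have hprod : ∀ (x : Fin n → E) (s : Fin n →₀ ℕ), (s.prod fun i e => x i ^ e) =
      (∏ i ∈ U, x i ^ s i) * ∏ i ∈ Uᶜ, x i ^ s i := by
    intro x s
    rw [Finsupp.prod_fintype _ _ (fun i => pow_zero _), Finset.prod_mul_prod_compl]
  have hU : ∀ s : Fin n →₀ ℕ, ∏ i ∈ U, z0 U z i ^ s i = ∏ i ∈ U, z i ^ s i := by
    intro s
    refine Finset.prod_congr rfl fun i hi => ?_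
    unfold z0
    rw [if_pos hi]
  by_cases hall : ∀ j ∈ Uᶜ, s j = 0
  · have h1 : ∀ x : Fin n → E, ∏ i ∈ Uᶜ, x i ^ s i = 1 := fun x =>
      Finset.prod_eq_one fun i hi => by rw [hall i hi, pow_zero]
    rw [aeval_monomial, aeval_monomial, hprod, hprod, h1, h1, hU, Finset.sum_eq_zero, add_zero]
    intro j hj
    rw [pderiv_monomial, hall j hj, Nat.cast_zero, mul_zero, monomial_zero, map_zero, mul_zero]
  · push Not at hall
    obtain ⟨j0, hj0, hs0⟩ := hall
    have h1 : s j0 + ∑ j ∈ Uᶜ.erase j0, s j ≤ 1 := by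
      rw [Finset.add_sum_erase _ _ hj0]
      exact hs
    have h2 : s j0 = 1 := by omega
    have h3 : ∀ j ∈ Uᶜ.erase j0, s j = 0 := by
      have h4 : ∑ j ∈ Uᶜ.erase j0, s j = 0 := by omega
      exact fun j hj => (Finset.sum_eq_zero_iff.1 h4) j hj
    have hj0U : j0 ∉ U := Finset.mem_compl.1 hj0
    have hzj0 : z0 U z j0 = 0 := by
      unfold z0
      rw [if_neg hj0U]
    have e1 : ∏ i ∈ Uᶜ, z0 U z i ^ s i = 0 :=
      Finset.prod_eq_zero hj0 (by rw [hzj0, h2, pow_one])
    have e2 : ∏ i ∈ Uᶜ, z i ^ s i = z j0 := by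
      rw [← Finset.mul_prod_erase _ _ hj0, h2, pow_one, Finset.prod_eq_one, mul_one]
      intro i hi
      rw [h3 i hi, pow_zero]
    rw [aeval_monomial, aeval_monomial, hprod, hprod, e1, e2, mul_zero, mul_zero, zero_add,
      Finset.sum_eq_single j0]
    · rw [pderiv_monomial, h2, Nat.cast_one, mul_one, aeval_monomial, hprod]
      have e3 : ∏ i ∈ Uᶜ, z0 U z i ^ (s - Finsupp.single j0 1 : Fin n →₀ ℕ) i = 1 := by
        refine Finset.prod_eq_one fun i hi => ?_
        rw [Finsupp.tsub_apply]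
        by_cases hij : i = j0
        · rw [hij, h2, Finsupp.single_eq_same, Nat.sub_self, pow_zero]
        · rw [h3 i (Finset.mem_erase.2 ⟨hij, hi⟩), Nat.zero_sub, pow_zero]
      have e4 : ∏ i ∈ U, z0 U z i ^ (s - Finsupp.single j0 1 : Fin n →₀ ℕ) i = ∏ i ∈ U, z i ^ s i := by
        rw [hU]
        refine Finset.prod_congr rfl fun i hi => ?_
        have hij : j0 ≠ i := fun h => hj0U (h ▸ hi)
        rw [Finsupp.tsub_apply, Finsupp.single_eq_of_ne hij.symm, Nat.sub_zero]
      rw [e3, e4]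
      ring
    · intro j hj hjj
      rw [pderiv_monomial, h3 j (Finset.mem_erase.2 ⟨hjj, hj⟩), Nat.cast_zero, mul_zero,
        monomial_zero, map_zero, mul_zero]
    · intro h
      exact absurd hj0 h

/-- expansion of a polynomial of degree at most one in the variables outside `U` -/
theorem affine_expand (U : Finset (Fin n)) (P : MvPolynomial (Fin n) k) (hP : LinOff U P)
    {E : Type} [CommRing E] [Algebra k E] (z : Fin n → E) :
    aeval z P = aeval (z0 U z) P + ∑ j ∈ Uᶜ, z j * aeval (z0 U z) (pderiv j P) := by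
  classical
  have h1 : P = ∑ s ∈ P.support, monomial s (coeff s P) := P.as_sum
  have h2 : ∀ j, pderiv j P = ∑ s ∈ P.support, pderiv j (monomial s (coeff s P)) := by
    intro j
    conv_lhs => rw [h1]
    rw [map_sum]
  have h3 : ∀ x : Fin n → E, aeval x P = ∑ s ∈ P.support, aeval x (monomial s (coeff s P)) := by
    intro x
    conv_lhs => rw [h1]
    rw [map_sum]
  rw [h3, h3]
  simp only [h2, map_sum, Finset.mul_sum]
  rw [Finset.sum_comm, ← Finset.sum_add_distrib]
  exact Finset.sum_congr rfl fun s hs => affine_mon U s (hP s hs) _ z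

/-- the universal numerator of a polynomial in fractions -/
theorem univ_num {A : Type} [CommRing A] [Algebra k A] (f g : Fin n → A)
    (F : MvPolynomial (Fin n) k) : ∃ (N : ℕ) (G : A), ∀ (E : Type) [CommRing E] [Algebra k E]
      (θ : A →ₐ[k] E) (z : Fin n → E), (∀ i, θ (g i) * z i = θ (f i)) →
        θ ((∏ i, g i) ^ N) * aeval z F = θ G := by
  classical
  induction F using MvPolynomial.induction_on with
  | C a =>
    refine ⟨0, algebraMap k A a, fun E _ _ θ z _ => ?_⟩
    rw [pow_zero, map_one, one_mul, ← MvPolynomial.algebraMap_eq, AlgHom.commutes,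
      AlgHom.commutes]
  | add p q hp hq =>
    obtain ⟨N1, G1, h1⟩ := hp
    obtain ⟨N2, G2, h2⟩ := hq
    refine ⟨N1 + N2, G1 * (∏ i, g i) ^ N2 + G2 * (∏ i, g i) ^ N1, fun E _ _ θ z hz => ?_⟩
    rw [map_add, map_add, map_mul, map_mul, ← h1 E θ z hz, ← h2 E θ z hz, pow_add, map_mul]
    ring
  | mul_X p i hp =>
    obtain ⟨N, G, h⟩ := hp
    refine ⟨N + 1, G * (f i * ∏ j ∈ Finset.univ.erase i, g j), fun E _ _ θ z hz => ?_⟩
    rw [map_mul (aeval z), aeval_X, pow_succ, map_mul θ, map_mul θ, ← h E θ z hz, map_mul θ,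
      ← hz i, ← Finset.mul_prod_erase _ _ (Finset.mem_univ i), map_mul θ (g i)]
    ring

/-- evaluation along a one-parameter subgroup of a homogeneous polynomial -/
theorem eval_hom {r : ℕ} (l : Fin r → ℤ) (q : MvPolynomial (Fin r) k) (e : ℤ)
    (he : ∀ b ∈ q.support, ∑ j, l j * (b j : ℤ) = e) (w0 : Fin r → k) (s : k) (hs : s ≠ 0) :
    eval (fun j => w0 j * s ^ l j) q = s ^ e * eval w0 q := by
  classical
  rw [eval_eq', eval_eq', Finset.mul_sum]
  refine Finset.sum_congr rfl fun b hb => ?_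
  have h1 : ∏ j, (w0 j * s ^ l j) ^ b j = s ^ e * ∏ j, w0 j ^ b j := by
    simp only [mul_pow]
    rw [Finset.prod_mul_distrib]
    have h2 : ∏ j, (s ^ l j) ^ b j = s ^ e := by
      rw [← he b hb]
      have h3 : ∀ T : Finset (Fin r), ∏ j ∈ T, (s ^ l j) ^ b j = s ^ (∑ j ∈ T, l j * (b j : ℤ)) := by
        intro T
        induction T using Finset.induction_on with
        | empty => simp
        | insert i T hi ih =>
          rw [Finset.prod_insert hi, Finset.sum_insert hi, zpow_add₀ hs, ih, zpow_mul,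
            zpow_natCast]
      exact h3 _
    rw [h2]
    ring
  rw [h1]
  ring

/-- Laurent curves from homogeneous denominators -/
theorem curve_of_data [CharZero k] {r : ℕ} {ι : Type} (l : Fin r → ℤ)
    (p q : Fin n → MvPolynomial (Fin r) k)
    (hom : ∀ i, ∀ b ∈ (q i).support, ∀ b' ∈ (q i).support,
      ∑ j, l j * (b j : ℤ) = ∑ j, l j * (b' j : ℤ))
    (hq : ∀ i, q i ≠ 0) (F : ι → MvPolynomial (Fin n) k)
    {B : Type} [CommRing B] [IsDomain B] [Algebra k B] (w : Fin r → B)
    (hw : AlgebraicIndependent k w) (y : Fin n → B)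
    (hy : ∀ i, aeval w (q i) * y i = aeval w (p i)) (hF : ∀ i, aeval y (F i) = 0)
    (w0 : Fin r → k) (hw0 : ∀ j, w0 j ≠ 0) (hq0 : ∀ i, eval w0 (q i) ≠ 0) :
    ∃ v : k → Fin n → k, (∀ j, Laur fun t => v t j) ∧
      (∀ i s, s ≠ 0 → eval (v s) (F i) = 0) ∧
      ∀ s, s ≠ 0 → ∀ i, eval (fun j => w0 j * s ^ l j) (q i) * v s i =
        eval (fun j => w0 j * s ^ l j) (p i) := by
  classical
  have hex : ∀ i, ∃ e : ℤ, ∀ b ∈ (q i).support, ∑ j, l j * (b j : ℤ) = e := by
    intro i
    obtain ⟨b, hb⟩ := (MvPolynomial.support_nonempty.2 (hq i))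
    exact ⟨_, fun b' hb' => hom i b' hb' b hb⟩
  choose e he using hex
  let v : k → Fin n → k := fun s i =>
    eval (fun j => w0 j * s ^ l j) (p i) * ((s ^ (-e i)) * (eval w0 (q i))⁻¹)
  have hLw : ∀ j, Laur fun s : k => w0 j * s ^ l j := fun j =>
    (Laur.const (w0 j)).mul (Laur.zpow (l j))
  have hv : ∀ s, s ≠ 0 → ∀ i, eval (fun j => w0 j * s ^ l j) (q i) * v s i =
      eval (fun j => w0 j * s ^ l j) (p i) := by
    intro s hs i
    simp only [v]
    rw [eval_hom l (q i) (e i) (he i) w0 s hs]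
    have h1 : s ^ e i * s ^ (-e i) = 1 := by
      rw [← zpow_add₀ hs, add_neg_cancel, zpow_zero]
    have h2 : eval w0 (q i) * (eval w0 (q i))⁻¹ = 1 := mul_inv_cancel₀ (hq0 i)
    calc s ^ e i * eval w0 (q i) * (eval (fun j => w0 j * s ^ l j) (p i) *
          (s ^ (-e i) * (eval w0 (q i))⁻¹)) = eval (fun j => w0 j * s ^ l j) (p i) *
          ((s ^ e i * s ^ (-e i)) * (eval w0 (q i) * (eval w0 (q i))⁻¹)) := by ring
      _ = _ := by rw [h1, h2, mul_one, mul_one]
  refine ⟨v, fun j => ?_, fun i s hs => ?_, hv⟩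
  · exact (Laur.eval _ hLw (p j)).mul ((Laur.zpow (-e j)).mul (Laur.const _))
  · obtain ⟨N, G, hG⟩ := univ_num (k := k) p q (F i)
    have hinj : Function.Injective (aeval (R := k) w) := hw
    have h1 := hG B (aeval w) y hy
    rw [hF, mul_zero] at h1
    have hG0 : G = 0 := hinj (by rw [← h1, map_zero])
    let ρ : MvPolynomial (Fin r) k →ₐ[k] k := aeval (fun j => w0 j * s ^ l j)
    have hρ : ∀ P, ρ P = eval (fun j => w0 j * s ^ l j) P := fun P => ae_eval _ P
    have h2 := hG k ρ (v s) (fun i => by rw [hρ, hρ]; exact hv s hs i)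
    rw [hG0, map_zero] at h2
    have h3 : ρ ((∏ i, q i) ^ N) ≠ 0 := by
      rw [map_pow, map_prod]
      refine pow_ne_zero _ (Finset.prod_ne_zero_iff.2 fun i _ => ?_)
      rw [hρ, eval_hom l (q i) (e i) (he i) w0 s hs]
      exact mul_ne_zero (zpow_ne_zero _ hs) (hq0 i)
    have h4 := (mul_eq_zero.1 h2).resolve_left h3
    rwa [ae_eval] at h4

end Pool.Agent.N754.LT
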