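import Mathlib
import Pool.Agent.N754.LT.Alg

/-!
Linear systems over the function field of a torus: either a line through the point, or the
solution is a rational function.
-/

set_option autoImplicit false
set_option linter.unusedSectionVars false

open Finset MvPolynomial Filter

namespace Pool.Agent.N754.LT

open Pool.Agent.H159R3.Exp (Laur)

/-- specialisations of the elements of `B` along a filter -/
structure Rp (k B : Type) [Field k] [CommRing B] [Algebra k B] where
  T : Type
  G : Filter T
  rep : B → T → k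
  rep_add : ∀ x y, ∀ᶠ t in G, rep (x + y) t = rep x t + rep y t
  rep_mul : ∀ x y, ∀ᶠ t in G, rep (x * y) t = rep x t * rep y t
  rep_const : ∀ c : k, ∀ᶠ t in G, rep (algebraMap k B c) t = c
  rep_ne : ∀ x, x ≠ 0 → ∀ᶠ t in G, rep x t ≠ 0

variable {k B : Type} [Field k] [CommRing B] [IsDomain B] [Algebra k B] (ρ : Rp k B) {n : ℕ}

theorem Rp.rep_zero : ∀ᶠ t in ρ.G, ρ.rep 0 t = 0 := by
  have h := ρ.rep_const 0
  rwa [map_zero] at h

theorem Rp.rep_sum {κ : Type} (s : Finset κ) (x : κ → B) :
    ∀ᶠ t in ρ.G, ρ.rep (∑ i ∈ s, x i) t = ∑ i ∈ s, ρ.rep (x i) t := by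
  classical
  induction s using Finset.induction_on with
  | empty => simpa using ρ.rep_zero
  | insert i s hi ih =>
    filter_upwards [ih, ρ.rep_add (x i) (∑ i ∈ s, x i)] with t h1 h2
    rw [Finset.sum_insert hi, Finset.sum_insert hi, h2, h1]

theorem Rp.rep_aeval {m : ℕ} (x : Fin m → B) (P : MvPolynomial (Fin m) k) :
    ∀ᶠ t in ρ.G, ρ.rep (aeval x P) t = eval (fun i => ρ.rep (x i) t) P := by
  induction P using MvPolynomial.induction_on with
  | C a =>
    filter_upwards [ρ.rep_const a] with t h
    rw [eval_C, ← MvPolynomial.algebraMap_eq, AlgHom.commutes, h]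
  | add p q hp hq =>
    filter_upwards [hp, hq, ρ.rep_add (aeval x p) (aeval x q)] with t h1 h2 h3
    rw [map_add, map_add, h3, h1, h2]
  | mul_X p i hp =>
    filter_upwards [hp, ρ.rep_mul (aeval x p) (x i)] with t h1 h3
    rw [map_mul, map_mul, aeval_X, eval_X, h3, h1]

/-- the good curves through the point with index `t` -/
def CurveAt {ι : Type} (F : ι → MvPolynomial (Fin n) k) (y : Fin n → B) (t : ρ.T) : Prop :=
  ∃ v : k → Fin n → k, (∀ j, Laur fun s => v s j) ∧ (∀ i s, s ≠ 0 → eval (v s) (F i) = 0) ∧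
    (v 1 = fun j => ρ.rep (y j) t) ∧ ∃ j, v 2 j ≠ v 1 j

theorem line_case (U : Finset (Fin n)) {ι : Type} [Finite ι] (F : ι → MvPolynomial (Fin n) k)
    (hlin : ∀ l, LinOff U (F l)) (y : Fin n → B) (hF : ∀ l, aeval y (F l) = 0) (g : Fin n → B)
    (hg : ∃ j ∈ Uᶜ, g j ≠ 0)
    (hker : ∀ l, ∑ j ∈ Uᶜ, g j * aeval (z0 U y) (pderiv j (F l)) = 0) :
    ∀ᶠ t in ρ.G, CurveAt ρ F y t := by
  classical
  obtain ⟨j0, hj0, hg0⟩ := hg
  have e1 : ∀ᶠ t in ρ.G, ∀ l, eval (fun i => ρ.rep (y i) t) (F l) = 0 := by
    refine (Filter.eventually_all).2 fun l => ?_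
    filter_upwards [ρ.rep_aeval y (F l), ρ.rep_zero] with t h1 h2
    rw [← h1, hF, h2]
  have e2 : ∀ᶠ t in ρ.G, ∀ l, ∀ j, ρ.rep (aeval (z0 U y) (pderiv j (F l))) t =
      eval (z0 U fun i => ρ.rep (y i) t) (pderiv j (F l)) := by
    refine (Filter.eventually_all).2 fun l => (Filter.eventually_all).2 fun j => ?_
    have h0 : ∀ᶠ t in ρ.G, (fun i => ρ.rep (z0 U y i) t) = z0 U fun i => ρ.rep (y i) t := by
      filter_upwards [ρ.rep_zero] with t h
      funext i
      unfold z0
      by_cases hi : i ∈ U
      · rw [if_pos hi, if_pos hi]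
      · rw [if_neg hi, if_neg hi, h]
    filter_upwards [ρ.rep_aeval (z0 U y) (pderiv j (F l)), h0] with t h1 h2
    rw [h1, h2]
  have e3 : ∀ᶠ t in ρ.G, ∀ l, ∑ j ∈ Uᶜ, ρ.rep (g j) t *
      ρ.rep (aeval (z0 U y) (pderiv j (F l))) t = 0 := by
    refine (Filter.eventually_all).2 fun l => ?_
    have h1 : ∀ᶠ t in ρ.G, ∀ j ∈ Uᶜ, ρ.rep (g j * aeval (z0 U y) (pderiv j (F l))) t =
        ρ.rep (g j) t * ρ.rep (aeval (z0 U y) (pderiv j (F l))) t :=
      (Filter.eventually_all_finset _).2 fun j _ => ρ.rep_mul _ _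
    filter_upwards [h1, ρ.rep_sum Uᶜ (fun j => g j * aeval (z0 U y) (pderiv j (F l))),
      ρ.rep_zero] with t h2 h3 h4
    rw [hker, h4] at h3
    rw [h3]
    exact (Finset.sum_congr rfl h2).symm
  filter_upwards [e1, e2, e3, ρ.rep_ne _ hg0] with t h1 h2 h3 h4
  set yt : Fin n → k := fun i => ρ.rep (y i) t with hyt
  let d : Fin n → k := fun j => if j ∈ U then 0 else ρ.rep (g j) t
  refine ⟨fun s j => yt j + (s - 1) * d j, fun j => ?_, fun l s _ => ?_, ?_, j0, ?_⟩
  · have h5 : (fun s : k => yt j + (s - 1) * d j) = fun s => yt j + (s + (-1)) * d j := by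
      funext s
      rw [sub_eq_add_neg]
    rw [h5]
    exact (Laur.const _).add ((Laur.id.add (Laur.const _)).mul (Laur.const _))
  · have h5 : z0 U (fun j => yt j + (s - 1) * d j) = z0 U yt := by
      funext i
      unfold z0
      by_cases hi : i ∈ U
      · rw [if_pos hi, if_pos hi]
        simp [d, hi]
      · rw [if_neg hi, if_neg hi]
    have h6 := affine_expand U (F l) (hlin l) (fun j => yt j + (s - 1) * d j)
    have h7 := affine_expand U (F l) (hlin l) yt
    have h8 := h1 l
    simp only [ae_eval] at h6 h7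
    rw [h6, h5]
    have h9 : ∑ j ∈ Uᶜ, (yt j + (s - 1) * d j) * eval (z0 U yt) (pderiv j (F l)) =
        ∑ j ∈ Uᶜ, yt j * eval (z0 U yt) (pderiv j (F l)) +
          (s - 1) * ∑ j ∈ Uᶜ, ρ.rep (g j) t * ρ.rep (aeval (z0 U y) (pderiv j (F l))) t := by
      rw [Finset.mul_sum, ← Finset.sum_add_distrib]
      refine Finset.sum_congr rfl fun j hj => ?_
      have hjU : j ∉ U := Finset.mem_compl.1 hj
      simp only [d, if_neg hjU]
      rw [h2 l j]
      ring
    rw [h9, h3 l, mul_zero, add_zero, ← h7]
    exact h8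
  · funext j
    simp [hyt]
  · have hjU : j0 ∉ U := Finset.mem_compl.1 hj0
    simp only [d, if_neg hjU]
    intro h
    apply h4
    have h5 : (2 : k) - 1 = 1 := by norm_num
    rw [h5, one_mul, sub_self, zero_mul, add_zero] at h
    exact add_eq_left.1 h

theorem dichotomy (U : Finset (Fin n)) {ι : Type} [Finite ι] (F : ι → MvPolynomial (Fin n) k)
    (hlin : ∀ l, LinOff U (F l)) (y : Fin n → B) (hF : ∀ l, aeval y (F l) = 0) {r : ℕ}
    (w : Fin r → B) (hw : AlgebraicIndependent k w) (f g : Fin n → MvPolynomial (Fin r) k)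
    (hg : ∀ i ∈ U, g i ≠ 0) (hfg : ∀ i ∈ U, aeval w (g i) * y i = aeval w (f i)) :
    (∀ᶠ t in ρ.G, CurveAt ρ F y t) ∨ ∀ j, j ∉ U → ∃ p q : MvPolynomial (Fin r) k,
      IsRelPrime q p ∧ q ≠ 0 ∧ aeval w q * y j = aeval w p := by
  classical
  have := Fintype.ofFinite ι
  set θ : MvPolynomial (Fin r) k →ₐ[k] B := aeval w with hθ
  have hinj : Function.Injective θ := hw
  let A : Type := MvPolynomial (Fin r) k
  let K0 : Type := FractionRing A
  let E : Type := FractionRing B
  have hEinj : Function.Injective (algebraMap B E) := IsFractionRing.injective B E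
  have hKinj : Function.Injective (algebraMap A K0) := IsFractionRing.injective A K0
  let θE : A →ₐ[k] E := (IsScalarTower.toAlgHom k B E).comp θ
  have hθE : ∀ P : A, θE P = algebraMap B E (θ P) := fun P => rfl
  have hθEinj : Function.Injective θE := fun P Q h => hinj (hEinj h)
  let Θ : K0 →ₐ[k] E := IsFractionRing.liftAlgHom (g := θE) hθEinj
  have hΘ : ∀ P : A, Θ (algebraMap A K0 P) = algebraMap B E (θ P) := fun P =>
    IsFractionRing.lift_algebraMap (g := (θE : A →+* E)) hθEinj P
  have hΘinj : Function.Injective Θ := (Θ : K0 →+* E).injective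
  let Y : Fin n → K0 := fun i => if i ∈ U then algebraMap A K0 (f i) / algebraMap A K0 (g i) else 0
  have hY : ∀ i, Θ (Y i) = algebraMap B E (z0 U y i) := by
    intro i
    simp only [Y, z0]
    by_cases hi : i ∈ U
    · rw [if_pos hi, if_pos hi, map_div₀, hΘ, hΘ, ← hfg i hi, map_mul]
      have h1 : algebraMap B E (θ (g i)) ≠ 0 := by
        rw [← hθE]
        exact (map_ne_zero_iff θE hθEinj).2 (hg i hi)
      rw [mul_comm, mul_div_assoc, div_self h1, mul_one]
    · rw [if_neg hi, if_neg hi, map_zero, map_zero]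
  have hYP : ∀ P : MvPolynomial (Fin n) k, Θ (aeval Y P) = algebraMap B E (aeval (z0 U y) P) := by
    intro P
    have h1 : Θ (aeval Y P) = aeval (fun i => Θ (Y i)) P := by
      have h3 : (Θ.comp (aeval Y)) = aeval (fun i => Θ (Y i)) := by
        ext i
        simp
      exact DFunLike.congr_fun h3 P
    have h2 : algebraMap B E (aeval (z0 U y) P) = aeval (fun i => algebraMap B E (z0 U y i)) P := by
      have h3 : ((IsScalarTower.toAlgHom k B E).comp (aeval (z0 U y))) =
          aeval (fun i => algebraMap B E (z0 U y i)) := by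
        ext i
        simp
      exact DFunLike.congr_fun h3 P
    rw [h1, h2]
    congr 1
    exact congrArg aeval (funext hY)
  let AA : ι → Fin n → K0 := fun l j => aeval Y (pderiv j (F l))
  let C : Type := (Uᶜ : Finset (Fin n))
  let Φ : (C → K0) →ₗ[K0] (ι → K0) :=
    { toFun := fun v l => ∑ j : C, v j * AA l j.1
      map_add' := fun v v' => by
        funext l
        simp only [Pi.add_apply, add_mul, Finset.sum_add_distrib]
      map_smul' := fun c v => by
        funext l
        simp only [Pi.smul_apply, smul_eq_mul, RingHom.id_apply, mul_assoc]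
        exact (Finset.mul_sum _ _ _).symm }
  by_cases hΦ : Function.Injective Φ
  · right
    obtain ⟨g', hg'⟩ := LinearMap.exists_leftInverse_of_injective Φ (LinearMap.ker_eq_bot.2 hΦ)
    let P : C → ι → K0 := fun j l => g' (Pi.single l 1) j
    have hg'P : ∀ (b : ι → K0) (j : C), g' b j = ∑ l, b l * P j l := by
      intro b j
      have h1 : b = ∑ l, b l • (Pi.single l 1 : ι → K0) := by
        funext i
        rw [Finset.sum_apply, Finset.sum_eq_single i]
        · simp
        · intro l _ hl
          rw [Pi.smul_apply, Pi.single_eq_of_ne (Ne.symm hl), smul_zero]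
        · intro h
          exact absurd (Finset.mem_univ _) h
      conv_lhs => rw [h1]
      rw [map_sum, Finset.sum_apply]
      refine Finset.sum_congr rfl fun l _ => ?_
      rw [map_smul, Pi.smul_apply, smul_eq_mul]
    have hPA : ∀ j j' : C, ∑ l, AA l j'.1 * P j l = if j = j' then 1 else 0 := by
      intro j j'
      have h1 := congrFun (LinearMap.congr_fun hg' (Pi.single j' 1)) j
      rw [LinearMap.comp_apply, hg'P, LinearMap.id_apply] at h1
      rw [Pi.single_apply] at h1
      rw [← h1]
      refine Finset.sum_congr rfl fun l _ => ?_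
      congr 1
      show AA l j'.1 = ∑ i : C, (Pi.single j' 1 : C → K0) i * AA l i.1
      rw [Finset.sum_eq_single j']
      · rw [Pi.single_eq_same, one_mul]
      · intro i _ hi
        rw [Pi.single_eq_of_ne hi, zero_mul]
      · intro h
        exact absurd (Finset.mem_univ _) h
    intro j hj
    let jC : C := ⟨j, Finset.mem_compl.2 hj⟩
    let X : K0 := ∑ l, (-(aeval Y (F l))) * P jC l
    have hX : Θ X = algebraMap B E (y j) := by
      have h1 : ∀ l, ∑ j' : C, algebraMap B E (y j'.1) * Θ (AA l j'.1) = -Θ (aeval Y (F l)) := by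
        intro l
        have h2 := congrArg (algebraMap B E) (affine_expand U (F l) (hlin l) y)
        rw [hF, map_zero, map_add, map_sum, ← Finset.sum_coe_sort] at h2
        rw [hYP, eq_neg_iff_add_eq_zero, add_comm, h2]
        congr 1
        refine Finset.sum_congr rfl fun j' _ => ?_
        rw [map_mul, ← hYP]
      have h2 : Θ X = ∑ l, (∑ j' : C, algebraMap B E (y j'.1) * Θ (AA l j'.1)) * Θ (P jC l) := by
        simp only [X]
        rw [map_sum]
        refine Finset.sum_congr rfl fun l _ => ?_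
        rw [map_mul, map_neg, h1]
      rw [h2]
      simp only [Finset.sum_mul]
      rw [Finset.sum_comm]
      have h3 : ∀ j' : C, ∑ l, algebraMap B E (y j'.1) * Θ (AA l j'.1) * Θ (P jC l) =
          if jC = j' then algebraMap B E (y j'.1) else 0 := by
        intro j'
        have h4 : ∑ l, algebraMap B E (y j'.1) * Θ (AA l j'.1) * Θ (P jC l) =
            algebraMap B E (y j'.1) * Θ (∑ l, AA l j'.1 * P jC l) := by
          rw [map_sum, Finset.mul_sum]
          refine Finset.sum_congr rfl fun l _ => ?_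
          rw [map_mul, mul_assoc]
        rw [h4, hPA]
        by_cases hjj : jC = j'
        · rw [if_pos hjj, if_pos hjj, map_one, mul_one]
        · rw [if_neg hjj, if_neg hjj, map_zero, mul_zero]
      simp only [h3]
      rw [Finset.sum_ite_eq Finset.univ jC, if_pos (Finset.mem_univ _)]
    obtain ⟨p, q, hpq, hX2⟩ := IsFractionRing.exists_reduced_fraction (A := A) (K := K0) X
    refine ⟨p, q, hpq.symm, nonZeroDivisors.ne_zero q.2, ?_⟩
    apply hEinj
    rw [map_mul, ← hX, ← hX2, ← hΘ, ← hΘ, ← map_mul]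
    congr 1
    exact IsLocalization.mk'_spec' K0 p q
  · left
    have hker : ∃ v : C → K0, v ≠ 0 ∧ Φ v = 0 := by
      by_contra hcon
      push Not at hcon
      apply hΦ
      rw [injective_iff_map_eq_zero]
      intro v hv
      by_contra hv0
      exact hcon v hv0 hv
    obtain ⟨v, hv0, hv⟩ := hker
    obtain ⟨b, hb⟩ := IsLocalization.exist_integer_multiples (nonZeroDivisors A)
      (Finset.univ : Finset C) v
    choose G hG using fun j : C => hb j (Finset.mem_univ _)
    have hG' : ∀ j : C, algebraMap A K0 (G j) = algebraMap A K0 b * v j := by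
      intro j
      rw [hG j, Algebra.smul_def]
    have hb0 : algebraMap A K0 b ≠ 0 := (map_ne_zero_iff _ hKinj).2 (nonZeroDivisors.ne_zero b.2)
    let gg : Fin n → B := fun j => if h : j ∈ Uᶜ then θ (G ⟨j, h⟩) else 0
    have hgg : ∀ j : C, gg j.1 = θ (G j) := fun j => by
      simp only [gg]
      rw [dif_pos j.2]
    refine line_case ρ U F hlin y hF gg ?_ ?_
    · obtain ⟨j, hj⟩ := Function.ne_iff.1 hv0
      refine ⟨j.1, j.2, ?_⟩
      rw [hgg]
      intro h
      have h1 : G j = 0 := hinj (by rw [h, map_zero])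
      have h2 := hG' j
      rw [h1, map_zero] at h2
      exact hj ((mul_eq_zero.1 h2.symm).resolve_left hb0)
    · intro l
      apply hEinj
      rw [map_zero, map_sum, ← Finset.sum_coe_sort]
      have h1 : ∑ j : C, algebraMap A K0 (G j) * AA l j.1 = 0 := by
        have h2 : ∑ j : C, v j * AA l j.1 = 0 := congrFun hv l
        have h3 : ∑ j : C, algebraMap A K0 (G j) * AA l j.1 =
            algebraMap A K0 b * ∑ j : C, v j * AA l j.1 := by
          rw [Finset.mul_sum]
          refine Finset.sum_congr rfl fun j _ => ?_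
          rw [hG', mul_assoc]
        rw [h3, h2, mul_zero]
      have h2 := congrArg Θ h1
      rw [map_zero, map_sum] at h2
      rw [← h2]
      refine Finset.sum_congr rfl fun j _ => ?_
      rw [map_mul, map_mul, hΘ, hgg, hYP]

end Pool.Agent.N754.LT
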