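import Mathlib
import Pool.Agent.Y742.DI.Ech

/-!
The numerical estimate in the quotient theorem.
-/

set_option autoImplicit false

open Finset

namespace Pool.Agent.N754.LT

open Pool.Agent.Y742.DI

theorem num_est (r d e : ℕ) (hr : 1 ≤ r) (C ε : ℝ) (hC : 0 ≤ C) (hε : 0 < ε) :
    ∃ M : ℕ, d + e ≤ M ∧ ∀ N : ℕ, N ≤ (Sx r M).card →
      (Sx r (M - d)).card + (Sx r (M - e)).card ≤ N + (Sx r (M - (d + e))).card →
      0 < N ∧ (((Sx r M).card : ℝ) - N) * M * C ≤ ε * N := by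
  set q : ℝ := (r : ℝ) ^ r with hq
  have hq1 : 1 ≤ q := by
    rw [hq]
    exact one_le_pow₀ (by exact_mod_cast hr)
  obtain ⟨M0, hM0⟩ := exists_nat_ge (2 * q * (d * e) * C / ε + 2 * q * (d * e) + d + e + 1)
  refine ⟨M0, ?_, ?_⟩
  · have h1 : 0 ≤ 2 * q * (d * e) * C / ε := by positivity
    have h2 : 0 ≤ 2 * q * ((d : ℝ) * e) := by positivity
    have h3 : ((d + e : ℕ) : ℝ) ≤ M0 := by push_cast; linarith
    exact_mod_cast h3
  intro N hN hN2
  have hde : d + e ≤ M0 := by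
    have h1 : 0 ≤ 2 * q * (d * e) * C / ε := by positivity
    have h2 : 0 ≤ 2 * q * ((d : ℝ) * e) := by positivity
    have h3 : ((d + e : ℕ) : ℝ) ≤ M0 := by push_cast; linarith
    exact_mod_cast h3
  have h1 := Sx_diff r d e hr M0 hde
  have h2 := Sx_lower r M0 hr
  set T : ℝ := ((M0 : ℝ) + 1) with hT
  have hT1 : 1 ≤ T := by rw [hT]; have : (0:ℝ) ≤ M0 := Nat.cast_nonneg _; linarith
  have h1' : T ^ 2 * (((Sx r M0).card : ℝ) + (Sx r (M0 - (d + e))).card) ≤
      T ^ 2 * (((Sx r (M0 - d)).card : ℝ) + (Sx r (M0 - e)).card) + d * e * T ^ r := by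
    rw [hT]
    exact_mod_cast h1
  have h2' : T ^ r ≤ q * (Sx r M0).card := by
    rw [hT, hq]
    exact_mod_cast h2
  have hN2' : ((Sx r (M0 - d)).card : ℝ) + (Sx r (M0 - e)).card ≤
      N + (Sx r (M0 - (d + e))).card := by exact_mod_cast hN2
  have hN' : (N : ℝ) ≤ (Sx r M0).card := by exact_mod_cast hN
  set X : ℝ := ((Sx r M0).card : ℝ) with hX
  have hTr : 0 < T ^ r := by positivity
  have hT2 : 0 < T ^ 2 := by positivity
  -- the complement is small
  have h3 : T ^ 2 * (X - N) ≤ d * e * T ^ r := by nlinarith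
  have hTbig : 2 * q * (d * e) ≤ T := by
    have h4 : 0 ≤ 2 * q * (d * e) * C / ε := by positivity
    have h5 : (0 : ℝ) ≤ d := Nat.cast_nonneg _
    have h6 : (0 : ℝ) ≤ e := Nat.cast_nonneg _
    rw [hT]
    linarith
  have hTbig2 : 2 * q * (d * e) * C ≤ ε * T := by
    have h4 : 2 * q * (d * e) * C / ε ≤ T := by
      have h4 : 0 ≤ 2 * q * ((d : ℝ) * e) := by positivity
      have h5 : (0 : ℝ) ≤ d := Nat.cast_nonneg _
      have h6 : (0 : ℝ) ≤ e := Nat.cast_nonneg _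
      rw [hT]
      linarith
    rw [div_le_iff₀ hε] at h4
    linarith
  have hXN : (X - N) ≤ d * e * T ^ r / T ^ 2 := by
    rw [le_div_iff₀ hT2]
    linarith
  have hde0 : (0 : ℝ) ≤ d * e := by positivity
  -- lower bound for N
  have h4 : 2 * q * (d * e) * T ^ r / T ^ 2 ≤ T ^ r := by
    rw [div_le_iff₀ hT2]
    have h5 : T ≤ T ^ 2 := by nlinarith
    nlinarith
  have h5 : T ^ r ≤ 2 * q * N := by
    have h6 : q * (X - N) ≤ T ^ r / 2 := by
      calc q * (X - N) ≤ q * (d * e * T ^ r / T ^ 2) :=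
            mul_le_mul_of_nonneg_left hXN (by linarith)
        _ = (2 * q * (d * e) * T ^ r / T ^ 2) / 2 := by ring
        _ ≤ _ := by linarith
    nlinarith
  have hNpos : (0 : ℝ) < N := by
    by_contra h
    have h6 : (N : ℝ) ≤ 0 := not_lt.1 h
    have h7 : 2 * q * (N : ℝ) ≤ 0 := by nlinarith
    linarith
  refine ⟨by exact_mod_cast hNpos, ?_⟩
  have hM0 : (0 : ℝ) ≤ M0 := Nat.cast_nonneg _
  have hMT : (M0 : ℝ) ≤ T := by rw [hT]; linarith
  have hXN0 : 0 ≤ X - N := by linarith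
  have h6 : (X - N) * M0 * C ≤ (d * e * T ^ r / T ^ 2) * T * C := by
    have h6a : (X - N) * M0 ≤ (d * e * T ^ r / T ^ 2) * T :=
      mul_le_mul hXN hMT hM0 (hXN0.trans hXN)
    exact mul_le_mul_of_nonneg_right h6a hC
  have h7 : (d * e * T ^ r / T ^ 2) * T * C = d * e * C * T ^ r / T := by
    field_simp
  have h8 : d * e * C * T ^ r / T ≤ ε * N := by
    rw [div_le_iff₀ (by linarith)]
    have h9 : d * e * C * T ^ r ≤ d * e * C * (2 * q * N) :=
      mul_le_mul_of_nonneg_left h5 (by positivity)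
    have h10 : d * e * C * (2 * q * N) = (2 * q * (d * e) * C) * N := by ring
    have h11 : (2 * q * (d * e) * C) * N ≤ (ε * T) * N :=
      mul_le_mul_of_nonneg_right hTbig2 hNpos.le
    nlinarith
  linarith

end Pool.Agent.N754.LT
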