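import Mathlib
import Pool.Agent.N754.LT.Quot

/-!
If `q(w)` is negligible then the ratios of the monomials of `q` are small.
-/

set_option autoImplicit false
set_option linter.unusedSectionVars false

open Finset Filter Module MvPolynomial

namespace Pool.Agent.N754.LT

open Pool.Agent.Y742.DI

variable {k R : Type} [Field k] [CommRing R] [IsDomain R] [Algebra k R] (D : Dc k R) {r : ℕ}

theorem mon_fs (w : Fin r → Rˣ) (s : Fin r →₀ ℕ) (c : k) :
    aeval (fun i => (w i : R)) (monomial s c) = algebraMap k R c * (mon w (fun i => s i) : Rˣ) := by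
  rw [aeval_monomial, mon_val, Finsupp.prod_fintype _ _ (fun i => pow_zero _)]

theorem mon_li (w : Fin r → Rˣ) (hw : AlgebraicIndependent k (fun i => (w i : R)))
    (T : Finset (Fin r →₀ ℕ)) (c : T → k)
    (hc : ∑ b : T, algebraMap k R (c b) * (mon w (fun i => b.1 i) : Rˣ) = 0) : c = 0 := by
  classical
  have hinj : Function.Injective (aeval (R := k) (fun i => (w i : R))) := hw
  have h1 : ∑ b : T, monomial b.1 (c b) = 0 := by
    apply hinj
    rw [map_sum, map_zero, ← hc]
    exact Finset.sum_congr rfl fun b _ => mon_fs w b.1 (c b)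
  funext b
  have h2 := congrArg (coeff b.1) h1
  rw [coeff_sum, Finset.sum_eq_single b] at h2
  · rw [coeff_monomial, if_pos rfl, coeff_zero] at h2
    exact h2
  · intro b' _ hb'
    rw [coeff_monomial, if_neg]
    exact fun h => hb' (Subtype.ext h)
  · intro h
    exact absurd (Finset.mem_univ _) h

theorem supp_low (w : Fin r → Rˣ) (hw : AlgebraicIndependent k (fun i => (w i : R)))
    (q : MvPolynomial (Fin r) k)
    (h : D.Neg (fun ω => D.lg (aeval (fun i => (w i : R)) q) ω)) (b b' : Fin r →₀ ℕ)
    (hb : b ∈ q.support) (hb' : b' ∈ q.support) :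
    D.Neg (fun ω => |D.lg (mon w (fun i => b i) : Rˣ) ω - D.lg (mon w (fun i => b' i) : Rˣ) ω|) := by
  classical
  set φ : MvPolynomial (Fin r) k →ₐ[k] R := aeval (fun i => (w i : R)) with hφ
  have hinj : Function.Injective φ := hw
  set T : Finset (Fin r →₀ ℕ) := q.support with hT
  have hq : q ≠ 0 := fun h0 => by
    rw [hT, h0, support_zero] at hb
    exact absurd hb (Finset.notMem_empty _)
  have hq0 : φ q ≠ 0 := fun h => hq (hinj (by rw [h, map_zero]))
  let m : T → Rˣ := fun a => mon w (fun i => a.1 i)
  have hφq : φ q = ∑ a : T, algebraMap k R (coeff a.1 q) * (m a : R) := by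
    conv_lhs => rw [q.as_sum]
    rw [map_sum, ← Finset.sum_coe_sort]
    exact Finset.sum_congr rfl fun a _ => mon_fs w a.1 _
  have hcoef : ∀ a : T, coeff a.1 q ≠ 0 := fun a => mem_support_iff.1 a.2
  let e : Fin (Fintype.card T) ≃ T := (Fintype.equivFin T).symm
  let B : T → Fin (Fintype.card T) → R := fun c i => if e i = c then φ q else (m (e i) : R)
  -- independence
  have hBli : ∀ c, LinearIndependent k (B c) := by
    intro c
    rw [Fintype.linearIndependent_iff]
    intro g hg
    have h1 : ∑ a : T, g (e.symm a) • (if a = c then φ q else (m a : R)) = 0 := by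
      rw [← hg]
      exact Fintype.sum_equiv e.symm _ _ fun a => by simp [B]
    have h2 : ∑ a : T, algebraMap k R ((if a = c then 0 else g (e.symm a)) +
        g (e.symm c) * coeff a.1 q) * (m a : R) = 0 := by
      rw [← h1]
      have h3 : ∑ a : T, g (e.symm a) • (if a = c then φ q else (m a : R)) =
          g (e.symm c) • φ q + ∑ a : T, (if a = c then 0 else g (e.symm a)) • (m a : R) := by
        rw [← Finset.add_sum_erase _ _ (Finset.mem_univ c), if_pos rfl]
        congr 1
        rw [← Finset.add_sum_erase (Finset.univ : Finset T) (fun a => (if a = c then 0 else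
          g (e.symm a)) • (m a : R)) (Finset.mem_univ c), if_pos rfl, zero_smul, zero_add]
        refine Finset.sum_congr rfl fun a ha => ?_
        rw [if_neg (Finset.ne_of_mem_erase ha), if_neg (Finset.ne_of_mem_erase ha)]
      rw [h3, hφq, Finset.smul_sum, ← Finset.sum_add_distrib]
      refine Finset.sum_congr rfl fun a _ => ?_
      rw [map_add, map_mul, Algebra.smul_def, Algebra.smul_def]
      ring
    have h3 := mon_li w hw T _ h2
    have h4 : g (e.symm c) = 0 := by
      have h5 := congrFun h3 c
      simp only [if_true, zero_add, Pi.zero_apply] at h5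
      exact (mul_eq_zero.1 h5).resolve_right (hcoef c)
    intro i
    by_cases hi : e i = c
    · rw [← hi, Equiv.symm_apply_apply] at h4
      exact h4
    · have h5 := congrFun h3 (e i)
      simp only [if_neg hi, Equiv.symm_apply_apply, h4, zero_mul, add_zero, Pi.zero_apply] at h5
      exact h5
  -- spans
  have hspan : ∀ c, Submodule.span k (Set.range (B c)) =
      Submodule.span k (Set.range fun a : T => (m a : R)) := by
    intro c
    have hmem : φ q ∈ Submodule.span k (Set.range fun a : T => (m a : R)) := by
      rw [hφq]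
      refine Submodule.sum_mem _ fun a _ => ?_
      rw [← Algebra.smul_def]
      exact Submodule.smul_mem _ _ (Submodule.subset_span ⟨a, rfl⟩)
    apply le_antisymm
    · rw [Submodule.span_le]
      rintro _ ⟨i, rfl⟩
      by_cases hi : e i = c
      · simp only [B, if_pos hi]
        exact hmem
      · simp only [B, if_neg hi]
        exact Submodule.subset_span ⟨e i, rfl⟩
    · rw [Submodule.span_le]
      have hne : ∀ a, a ≠ c → (m a : R) ∈ Submodule.span k (Set.range (B c)) := by
        intro a ha
        refine Submodule.subset_span ⟨e.symm a, ?_⟩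
        simp only [B, Equiv.apply_symm_apply, if_neg ha]
      have hqm : φ q ∈ Submodule.span k (Set.range (B c)) := by
        refine Submodule.subset_span ⟨e.symm c, ?_⟩
        simp only [B, Equiv.apply_symm_apply, if_true]
      rintro _ ⟨a, rfl⟩
      by_cases ha : a = c
      · subst ha
        have h1 : (m a : R) = (coeff a.1 q)⁻¹ • (φ q -
            ∑ a' ∈ Finset.univ.erase a, coeff a'.1 q • (m a' : R)) := by
          have h2 : φ q = coeff a.1 q • (m a : R) +
              ∑ a' ∈ Finset.univ.erase a, coeff a'.1 q • (m a' : R) := by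
            rw [Finset.add_sum_erase _ (fun a' : T => coeff a'.1 q • (m a' : R))
              (Finset.mem_univ a), hφq]
            simp only [Algebra.smul_def]
          rw [h2, add_sub_cancel_right, smul_smul, inv_mul_cancel₀ (hcoef a), one_smul]
        show (m a : R) ∈ _
        rw [h1]
        refine Submodule.smul_mem _ _ (Submodule.sub_mem _ hqm (Submodule.sum_mem _ fun a' ha' => ?_))
        exact Submodule.smul_mem _ _ (hne a' (Finset.ne_of_mem_erase ha'))
      · exact hne a ha
  have : Nonempty T := ⟨⟨b, hb⟩⟩
  choose s hs using fun ω : D.Ω => Finite.exists_max (fun a : T => D.lg (m a : R) ω)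
  have hsmt := D.smt _ T B hBli (fun c c' => (hspan c).trans (hspan c').symm) s
  have hmax : D.Neg (fun ω => D.lg (m (s ω) : R) ω) := by
    have h1 := D.neg_add _ _ (D.neg_add _ _ hsmt h)
      (D.neg_sum (Finset.univ : Finset T) _ fun a _ => D.unit_neg' (m a))
    refine D.neg_mono _ _ (Filter.Eventually.of_forall fun ω => ?_) h1
    have h2 : ∑ i, Real.log (D.A (B (s ω) i) ω) =
        D.lg (φ q) ω + (∑ a : T, D.lg (m a : R) ω - D.lg (m (s ω) : R) ω) := by
      have h3 : ∑ i, Real.log (D.A (B (s ω) i) ω) =
          ∑ a : T, D.lg (if a = s ω then φ q else (m a : R)) ω :=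
        Fintype.sum_equiv e _ _ fun i => rfl
      rw [h3, ← Finset.add_sum_erase _ _ (Finset.mem_univ (s ω)), if_pos rfl,
        ← Finset.add_sum_erase (Finset.univ : Finset T) (fun a => D.lg (m a : R) ω)
          (Finset.mem_univ (s ω)), add_sub_cancel_left]
      congr 1
      refine Finset.sum_congr rfl fun a ha => ?_
      rw [if_neg (Finset.ne_of_mem_erase ha)]
    rw [h2]
    linarith
  have h1 := D.neg_add _ _ (D.neg_add _ _ (D.neg_smul _ 2 (by norm_num) hmax)
    (D.unit_neg_inv (m ⟨b, hb⟩))) (D.unit_neg_inv (m ⟨b', hb'⟩))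
  refine D.neg_mono _ _ (Filter.Eventually.of_forall fun ω => ?_) h1
  have h2 := hs ω ⟨b, hb⟩
  have h3 := hs ω ⟨b', hb'⟩
  simp only [m] at h2 h3 ⊢
  rw [abs_le]
  constructor <;> linarith

end Pool.Agent.N754.LT
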