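import Mathlib
import Pool.Agent.N754.LT.Lin
import Pool.Agent.N754.LT.Low
import Pool.Agent.N754.LT.Grp

/-!
The structure theorem: curves through the specialisations of a solution.
-/

set_option autoImplicit false
set_option linter.unusedSectionVars false

open Finset MvPolynomial Filter

namespace Pool.Agent.N754.LT

open Pool.Agent.H159R3.Exp (Laur)

variable {k B : Type} [Field k] [CommRing B] [IsDomain B] [Algebra k B] (ρ : Rp k B) {n : ℕ}

/-- units whose powers are never constant are algebraically independent -/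
theorem algInd_of_units (𝒲 : Subgroup Bˣ)
    (hunit : ∀ (m : ℕ) (g : Fin m → Bˣ), (∀ i, g i ∈ 𝒲) →
      (∀ i j, i ≠ j → ∀ c : k, (g i : B) ≠ algebraMap k B c * g j) →
      ∀ c : Fin m → k, ∑ i, algebraMap k B (c i) * g i = 0 → c = 0) {r : ℕ} (w : Fin r → Bˣ)
    (hw : ∀ j, w j ∈ 𝒲)
    (hind : ∀ b : Fin r → ℤ, (∃ c : k, ((∏ j, w j ^ b j : Bˣ) : B) = algebraMap k B c) → b = 0) :
    AlgebraicIndependent k (fun j => (w j : B)) := by
  classical
  have hinj : Function.Injective (aeval (R := k) fun j => (w j : B)) := by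
    rw [injective_iff_map_eq_zero]
    intro P hP
    let S : Finset (Fin r →₀ ℕ) := P.support
    let e : Fin S.card ≃ S := S.equivFin.symm
    let g : Fin S.card → Bˣ := fun i => ∏ j, w j ^ ((e i).1 j)
    have hg : ∀ i, ((g i : Bˣ) : B) = ∏ j, (w j : B) ^ ((e i).1 j) := fun i => by
      simp only [g]
      rw [Units.coe_prod]
      exact Finset.prod_congr rfl fun j _ => Units.val_pow_eq_pow_val _ _
    have h1 := hunit S.card g
      (fun i => Subgroup.prod_mem _ fun j _ => Subgroup.pow_mem _ (hw j) _) (by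
        intro i j hij c hc
        have h2 : (fun l => ((e i).1 l : ℤ) - (e j).1 l) = 0 := by
          apply hind
          refine ⟨c, ?_⟩
          have h3 : ∏ l, w l ^ (((e i).1 l : ℤ) - (e j).1 l) = g i * (g j)⁻¹ := by
            simp only [g]
            rw [← Finset.prod_inv_distrib, ← Finset.prod_mul_distrib]
            refine Finset.prod_congr rfl fun l _ => ?_
            rw [zpow_sub, zpow_natCast, zpow_natCast]
          rw [h3, Units.val_mul, hc, mul_assoc, Units.mul_inv, mul_one]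
        apply hij
        apply e.injective
        apply Subtype.ext
        ext l
        have h3 := congrFun h2 l
        simp only [Pi.zero_apply] at h3
        omega) (fun i => coeff (e i).1 P) (by
        have h2 : aeval (fun j => (w j : B)) P =
            ∑ s ∈ P.support, algebraMap k B (coeff s P) * ∏ j, (w j : B) ^ s j := by
          rw [MvPolynomial.aeval_def, MvPolynomial.eval₂_eq']
        rw [hP] at h2
        rw [h2, ← Finset.sum_coe_sort S, ← Equiv.sum_comp e]
        refine Finset.sum_congr rfl fun i _ => ?_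
        rw [hg])
    ext s
    rw [coeff_zero]
    by_contra hs
    have hsS : s ∈ S := mem_support_iff.2 hs
    have h3 := congrFun h1 (e.symm ⟨s, hsS⟩)
    simp only [Equiv.apply_symm_apply, Pi.zero_apply] at h3
    exact hs h3
  exact hinj

/-- the data extracted from a solution -/
structure Dat (k : Type) {B : Type} [Field k] [CommRing B] [Algebra k B] {n : ℕ}
    (U : Finset (Fin n)) (y : Fin n → B) (𝒲 : Subgroup Bˣ) where
  r : ℕ
  hr : 1 ≤ r
  w : Fin r → Bˣ
  hw𝒲 : ∀ j, w j ∈ 𝒲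
  hw : AlgebraicIndependent k (fun j => (w j : B))
  hnc : ∀ j, ∀ c : k, (w j : B) ≠ algebraMap k B c
  a : Fin n → Fin r → ℤ
  c : Fin n → k
  hc : ∀ i, c i ≠ 0
  hU : ∀ i ∈ U, y i = algebraMap k B (c i) * (∏ j, w j ^ a i j : Bˣ)
  hspan : ∀ j, Pi.single j 1 ∈ Submodule.span ℤ (a '' U)
  p : Fin n → MvPolynomial (Fin r) k
  q : Fin n → MvPolynomial (Fin r) k
  hqU : ∀ i ∈ U, ∀ b ∈ (q i).support, ∀ b' ∈ (q i).support, b = b'
  hpq : ∀ i, i ∉ U → IsRelPrime (q i) (p i)
  hq : ∀ i, q i ≠ 0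
  hqp : ∀ i, aeval (fun j => (w j : B)) (q i) * y i = aeval (fun j => (w j : B)) (p i)

/-- constant units -/
def constU (k B : Type) [Field k] [CommRing B] [IsDomain B] [Algebra k B] : Subgroup Bˣ where
  carrier := {g | ∃ c : k, (g : B) = algebraMap k B c}
  mul_mem' := by
    rintro a b ⟨c, hc⟩ ⟨d, hd⟩
    exact ⟨c * d, by rw [Units.val_mul, hc, hd, map_mul]⟩
  one_mem' := ⟨1, by rw [Units.val_one, map_one]⟩
  inv_mem' := by
    rintro a ⟨c, hc⟩
    refine ⟨c⁻¹, ?_⟩
    have h0 : c ≠ 0 := fun h => a.ne_zero (by rw [hc, h, map_zero])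
    have h1 : (a : B) * algebraMap k B c⁻¹ = 1 := by
      rw [hc, ← map_mul, mul_inv_cancel₀ h0, map_one]
    exact Units.inv_eq_of_mul_eq_one_right h1

theorem dat_or (U : Finset (Fin n)) {ι : Type} [Finite ι] (F : ι → MvPolynomial (Fin n) k)
    (hlin : ∀ l, LinOff U (F l)) (y : Fin n → B) (hF : ∀ l, aeval y (F l) = 0)
    (𝒲 : Subgroup Bˣ)
    (hunit : ∀ (m : ℕ) (g : Fin m → Bˣ), (∀ i, g i ∈ 𝒲) →
      (∀ i j, i ≠ j → ∀ c : k, (g i : B) ≠ algebraMap k B c * g j) →
      ∀ c : Fin m → k, ∑ i, algebraMap k B (c i) * g i = 0 → c = 0)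
    (htf : ∀ g ∈ 𝒲, ∀ m : ℕ, 0 < m → (∃ c : k, ((g ^ m : Bˣ) : B) = algebraMap k B c) →
      ∃ c : k, (g : B) = algebraMap k B c)
    (hyU : ∀ i ∈ U, ∃ u ∈ 𝒲, (u : B) = y i)
    (hync : ∃ i, ∀ c : k, y i ≠ algebraMap k B c) :
    (∀ᶠ t in ρ.G, CurveAt ρ F y t) ∨ Nonempty (Dat k U y 𝒲) := by
  classical
  choose! u hu𝒲 huy using hyU
  let C : Subgroup 𝒲 := (constU k B).subgroupOf 𝒲
  obtain ⟨r, w', a', c', hc', hu', hind', hspan'⟩ := exists_basis C
    (fun g m hm h => by
      obtain ⟨c, hc⟩ := htf g.1 g.2 m hm h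
      exact ⟨c, hc⟩) (fun i : U => (⟨u i, hu𝒲 i i.2⟩ : 𝒲))
  let w : Fin r → Bˣ := fun j => (w' j).1
  have hw𝒲 : ∀ j, w j ∈ 𝒲 := fun j => (w' j).2
  have hprod : ∀ b : Fin r → ℤ, ((∏ j, w' j ^ b j : 𝒲) : Bˣ) = ∏ j, w j ^ b j := by
    intro b
    rw [Subgroup.val_finsetProd]
    exact Finset.prod_congr rfl fun j _ => rfl
  have hind : ∀ b : Fin r → ℤ, (∃ c : k, ((∏ j, w j ^ b j : Bˣ) : B) = algebraMap k B c) →
      b = 0 := by
    intro b ⟨c, hc⟩
    apply hind'
    refine ⟨c, ?_⟩
    have h1 : (𝒲.subtype (∏ j, w' j ^ b j) : Bˣ) = ∏ j, w j ^ b j := hprod b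
    rw [h1]
    exact hc
  have hwAI := algInd_of_units 𝒲 hunit w hw𝒲 hind
  have hnc : ∀ j, ∀ c : k, (w j : B) ≠ algebraMap k B c := by
    intro j c hc
    have h1 := hind (Pi.single j 1) ⟨c, by
      have h2 : ∏ l, w l ^ (Pi.single j (1 : ℤ) : Fin r → ℤ) l = w j := by
        rw [Finset.prod_eq_single j]
        · rw [Pi.single_eq_same, zpow_one]
        · intro l _ hl
          rw [Pi.single_eq_of_ne hl, zpow_zero]
        · intro h
          exact absurd (Finset.mem_univ _) h
      rw [h2]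
      exact hc⟩
    have h2 := congrFun h1 j
    rw [Pi.single_eq_same, Pi.zero_apply] at h2
    exact one_ne_zero h2
  have hc2 : ∀ i : U, ∃ c : k, ((c' i).1 : B) = algebraMap k B c := fun i => hc' i
  choose c2 hc2 using hc2
  let a : Fin n → Fin r → ℤ := fun i => if h : i ∈ U then a' ⟨i, h⟩ else 0
  let c : Fin n → k := fun i => if h : i ∈ U then c2 ⟨i, h⟩ else 1
  have ha : ∀ i : U, a i = a' i := fun i => by
    simp only [a]
    rw [dif_pos i.2]
  have hcc : ∀ i : U, c i = c2 i := fun i => by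
    simp only [c]
    rw [dif_pos i.2]
  have hc0 : ∀ i, c i ≠ 0 := by
    intro i
    simp only [c]
    by_cases hi : i ∈ U
    · rw [dif_pos hi]
      intro h
      have h1 := hc2 ⟨i, hi⟩
      rw [h, map_zero] at h1
      exact (c' ⟨i, hi⟩).1.ne_zero h1
    · rw [dif_neg hi]
      exact one_ne_zero
  have hU : ∀ i ∈ U, y i = algebraMap k B (c i) * (∏ j, w j ^ a i j : Bˣ) := by
    intro i hi
    have h1 := congrArg (fun g : 𝒲 => ((g : Bˣ) : B)) (hu' ⟨i, hi⟩)
    simp only [Subgroup.coe_mul, Units.val_mul] at h1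
    rw [huy i hi, hprod, hc2, ← ha, ← hcc] at h1
    exact h1
  have hspan : ∀ j, Pi.single j 1 ∈ Submodule.span ℤ (a '' U) := by
    intro j
    refine Submodule.span_mono ?_ (hspan' j)
    rintro _ ⟨i, rfl⟩
    exact ⟨i.1, i.2, ha i⟩
  -- monomials
  let em : Fin n → (Fin r →₀ ℕ) := fun i => Finsupp.equivFunOnFinite.symm fun j => (-a i j).toNat
  let ep : Fin n → (Fin r →₀ ℕ) := fun i => Finsupp.equivFunOnFinite.symm fun j => (a i j).toNat
  let g0 : Fin n → MvPolynomial (Fin r) k := fun i => monomial (em i) 1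
  let f0 : Fin n → MvPolynomial (Fin r) k := fun i => monomial (ep i) (c i)
  have hg0 : ∀ i, g0 i ≠ 0 := fun i => by
    simp only [g0]
    rw [Ne, monomial_eq_zero]
    exact one_ne_zero
  have hmonB : ∀ (e : Fin r → ℕ), (∏ j, (w j : B) ^ e j) = ((∏ j, w j ^ e j : Bˣ) : B) := fun e => by
    rw [Units.coe_prod]
    exact Finset.prod_congr rfl fun j _ => (Units.val_pow_eq_pow_val _ _).symm
  have hfg : ∀ i ∈ U, aeval (fun j => (w j : B)) (g0 i) * y i =
      aeval (fun j => (w j : B)) (f0 i) := by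
    intro i hi
    simp only [g0, f0]
    rw [aeval_monomial, aeval_monomial, Finsupp.prod_fintype _ _ (fun _ => pow_zero _),
      Finsupp.prod_fintype _ _ (fun _ => pow_zero _), map_one, one_mul, hmonB, hmonB, hU i hi]
    have h1 : (∏ j, w j ^ em i j) * (∏ j, w j ^ a i j) = ∏ j, w j ^ ep i j := by
      rw [← Finset.prod_mul_distrib]
      refine Finset.prod_congr rfl fun j _ => ?_
      rw [← zpow_natCast, ← zpow_natCast, ← zpow_add]
      congr 1
      have h2 : em i j = (-a i j).toNat := rfl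
      have h3 : ep i j = (a i j).toNat := rfl
      rw [h2, h3]
      omega
    rw [← h1, Units.val_mul]
    ring
  rcases dichotomy ρ U F hlin y hF (fun j => (w j : B)) hwAI f0 g0 (fun i _ => hg0 i) hfg with
    h | h
  · exact Or.inl h
  right
  choose! p1 q1 h1 h2 h3 using h
  have hr : 1 ≤ r := by
    by_contra hr0
    have hr0 : r = 0 := by omega
    subst hr0
    obtain ⟨i, hi⟩ := hync
    by_cases hiU : i ∈ U
    · have h4 := hU i hiU
      rw [Finset.univ_eq_empty, Finset.prod_empty, Units.val_one, mul_one] at h4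
      exact hi _ h4
    · have h4 := h3 i hiU
      have h5 : ∀ P : MvPolynomial (Fin 0) k, P = MvPolynomial.C (coeff 0 P) := fun P =>
        eq_C_of_isEmpty P
      rw [h5 (q1 i), h5 (p1 i), ← MvPolynomial.algebraMap_eq, AlgHom.commutes,
        AlgHom.commutes] at h4
      have h6 : coeff 0 (q1 i) ≠ 0 := by
        intro h
        apply h2 i hiU
        rw [h5 (q1 i), h, C_0]
      apply hi ((coeff 0 (q1 i))⁻¹ * coeff 0 (p1 i))
      rw [map_mul, ← h4, ← mul_assoc, ← map_mul, inv_mul_cancel₀ h6, map_one, one_mul]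
  refine ⟨{ r := r, hr := hr, w := w, hw𝒲 := hw𝒲, hw := hwAI, hnc := hnc, a := a, c := c, hc := hc0, hU := hU, hspan := hspan, p := fun i => if i ∈ U then f0 i else p1 i, q := fun i => if i ∈ U then g0 i else q1 i, hqU := ?_, hpq := ?_, hq := ?_, hqp := ?_ }⟩
  · intro i hi b hb b' hb'
    simp only [if_pos hi, g0] at hb hb'
    have h4 := support_monomial_subset hb
    have h5 := support_monomial_subset hb'
    rw [Finset.mem_singleton] at h4 h5
    rw [h4, h5]
  · intro i hi
    simp only [if_neg hi]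
    exact h1 i hi
  · intro i
    by_cases hi : i ∈ U
    · simp only [if_pos hi]
      exact hg0 i
    · simp only [if_neg hi]
      exact h2 i hi
  · intro i
    by_cases hi : i ∈ U
    · simp only [if_pos hi]
      exact hfg i hi
    · simp only [if_neg hi]
      exact h3 i hi

end Pool.Agent.N754.LT
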