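import Mathlib
import Pool.Agent.Y742.SF.PDex

/-!
Extensions of number fields, `S`-integers, and a Nullstellensatz over number fields.
-/

set_option autoImplicit false

namespace Pool.Agent.N754.LT

open NumberField IsDedekindDomain Filter
open Pool.Agent.Y742.SF

theorem galois_sub (S : Finset ℂ) (hS : ∀ a ∈ S, IsAlgebraic ℚ a) :
    ∃ L : IntermediateField ℚ ℂ, FiniteDimensional ℚ L ∧ IsGalois ℚ L ∧ ∀ a ∈ S, a ∈ L := by
  classical
  set p : Polynomial ℚ := ∏ a ∈ S, minpoly ℚ a with hp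
  have hp0 : p ≠ 0 := Finset.prod_ne_zero_iff.mpr (fun a ha => minpoly.ne_zero (hS a ha).isIntegral)
  have hspl : (p.map (algebraMap ℚ ℂ)).Splits := IsAlgClosed.splits _
  have hsf : p.IsSplittingField ℚ (IntermediateField.adjoin ℚ (p.rootSet ℂ)) :=
    IntermediateField.adjoin_rootSet_isSplittingField hspl
  have : Normal ℚ (IntermediateField.adjoin ℚ (p.rootSet ℂ)) := Normal.of_isSplittingField p
  have : FiniteDimensional ℚ (IntermediateField.adjoin ℚ (p.rootSet ℂ)) :=
    Polynomial.IsSplittingField.finiteDimensional _ p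
  refine ⟨IntermediateField.adjoin ℚ (p.rootSet ℂ), inferInstance, ?_, fun a ha => ?_⟩
  · exact { }
  · apply IntermediateField.subset_adjoin
    rw [Polynomial.mem_rootSet]
    refine ⟨hp0, ?_⟩
    rw [hp, map_prod]
    exact Finset.prod_eq_zero ha (minpoly.aeval ℚ a)

theorem exists_big (L : Type) [Field L] [NumberField L] :
    ∃ (M : Type) (_ : Field M) (_ : NumberField M) (_ : Algebra L M), IsGalois ℚ M ∧
      ∃ z : M, z ^ 2 = -1 := by
  classical
  obtain ⟨φ⟩ : Nonempty (L →+* ℂ) := inferInstance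
  let b := Module.finBasis ℚ L
  let S : Finset ℂ := insert Complex.I (Finset.univ.image fun i => φ (b i))
  have hφ : ∀ x : L, φ x = (φ.toRatAlgHom : L →ₐ[ℚ] ℂ) x := fun x => rfl
  obtain ⟨L', hfd, hgal, hmem⟩ := galois_sub S (by
    intro a ha
    rcases Finset.mem_insert.1 ha with rfl | ha
    · refine ⟨Polynomial.X ^ 2 + 1, ?_, by simp⟩
      intro h
      have h1 : (Polynomial.X ^ 2 + 1 : Polynomial ℚ).Monic := by monicity!
      exact h1.ne_zero h
    · obtain ⟨i, -, rfl⟩ := Finset.mem_image.1 ha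
      have h1 : IsIntegral ℚ (b i) := Algebra.IsIntegral.isIntegral _
      rw [hφ]
      exact (h1.map (φ.toRatAlgHom : L →ₐ[ℚ] ℂ)).isAlgebraic)
  have hφmem : ∀ x : L, φ x ∈ L' := by
    intro x
    rw [← b.sum_repr x, map_sum]
    refine sum_mem fun i _ => ?_
    rw [map_rat_smul φ]
    refine L'.smul_mem (hmem _ ?_)
    exact Finset.mem_insert_of_mem (Finset.mem_image.2 ⟨i, Finset.mem_univ _, rfl⟩)
  have hnf : NumberField L' := NumberField.mk
  let ψ : L →+* L' :=
    { toFun := fun x => ⟨φ x, hφmem x⟩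
      map_one' := Subtype.ext (map_one φ)
      map_mul' := fun a b => Subtype.ext (map_mul φ a b)
      map_zero' := Subtype.ext (map_zero φ)
      map_add' := fun a b => Subtype.ext (map_add φ a b) }
  refine ⟨L', inferInstance, hnf, ψ.toAlgebra, ?_, ⟨Complex.I, hmem _ (Finset.mem_insert_self _ _)⟩, ?_⟩
  · convert hgal
  · apply Subtype.ext
    simp

theorem ext_int (L M : Type) [Field L] [NumberField L] [Field M] [NumberField M] [Algebra L M]
    (S : Set (HeightOneSpectrum (𝓞 L))) (hS : S.Finite) :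
    ∃ S' : Set (HeightOneSpectrum (𝓞 M)), S'.Finite ∧
      ∀ x ∈ S.integer L, algebraMap L M x ∈ S'.integer M := by
  classical
  choose U hU using fun v : HeightOneSpectrum (𝓞 L) => exists_gen v
  have hh : 0 < Fintype.card (ClassGroup (𝓞 L)) := Fintype.card_pos
  let a : 𝓞 L := ∏ v ∈ hS.toFinset, U v
  have ha0 : a ≠ 0 := Finset.prod_ne_zero_iff.2 fun v _ => gen_ne v _ hh _ (hU v)
  have haL : (a : L) ≠ 0 := RingOfIntegers.coe_ne_zero_iff.2 ha0
  have haM : algebraMap L M (a : L) ≠ 0 := (map_ne_zero _).2 haL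
  have haS : ∀ v ∈ S, fv v (a : L) < 1 := by
    intro v hv
    have h1 : (a : L) = ∏ w ∈ hS.toFinset, (U w : L) := by
      simp only [a]
      push_cast
      rfl
    rw [h1, fv_prod, ← Finset.mul_prod_erase _ _ (hS.mem_toFinset.2 hv)]
    have h2 : fv v (U v : L) < 1 := by
      rw [fv_gen v _ hh _ (hU v)]
      have h3 := one_lt_gen v _ hh _ (hU v)
      exact inv_lt_one_of_one_lt₀ (by exact_mod_cast h3)
    have h3 : ∏ w ∈ hS.toFinset.erase v, fv v (U w : L) ≤ 1 :=
      Finset.prod_le_one (fun w _ => fv_nonneg _ _) fun w _ => fv_int _ _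
    have h4 : 0 ≤ ∏ w ∈ hS.toFinset.erase v, fv v (U w : L) :=
      Finset.prod_nonneg fun w _ => fv_nonneg _ _
    have h5 := fv_nonneg v (U v : L)
    nlinarith
  refine ⟨HeightOneSpectrum.Support (𝓞 M) (algebraMap L M (a : L))⁻¹,
    HeightOneSpectrum.Support.finite _ _, fun x hx => ?_⟩
  rw [mem_integer_iff]
  intro w hw
  -- a power of `a` clears the denominators
  have h1 : ∀ v ∈ hS.toFinset, ∀ᶠ m : ℕ in atTop, fv v ((a : L) ^ m * x) ≤ 1 := by
    intro v hv
    have h2 := haS v (hS.mem_toFinset.1 hv)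
    have h3 := (tendsto_pow_atTop_nhds_zero_of_lt_one (fv_nonneg v (a : L)) h2).mul_const (fv v x)
    rw [zero_mul] at h3
    filter_upwards [h3.eventually (gt_mem_nhds one_pos)] with m hm
    rw [fv_mul, fv_pow]
    exact hm.le
  obtain ⟨m, hm⟩ := ((Filter.eventually_all_finset _).2 h1).exists
  obtain ⟨y, hy⟩ := mem_int ((a : L) ^ m * x) (fun v => by
    by_cases hv : v ∈ S
    · exact hm v (hS.mem_toFinset.2 hv)
    · rw [fv_mul, fv_pow]
      exact mul_le_one₀ (pow_le_one₀ (fv_nonneg _ _) (fv_int _ _)) (fv_nonneg _ _)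
        ((mem_integer_iff S x).1 hx v hv))
  have h2 : algebraMap L M (a : L) ^ m * algebraMap L M x = algebraMap L M (y : L) := by
    rw [hy, map_mul, map_pow]
  have h3 : algebraMap L M (y : L) = ((algebraMap (𝓞 L) (𝓞 M) y : 𝓞 M) : M) := rfl
  have h4 : fv w (algebraMap L M (y : L)) ≤ 1 := by
    rw [h3]
    exact fv_int _ _
  have h5 : 1 ≤ fv w (algebraMap L M (a : L)) := by
    have h6 : ¬ (1 < w.valuation M (algebraMap L M (a : L))⁻¹) := hw
    have h7 := (fv_le_one_iff w _).2 (not_lt.1 h6)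
    have h8 : fv w (algebraMap L M (a : L))⁻¹ * fv w (algebraMap L M (a : L)) = 1 := by
      rw [← fv_mul, inv_mul_cancel₀ haM, fv_one]
    have h9 := fv_pos w _ haM
    nlinarith
  rw [← h2, fv_mul, fv_pow] at h4
  have h6 : 1 ≤ fv w (algebraMap L M (a : L)) ^ m := one_le_pow₀ h5
  have h7 := fv_nonneg w (algebraMap L M x)
  nlinarith

/-- a Nullstellensatz -/
theorem unit_cert {K : Type} [Field K] [NumberField K] (σ : K →+* ℂ) {ι : Type} {n : ℕ}
    (F : ι → MvPolynomial (Fin n) K) (i : Fin n)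
    (h : ∀ z : Fin n → ℂ, (∀ l, MvPolynomial.eval₂ σ z (F l) = 0) → z i ≠ 0) :
    ∃ B : MvPolynomial (Fin n) K, B * MvPolynomial.X i - 1 ∈ Ideal.span (Set.range F) := by
  classical
  by_contra hcon
  push Not at hcon
  let I : Ideal (MvPolynomial (Fin n) K) := Ideal.span (Set.range F) ⊔ Ideal.span {MvPolynomial.X i}
  have hI : I ≠ ⊤ := by
    intro hI
    have h1 : (1 : MvPolynomial (Fin n) K) ∈ I := by rw [hI]; trivial
    obtain ⟨y, hy, z, hz, hyz⟩ := Submodule.mem_sup.1 h1
    obtain ⟨B, hB⟩ := Ideal.mem_span_singleton'.1 hz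
    apply hcon B
    have h2 : B * MvPolynomial.X i - 1 = -y := by
      rw [hB, ← hyz]
      ring
    rw [h2]
    exact neg_mem hy
  obtain ⟨m, hm, hIm⟩ := Ideal.exists_le_maximal I hI
  let κ : Type := MvPolynomial (Fin n) K ⧸ m
  let : Field κ := Ideal.Quotient.field m
  have hfin : Module.Finite K κ := finite_of_finite_type_of_isJacobsonRing K κ
  let : Algebra K ℂ := σ.toAlgebra
  let τ : κ →ₐ[K] ℂ := IsAlgClosed.lift
  let z : Fin n → ℂ := fun j => τ (Ideal.Quotient.mk m (MvPolynomial.X j))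
  have hz : ∀ P : MvPolynomial (Fin n) K, MvPolynomial.eval₂ σ z P = τ (Ideal.Quotient.mk m P) := by
    intro P
    have h1 : (MvPolynomial.aeval z : MvPolynomial (Fin n) K →ₐ[K] ℂ) =
        τ.comp (Ideal.Quotient.mkₐ K m) := by
      ext j
      rw [MvPolynomial.aeval_X]
      rfl
    exact DFunLike.congr_fun h1 P
  refine h z (fun l => ?_) ?_
  · rw [hz]
    have h1 : F l ∈ m := hIm (Submodule.mem_sup_left (Ideal.subset_span ⟨l, rfl⟩))
    rw [Ideal.Quotient.eq_zero_iff_mem.2 h1, map_zero]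
  · have h1 : (MvPolynomial.X i : MvPolynomial (Fin n) K) ∈ m :=
      hIm (Submodule.mem_sup_right (Ideal.subset_span rfl))
    simp only [z]
    rw [Ideal.Quotient.eq_zero_iff_mem.2 h1, map_zero]

end Pool.Agent.N754.LT
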