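import Mathlib
import Pool.Agent.N754.LT.Cur
import Pool.Agent.Y742.AR.Unit

/-!
The arithmetic instance: germs of sequences of `S`-integers.
-/

set_option autoImplicit false
set_option linter.unusedSectionVars false

open Finset MvPolynomial Filter

namespace Pool.Agent.N754.LT

open NumberField IsDedekindDomain
open Pool.Agent.Y742.SF Pool.Agent.Y742.AR

variable {K : Type} [Field K] [NumberField K]

/-- the field of germs -/
def BA (K : Type) [Field K] [NumberField K] (𝒰 : Ultrafilter ℕ) : Type := GK K 𝒰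

noncomputable instance (𝒰 : Ultrafilter ℕ) : Field (BA K 𝒰) := inferInstanceAs (Field (GK K 𝒰))

noncomputable instance (𝒰 : Ultrafilter ℕ) : Algebra K (BA K 𝒰) :=
  RingHom.toAlgebra (S := BA K 𝒰) (cg 𝒰)

theorem algBA (𝒰 : Ultrafilter ℕ) (c : K) : algebraMap K (BA K 𝒰) c = (cg 𝒰 c : GK K 𝒰) := rfl

/-- specialisations of germs -/
noncomputable def rpA (K : Type) [Field K] [NumberField K] (𝒰 : Ultrafilter ℕ) :
    Rp K (BA K 𝒰) where
  T := ℕ
  G := 𝒰
  rep x := rep (K := K) (𝒰 := 𝒰) x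
  rep_add x y := Pool.Agent.Y742.AR.rep_add (K := K) (𝒰 := 𝒰) x y
  rep_mul x y := Pool.Agent.Y742.AR.rep_mul (K := K) (𝒰 := 𝒰) x y
  rep_const c := Pool.Agent.Y742.AR.rep_cg (K := K) (𝒰 := 𝒰) c
  rep_ne x hx := Pool.Agent.Y742.AR.rep_ne (K := K) (𝒰 := 𝒰) x hx

variable [IsGalois ℚ K] (D : PD K) (𝒰 : Ultrafilter ℕ) (N : ℕ → ℝ) (hN : ∀ t, 1 ≤ N t)

/-- the ring of integral germs of bounded size -/
def RA (D : PD K) (𝒰 : Ultrafilter ℕ) (N : ℕ → ℝ) (hN : ∀ t, 1 ≤ N t) : Type := R0 D 𝒰 N hN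

noncomputable instance : CommRing (RA D 𝒰 N hN) := inferInstanceAs (CommRing (R0 D 𝒰 N hN))

instance : IsDomain (RA D 𝒰 N hN) := inferInstanceAs (IsDomain (R0 D 𝒰 N hN))

/-- the constants -/
noncomputable def cR : K →+* RA D 𝒰 N hN :=
  (cg 𝒰).codRestrict (R0 D 𝒰 N hN) (fun c => cg_mem hN c)

noncomputable instance : Algebra K (RA D 𝒰 N hN) := (cR D 𝒰 N hN).toAlgebra

/-- the underlying germ -/
def vl (x : RA D 𝒰 N hN) : GK K 𝒰 := Subtype.val (p := fun y => y ∈ R0 D 𝒰 N hN) x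

variable {D 𝒰 N hN}

theorem vl_inj : Function.Injective (vl D 𝒰 N hN) := fun _ _ h => Subtype.ext h

theorem vl_mul (x y : RA D 𝒰 N hN) : vl D 𝒰 N hN (x * y) = vl D 𝒰 N hN x * vl D 𝒰 N hN y := rfl

theorem vl_add (x y : RA D 𝒰 N hN) : vl D 𝒰 N hN (x + y) = vl D 𝒰 N hN x + vl D 𝒰 N hN y := rfl

theorem vl_zero : vl D 𝒰 N hN 0 = 0 := rfl

theorem vl_one : vl D 𝒰 N hN 1 = 1 := rfl

theorem vl_const (c : K) : vl D 𝒰 N hN (algebraMap K _ c) = cg 𝒰 c := rfl

theorem vl_mem (x : RA D 𝒰 N hN) : vl D 𝒰 N hN x ∈ R0 D 𝒰 N hN := x.2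

theorem vl_sum {ι : Type} (s : Finset ι) (x : ι → RA D 𝒰 N hN) :
    vl D 𝒰 N hN (∑ i ∈ s, x i) = ∑ i ∈ s, vl D 𝒰 N hN (x i) :=
  map_sum (R0 D 𝒰 N hN).subtype x s

variable (D 𝒰 N hN)

/-- the inclusion -/
noncomputable def incA : RA D 𝒰 N hN →ₐ[K] BA K 𝒰 where
  toFun := vl D 𝒰 N hN
  map_one' := rfl
  map_mul' _ _ := rfl
  map_zero' := rfl
  map_add' _ _ := rfl
  commutes' _ := rfl

theorem incA_inj : Function.Injective (incA D 𝒰 N hN) := fun _ _ h => vl_inj h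

variable {D 𝒰 N hN}

theorem smtA (hNt : Tendsto N (𝒰 : Filter ℕ) atTop) (m : ℕ) (κ : Type) [Finite κ]
    (B : κ → Fin m → RA D 𝒰 N hN) (hli : ∀ c, LinearIndependent K (B c))
    (hspan : ∀ c c', Submodule.span K (Set.range (B c)) = Submodule.span K (Set.range (B c')))
    (s : (((K ≃ₐ[ℚ] K) ⊕ Fin D.s) × ℕ) → κ) (ε : ℝ) (hε : 0 < ε) :
    ∀ᶠ t in (𝒰 : Filter ℕ), ∑ v, (-∑ a, Real.log (D.av v (rep (vl D 𝒰 N hN (B (s (v, t)) a)) t))) ≤
      ε * N t := by
  classical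
  rcases Nat.eq_zero_or_pos m with rfl | hm
  · refine Filter.Eventually.of_forall fun t => ?_
    have := hN t
    simp only [Finset.univ_eq_empty, Finset.sum_empty, neg_zero, Finset.sum_const_zero]
    positivity
  have := Fintype.ofFinite κ
  -- the function `s` is eventually independent of `t`
  obtain ⟨S, hS⟩ := eventually_const (𝒰 := 𝒰) (fun t => (fun v => s (v, t)))
  obtain ⟨v0⟩ : Nonempty ((K ≃ₐ[ℚ] K) ⊕ Fin D.s) := ⟨Sum.inl 1⟩
  let c0 : κ := S v0
  -- coordinates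
  have hco : ∀ c a, ∃ f : Fin m → K, ∑ j, f j • B c0 j = B c a := by
    intro c a
    rw [← Submodule.mem_span_range_iff_exists_fun, hspan c0 c]
    exact Submodule.subset_span ⟨a, rfl⟩
  choose M hM using hco
  have hco' : ∀ c a, ∃ f : Fin m → K, ∑ j, f j • B c j = B c0 a := by
    intro c a
    rw [← Submodule.mem_span_range_iff_exists_fun, hspan c c0]
    exact Submodule.subset_span ⟨a, rfl⟩
  choose M' hM' using hco'
  have hdet : ∀ c, (Matrix.of fun a j => M c a j).det ≠ 0 := by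
    intro c
    have h1 : (Matrix.of fun a j => M' c a j) * (Matrix.of fun a j => M c a j) = 1 := by
      ext a b
      rw [Matrix.mul_apply]
      simp only [Matrix.of_apply]
      have h2 : ∑ b, (∑ j, M' c a j * M c j b) • B c0 b = ∑ b, (if a = b then (1 : K) else 0) • B c0 b := by
        have h3 : ∑ b, (if a = b then (1 : K) else 0) • B c0 b = B c0 a := by
          simp
        rw [h3, ← hM' c a]
        simp only [← hM c, Finset.smul_sum, Finset.sum_smul, mul_smul]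
        rw [Finset.sum_comm]
      have h4 := Fintype.linearIndependent_iff.1 (hli c0)
        (fun b => ∑ j, M' c a j * M c j b - if a = b then (1 : K) else 0) (by
          simp only [sub_smul, Finset.sum_sub_distrib]
          rw [h2, sub_self]) b
      rw [sub_eq_zero] at h4
      rw [h4, Matrix.one_apply]
    intro h
    have h2 := congrArg Matrix.det h1
    rw [Matrix.det_mul, h, mul_zero, Matrix.det_one] at h2
    exact zero_ne_one h2
  -- enumeration of the forms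
  let q : ℕ := Fintype.card (κ × Fin m)
  let e : κ × Fin m ≃ Fin q := Fintype.equivFin _
  let Φ : Fin q → Fin m → K := fun i => M (e.symm i).1 (e.symm i).2
  have hΦ0 : ∀ i, Φ i ≠ 0 := by
    intro i h
    have h1 := hM (e.symm i).1 (e.symm i).2
    have h2 : ∀ j, M (e.symm i).1 (e.symm i).2 j = 0 := fun j => congrFun h j
    simp only [h2, zero_smul, Finset.sum_const_zero] at h1
    exact (hli (e.symm i).1).ne_zero (e.symm i).2 h1.symm
  let J : (K ≃ₐ[ℚ] K) ⊕ Fin D.s → Fin m → Fin q := fun v a => e (S v, a)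
  have hΦJ : ∀ v a, Φ (J v a) = M (S v) a := by
    intro v a
    simp only [Φ, J, Equiv.symm_apply_apply]
  -- common denominators
  obtain ⟨ed, hed, hden⟩ := common_den (D := D) (fun j => vl D 𝒰 N hN (B c0 j))
    (fun j => ((mem_R0 hN _).1 (vl_mem (B c0 j))).1)
  have hedK : (ed : K) ≠ 0 := RingOfIntegers.coe_ne_zero_iff.2 hed
  let z : Fin m → GK K 𝒰 := fun j => cg 𝒰 (ed : K) * vl D 𝒰 N hN (B c0 j)
  have hz : ∀ j, z j ∈ R0 D 𝒰 N hN := fun j => Subring.mul_mem _ (cg_mem hN _) (vl_mem _)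
  have hzr : ∀ j, ∀ᶠ t in (𝒰 : Filter ℕ), rep (z j) t = (ed : K) * rep (vl D 𝒰 N hN (B c0 j)) t := by
    intro j
    filter_upwards [Pool.Agent.Y742.AR.rep_mul (cg 𝒰 (ed : K)) (vl D 𝒰 N hN (B c0 j)),
      Pool.Agent.Y742.AR.rep_cg (𝒰 := 𝒰) (ed : K)] with t h1 h2
    rw [h1, h2]
  have hzr' := (Filter.eventually_all).2 hzr
  choose C hC0 hC using fun j => ((mem_R0 hN _).1 (hz j)).2
  have hgoal := subS D (𝒰 : Filter ℕ) hm Φ hΦ0 J (fun v => by
    have h1 : (Matrix.of fun a j => Φ (J v a) j) = Matrix.of fun a j => M (S v) a j := by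
      ext a j
      simp only [Matrix.of_apply, hΦJ]
    rw [h1]
    exact hdet _) N hNt (fun t j => rep (z j) t) (by
    filter_upwards [hden, hzr'] with t h1 h2 j
    rw [h2 j]
    exact h1 j) (∑ j, C j) (by
    filter_upwards [(Filter.eventually_all).2 hC] with t h1 j v
    refine (h1 j v).trans (Real.exp_le_exp.2 ?_)
    refine mul_le_mul_of_nonneg_right ?_ (by linarith [hN t])
    exact Finset.single_le_sum (f := C) (fun j _ => hC0 j) (Finset.mem_univ j)) (by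
    intro d hd
    have h1 : ∑ j, cg 𝒰 (d j) * z j ≠ 0 := by
      intro h
      apply hd
      have h2 : ∑ j, cg 𝒰 (d j) * z j = vl D 𝒰 N hN (∑ j, ((ed : K) * d j) • B c0 j) := by
        rw [vl_sum]
        refine Finset.sum_congr rfl fun j _ => ?_
        rw [Algebra.smul_def, vl_mul, vl_const, map_mul]
        simp only [z]
        ring
      rw [h2] at h
      have h3 : ∑ j, ((ed : K) * d j) • B c0 j = 0 := vl_inj h
      have h4 := Fintype.linearIndependent_iff.1 (hli c0) _ h3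
      funext j
      exact (mul_eq_zero.1 (h4 j)).resolve_left hedK
    filter_upwards [rep_lin d z, Pool.Agent.Y742.AR.rep_ne _ h1] with t h2 h3
    rwa [← h2]) (ε / 2) (by positivity)
  -- the forms
  have hform : ∀ᶠ t in (𝒰 : Filter ℕ), ∀ c a, ∑ j, M c a j * rep (z j) t =
      (ed : K) * rep (vl D 𝒰 N hN (B c a)) t := by
    refine (Filter.eventually_all).2 fun c => (Filter.eventually_all).2 fun a => ?_
    have h1 : ∑ j, cg 𝒰 (M c a j) * z j = cg 𝒰 (ed : K) * vl D 𝒰 N hN (B c a) := by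
      rw [← hM c a, vl_sum, Finset.mul_sum]
      refine Finset.sum_congr rfl fun j _ => ?_
      rw [Algebra.smul_def, vl_mul, vl_const]
      simp only [z]
      ring
    filter_upwards [rep_lin (M c a) z,
      Pool.Agent.Y742.AR.rep_mul (cg 𝒰 (ed : K)) (vl D 𝒰 N hN (B c a)),
      Pool.Agent.Y742.AR.rep_cg (𝒰 := 𝒰) (ed : K)] with t h2 h3 h4
    rw [← h2, h1, h3, h4]
  have hne : ∀ᶠ t in (𝒰 : Filter ℕ), ∀ c a, rep (vl D 𝒰 N hN (B c a)) t ≠ 0 := by
    refine (Filter.eventually_all).2 fun c => (Filter.eventually_all).2 fun a => ?_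
    refine Pool.Agent.Y742.AR.rep_ne _ ?_
    intro h
    exact (hli c).ne_zero a (vl_inj h)
  have hbig : ∀ᶠ t in (𝒰 : Filter ℕ),
      m * ∑ v, Real.log (D.av v (ed : K)) ≤ ε / 2 * N t := by
    filter_upwards [hNt.eventually_ge_atTop (m * (∑ v, Real.log (D.av v (ed : K))) / (ε / 2))]
      with t ht
    rw [div_le_iff₀ (by positivity)] at ht
    linarith
  filter_upwards [hgoal, hS, hform, hne, hbig] with t h1 h2 h3 h4 h5
  have h6 : ∀ v, s (v, t) = S v := fun v => congrFun h2 v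
  have h7 : ∀ v a, Real.log (D.av v (∑ j, Φ (J v a) j * rep (z j) t)) =
      Real.log (D.av v (ed : K)) + Real.log (D.av v (rep (vl D 𝒰 N hN (B (S v) a)) t)) := by
    intro v a
    have h8 : ∑ j, Φ (J v a) j * rep (z j) t = ∑ j, M (S v) a j * rep (z j) t :=
      Finset.sum_congr rfl fun j _ => by rw [hΦJ]
    rw [h8, h3, D.av_mul, Real.log_mul (D.av_pos _ _ hedK).ne' (D.av_pos _ _ (h4 _ _)).ne']
  simp only [h7, Finset.sum_add_distrib, Finset.sum_const, Finset.card_univ, Fintype.card_fin,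
    nsmul_eq_mul] at h1
  simp only [h6, Finset.sum_neg_distrib]
  rw [← Finset.mul_sum] at h1
  linarith

theorem evA {p : (((K ≃ₐ[ℚ] K) ⊕ Fin D.s) × ℕ) → Prop} :
    (∀ᶠ ω in Filter.comap Prod.snd (𝒰 : Filter ℕ), p ω) ↔
      ∀ᶠ t in (𝒰 : Filter ℕ), ∀ v, p (v, t) := by
  rw [Filter.eventually_comap]
  constructor
  · intro h
    filter_upwards [h] with t ht v
    exact ht (v, t) rfl
  · intro h
    filter_upwards [h] with t ht
    rintro ⟨v, t'⟩ rfl
    exact ht v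

/-- the arithmetic instance -/
noncomputable def DcA (hNt : Tendsto N (𝒰 : Filter ℕ) atTop) : Dc K (RA D 𝒰 N hN) where
  Ω := ((K ≃ₐ[ℚ] K) ⊕ Fin D.s) × ℕ
  ev := Filter.comap Prod.snd (𝒰 : Filter ℕ)
  A x ω := D.av ω.1 (rep (vl D 𝒰 N hN x) ω.2)
  Neg f := ∀ ε : ℝ, 0 < ε → ∀ᶠ t in (𝒰 : Filter ℕ), ∑ v, f (v, t) ≤ ε * N t
  one ω := N ω.2
  A_zero := by
    rw [evA]
    filter_upwards [Pool.Agent.Y742.AR.rep_zero (K := K) (𝒰 := 𝒰)] with t h v
    rw [vl_zero, h, D.av_zero]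
  A_pos x hx := by
    rw [evA]
    have h0 : vl D 𝒰 N hN x ≠ 0 := fun h => hx (vl_inj h)
    filter_upwards [Pool.Agent.Y742.AR.rep_ne _ h0] with t h v
    exact D.av_pos _ _ h
  A_mul x y := by
    rw [evA]
    filter_upwards [Pool.Agent.Y742.AR.rep_mul (vl D 𝒰 N hN x) (vl D 𝒰 N hN y)] with t h v
    rw [vl_mul, h, D.av_mul]
  A_add x y := by
    rw [evA]
    filter_upwards [Pool.Agent.Y742.AR.rep_add (vl D 𝒰 N hN x) (vl D 𝒰 N hN y)] with t h v
    rw [vl_add, h]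
    exact D.av_add _ _ _
  A_const c := by
    refine ⟨∑ v, D.av v c, ?_⟩
    rw [evA]
    filter_upwards [Pool.Agent.Y742.AR.rep_cg (𝒰 := 𝒰) c] with t h v
    rw [vl_const, h]
    exact Finset.single_le_sum (f := fun v => D.av v c) (fun _ _ => D.av_nonneg _ _)
      (Finset.mem_univ v)
  neg_mono f g h hf ε hε := by
    filter_upwards [evA.1 h, hf ε hε] with t h1 h2
    exact (Finset.sum_le_sum fun v _ => h1 v).trans h2
  neg_add f g hf hg ε hε := by
    filter_upwards [hf (ε / 2) (by positivity), hg (ε / 2) (by positivity)] with t h1 h2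
    rw [Finset.sum_add_distrib]
    linarith
  neg_smul f c hc hf ε hε := by
    filter_upwards [hf (ε / (c + 1)) (by positivity)] with t h1
    rw [← Finset.mul_sum]
    have h2 : c * (ε / (c + 1)) ≤ ε := by
      rw [← mul_div_assoc, div_le_iff₀ (by positivity)]
      nlinarith
    have h3 := hN t
    calc c * ∑ v, f (v, t) ≤ c * (ε / (c + 1) * N t) := mul_le_mul_of_nonneg_left h1 hc
      _ = c * (ε / (c + 1)) * N t := by ring
      _ ≤ ε * N t := mul_le_mul_of_nonneg_right h2 (by linarith)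
  neg_const c ε hε := by
    filter_upwards [hNt.eventually_ge_atTop
      ((∑ _v : (K ≃ₐ[ℚ] K) ⊕ Fin D.s, c) / ε)] with t ht
    rw [div_le_iff₀ hε] at ht
    linarith
  one_nonneg := Filter.Eventually.of_forall fun ω => by linarith [hN ω.2]
  arch f h ε hε := by
    let V : ℝ := Fintype.card ((K ≃ₐ[ℚ] K) ⊕ Fin D.s)
    have hV : 0 ≤ V := Nat.cast_nonneg _
    filter_upwards [h (ε / (2 * (V + 1))) (by positivity) (ε / 2) (by positivity)] with t ht
    rw [Finset.sum_sub_distrib, Finset.sum_const, nsmul_eq_mul, Finset.card_univ] at ht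
    have h1 : V * (ε / (2 * (V + 1)) * N t) ≤ ε / 2 * N t := by
      have h2 : V * (ε / (2 * (V + 1))) ≤ ε / 2 := by
        rw [← mul_div_assoc, div_le_div_iff₀ (by positivity) (by positivity)]
        nlinarith
      calc V * (ε / (2 * (V + 1)) * N t) = V * (ε / (2 * (V + 1))) * N t := by ring
        _ ≤ ε / 2 * N t := mul_le_mul_of_nonneg_right h2 (by linarith [hN t])
    linarith
  bdd u := by
    obtain ⟨C1, hC1, h1⟩ := ((mem_R0 hN _).1 (vl_mem (u : RA D 𝒰 N hN))).2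
    obtain ⟨C2, hC2, h2⟩ := ((mem_R0 hN _).1 (vl_mem ((u⁻¹ : (RA D 𝒰 N hN)ˣ) : RA D 𝒰 N hN))).2
    have hu0 : vl D 𝒰 N hN (u : RA D 𝒰 N hN) ≠ 0 := fun h => u.ne_zero (vl_inj h)
    have hinv : vl D 𝒰 N hN ((u⁻¹ : (RA D 𝒰 N hN)ˣ) : RA D 𝒰 N hN) =
        (vl D 𝒰 N hN (u : RA D 𝒰 N hN))⁻¹ := by
      refine eq_inv_of_mul_eq_one_left ?_
      rw [← vl_mul, Units.inv_mul, vl_one]
    refine ⟨C1 + C2, by positivity, fun ε hε => ?_⟩
    filter_upwards [h1, h2, Pool.Agent.Y742.AR.rep_inv _ hu0,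
      Pool.Agent.Y742.AR.rep_ne _ hu0] with t g1 g2 g3 g4
    have h5 : ∀ v, |Real.log (D.av v (rep (vl D 𝒰 N hN (u : RA D 𝒰 N hN)) t))| -
        (C1 + C2) * N t ≤ 0 := by
      intro v
      have hpos := D.av_pos v _ g4
      have e1 := (Real.log_le_iff_le_exp hpos).2 (g1 v)
      have e2 := g2 v
      rw [hinv, g3] at e2
      have e3 := (Real.log_le_iff_le_exp (D.av_pos v _ (inv_ne_zero g4))).2 e2
      rw [av_inv _ _ g4] at e3
      have e4 := hN t
      have e5 : 0 ≤ C1 * N t := by positivity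
      have e6 : 0 ≤ C2 * N t := by positivity
      rw [sub_nonpos, abs_le]
      constructor <;> nlinarith
    refine (Finset.sum_nonpos fun v _ => h5 v).trans ?_
    have := hN t
    positivity
  unit_neg u ε hε := by
    have hu0 : vl D 𝒰 N hN (u : RA D 𝒰 N hN) ≠ 0 := fun h => u.ne_zero (vl_inj h)
    have hinv : vl D 𝒰 N hN ((u⁻¹ : (RA D 𝒰 N hN)ˣ) : RA D 𝒰 N hN) =
        (vl D 𝒰 N hN (u : RA D 𝒰 N hN))⁻¹ := by
      refine eq_inv_of_mul_eq_one_left ?_
      rw [← vl_mul, Units.inv_mul, vl_one]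
    have h1 := ((mem_R0 hN _).1 (vl_mem ((u⁻¹ : (RA D 𝒰 N hN)ˣ) : RA D 𝒰 N hN))).1
    rw [hinv] at h1
    obtain ⟨C, hC⟩ := ubdd _ hu0 h1
    filter_upwards [hC, hNt.eventually_ge_atTop (C / ε)] with t g1 g2
    rw [div_le_iff₀ hε] at g2
    refine g1.trans ?_
    linarith
  smt m κ _ B hli hspan s ε hε := smtA hNt m κ B hli hspan s ε hε

theorem not_neg_oneA (hNt : Tendsto N (𝒰 : Filter ℕ) atTop) :
    ¬ (DcA (D := D) (hN := hN) hNt).Neg (DcA (D := D) (hN := hN) hNt).one := by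
  intro h
  have h1 : ∀ᶠ t in (𝒰 : Filter ℕ), ∑ _v : (K ≃ₐ[ℚ] K) ⊕ Fin D.s, N t ≤ 1 / 2 * N t :=
    h (1 / 2) (by norm_num)
  obtain ⟨t, ht⟩ := h1.exists
  have h2 := hN t
  have h3 : N t ≤ ∑ _v : (K ≃ₐ[ℚ] K) ⊕ Fin D.s, N t :=
    Finset.single_le_sum (f := fun _ : (K ≃ₐ[ℚ] K) ⊕ Fin D.s => N t)
      (fun _ _ => by linarith) (Finset.mem_univ (Sum.inl 1))
  linarith

end Pool.Agent.N754.LT
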