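import Mathlib
import Pool.Agent.N754.LT.ArD
import Pool.Agent.N754.LT.Ext
import Pool.Agent.W235.RM.Final

/-!
The arithmetic half: infinitely many integral points give a curve.
-/

set_option autoImplicit false
set_option linter.unusedSectionVars false

open Finset MvPolynomial Filter

namespace Pool.Agent.N754.LT

open NumberField IsDedekindDomain
open Pool.Agent.Y742.SF Pool.Agent.Y742.AR
open Pool.Agent.W235.RM Pool.Agent.H159R3.Exp

section germs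

variable {M : Type} [Field M] [NumberField M] [IsGalois ℚ M] (D : PD M) (𝒰 : Ultrafilter ℕ)

/-- the ring of integral germs -/
def TIR : Subring (BA M 𝒰) where
  carrier := {x | TI D 𝒰 (rep (K := M) (𝒰 := 𝒰) x)}
  mul_mem' := by
    intro a b ha hb
    exact TI_rep_mul _ _ ha hb
  one_mem' := by
    refine (TI.const (D := D) (𝒰 := 𝒰) (1 : M)).congr ?_
    filter_upwards [Pool.Agent.Y742.AR.rep_one (K := M) (𝒰 := 𝒰)] with t h
    exact h.symm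
  add_mem' := by
    intro a b ha hb
    refine (TI.add ha hb).congr ?_
    filter_upwards [Pool.Agent.Y742.AR.rep_add (K := M) (𝒰 := 𝒰) a b] with t h
    exact h.symm
  zero_mem' := by
    refine (TI.const (D := D) (𝒰 := 𝒰) (0 : M)).congr ?_
    filter_upwards [Pool.Agent.Y742.AR.rep_zero (K := M) (𝒰 := 𝒰)] with t h
    exact h.symm
  neg_mem' := by
    intro a ha
    refine ((TI.const (D := D) (𝒰 := 𝒰) (-1 : M)).mul ha).congr ?_
    filter_upwards [Pool.Agent.Y742.AR.rep_neg (K := M) (𝒰 := 𝒰) a] with t h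
    rw [neg_one_mul]
    exact h.symm

theorem mem_TIR (x : BA M 𝒰) : x ∈ TIR D 𝒰 ↔ TI D 𝒰 (rep (K := M) (𝒰 := 𝒰) x) := Iff.rfl

theorem cg_mem_TIR (c : M) : algebraMap M (BA M 𝒰) c ∈ TIR D 𝒰 := by
  rw [mem_TIR]
  refine (TI.const (D := D) (𝒰 := 𝒰) c).congr ?_
  filter_upwards [Pool.Agent.Y742.AR.rep_cg (K := M) (𝒰 := 𝒰) c] with t h
  exact h.symm

/-- the group of units of the ring of integral germs -/
def WA : Subgroup (BA M 𝒰)ˣ where
  carrier := {u | (u : BA M 𝒰) ∈ TIR D 𝒰 ∧ ((u⁻¹ : (BA M 𝒰)ˣ) : BA M 𝒰) ∈ TIR D 𝒰}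
  mul_mem' := by
    rintro a b ⟨h1, h2⟩ ⟨h3, h4⟩
    refine ⟨?_, ?_⟩
    · rw [Units.val_mul]
      exact mul_mem h1 h3
    · rw [mul_inv, Units.val_mul]
      exact mul_mem h2 h4
  one_mem' := by
    refine ⟨?_, ?_⟩
    · rw [Units.val_one]
      exact one_mem _
    · rw [inv_one, Units.val_one]
      exact one_mem _
  inv_mem' := by
    rintro a ⟨h1, h2⟩
    exact ⟨h2, by rwa [inv_inv]⟩

theorem mem_WA (u : (BA M 𝒰)ˣ) : u ∈ WA D 𝒰 ↔
    (u : BA M 𝒰) ∈ TIR D 𝒰 ∧ ((u⁻¹ : (BA M 𝒰)ˣ) : BA M 𝒰) ∈ TIR D 𝒰 := Iff.rfl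

theorem unitA (m : ℕ) (g : Fin m → (BA M 𝒰)ˣ) (hg : ∀ i, g i ∈ WA D 𝒰)
    (hne : ∀ i j, i ≠ j → ∀ c : M, (g i : BA M 𝒰) ≠ algebraMap M (BA M 𝒰) c * g j)
    (c : Fin m → M) (hc : ∑ i, algebraMap M (BA M 𝒰) (c i) * g i = 0) : c = 0 := by
  refine unit_ind (𝒰 := 𝒰) D m (fun i => (g i : BA M 𝒰)) (fun i => Units.ne_zero _)
    (fun i => (hg i).1) (fun i => ?_) (fun i j hij c h => ?_) c hc
  · have h1 := (hg i).2
    rw [Units.val_inv_eq_inv_val] at h1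
    exact h1
  · apply hne i j hij c
    exact (div_eq_iff (Units.ne_zero (g j))).1 h

theorem tfA (g : (BA M 𝒰)ˣ) (hg : g ∈ WA D 𝒰) (m : ℕ) (hm : 0 < m)
    (h : ∃ c : M, ((g ^ m : (BA M 𝒰)ˣ) : BA M 𝒰) = algebraMap M (BA M 𝒰) c) :
    ∃ c : M, (g : BA M 𝒰) = algebraMap M (BA M 𝒰) c := by
  classical
  obtain ⟨c, hc⟩ := h
  have e1 : ∀ k : ℕ, ∀ᶠ t in (𝒰 : Filter ℕ),
      rep (K := M) (𝒰 := 𝒰) ((g : BA M 𝒰) ^ k) t = rep (K := M) (𝒰 := 𝒰) (g : BA M 𝒰) t ^ k := by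
    intro k
    induction k with
    | zero =>
      filter_upwards [Pool.Agent.Y742.AR.rep_one (K := M) (𝒰 := 𝒰)] with t h
      rw [pow_zero, pow_zero]
      exact h
    | succ k ih =>
      filter_upwards [ih, Pool.Agent.Y742.AR.rep_mul (K := M) (𝒰 := 𝒰) ((g : BA M 𝒰) ^ k)
        (g : BA M 𝒰)] with t h1 h2
      rw [pow_succ, pow_succ, ← h1]
      exact h2
  refine const_of_bdd (D := D) (𝒰 := 𝒰) (g : BA M 𝒰) hg.1 (1 + ∑ v, D.av v c) ?_
  have e2 : ∀ᶠ t in (𝒰 : Filter ℕ), rep (K := M) (𝒰 := 𝒰) ((g : BA M 𝒰) ^ m) t = c := by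
    rw [← Units.val_pow_eq_pow_val, hc]
    exact Pool.Agent.Y742.AR.rep_cg (K := M) (𝒰 := 𝒰) c
  filter_upwards [e1 m, e2] with t h1 h2 v
  have h3 : D.av v (rep (K := M) (𝒰 := 𝒰) (g : BA M 𝒰) t) ^ m = D.av v c := by
    have h4 : ∀ (x : M) (k : ℕ), D.av v (x ^ k) = D.av v x ^ k := by
      intro x k
      induction k with
      | zero => rw [pow_zero, pow_zero, D.av_one]
      | succ k ih => rw [pow_succ, pow_succ, D.av_mul, ih]
    rw [← h4, ← h1, h2]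
  have h5 : D.av v c ≤ ∑ v, D.av v c :=
    Finset.single_le_sum (f := fun v => D.av v c) (fun _ _ => D.av_nonneg _ _) (Finset.mem_univ v)
  have h6 : 0 ≤ D.av v c := D.av_nonneg _ _
  by_contra hcon
  push Not at hcon
  have h7 : 1 ≤ D.av v (rep (K := M) (𝒰 := 𝒰) (g : BA M 𝒰) t) := by linarith
  have h8 : D.av v (rep (K := M) (𝒰 := 𝒰) (g : BA M 𝒰) t) ≤
      D.av v (rep (K := M) (𝒰 := 𝒰) (g : BA M 𝒰) t) ^ m := le_self_pow₀ h7 hm.ne'
  rw [h3] at h8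
  linarith

theorem zero_of_rep (x : BA M 𝒰) (h : ∀ᶠ t in (𝒰 : Filter ℕ), rep (K := M) (𝒰 := 𝒰) x t = 0) :
    x = 0 := by
  by_contra hx
  obtain ⟨t, h1, h2⟩ := (h.and (Pool.Agent.Y742.AR.rep_ne (K := M) (𝒰 := 𝒰) x hx)).exists
  exact h2 h1

variable {D 𝒰}

/-- elements of the ring of integral germs of bounded size -/
def mkR {N : ℕ → ℝ} {hN : ∀ t, 1 ≤ N t} (x : BA M 𝒰) (hx : TI D 𝒰 (rep (K := M) (𝒰 := 𝒰) x))
    (hx2 : Bd D N 𝒰 (rep (K := M) (𝒰 := 𝒰) x)) : RA D 𝒰 N hN :=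
  (⟨x, (mem_R0 hN x).2 ⟨hx, hx2⟩⟩ : R0 D 𝒰 N hN)

theorem vl_mkR {N : ℕ → ℝ} {hN : ∀ t, 1 ≤ N t} (x : BA M 𝒰)
    (hx : TI D 𝒰 (rep (K := M) (𝒰 := 𝒰) x)) (hx2 : Bd D N 𝒰 (rep (K := M) (𝒰 := 𝒰) x)) :
    vl D 𝒰 N hN (mkR x hx hx2) = x := rfl

variable (D 𝒰)

/-- curves from germs of integral points -/
theorem curveA_dat {n : ℕ} {U : Finset (Fin n)} {ι : Type} [Finite ι]
    (F : ι → MvPolynomial (Fin n) M) (y : Fin n → BA M 𝒰)
    (hF : ∀ l, aeval y (F l) = 0) (hy : ∀ i, y i ∈ TIR D 𝒰) (d : Dat M U y (WA D 𝒰)) :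
    ∀ᶠ t in (𝒰 : Filter ℕ), CurveAt (rpA M 𝒰) F y t := by
  classical
  -- the scale
  let rp : BA M 𝒰 → ℕ → M := fun x => rep (K := M) (𝒰 := 𝒰) x
  let s : (((M ≃ₐ[ℚ] M) ⊕ Fin D.s) → ℕ → ℝ) := fun v t =>
    ∑ j, |Real.log (D.av v (rp (d.w j : BA M 𝒰) t))| + ∑ i, max (Real.log (D.av v (rp (y i) t))) 0
  have hs0 : ∀ v t, 0 ≤ s v t := fun v t => add_nonneg
    (Finset.sum_nonneg fun _ _ => abs_nonneg _) (Finset.sum_nonneg fun _ _ => le_max_right _ _)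
  let N : ℕ → ℝ := fun t => 1 + ∑ v, s v t
  have hN : ∀ t, 1 ≤ N t := fun t => by
    have : 0 ≤ ∑ v, s v t := Finset.sum_nonneg fun _ _ => hs0 _ _
    simp only [N]
    linarith
  have hsN : ∀ v t, s v t ≤ N t := by
    intro v t
    have h1 : s v t ≤ ∑ v, s v t :=
      Finset.single_le_sum (f := fun v => s v t) (fun _ _ => hs0 _ _) (Finset.mem_univ v)
    simp only [N]
    linarith
  have hwN : ∀ v t j, |Real.log (D.av v (rp (d.w j : BA M 𝒰) t))| ≤ N t := by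
    intro v t j
    refine le_trans ?_ (hsN v t)
    have h1 : |Real.log (D.av v (rp (d.w j : BA M 𝒰) t))| ≤
        ∑ j, |Real.log (D.av v (rp (d.w j : BA M 𝒰) t))| :=
      Finset.single_le_sum (f := fun j => |Real.log (D.av v (rp (d.w j : BA M 𝒰) t))|)
        (fun _ _ => abs_nonneg _) (Finset.mem_univ j)
    have h2 : 0 ≤ ∑ i, max (Real.log (D.av v (rp (y i) t))) 0 :=
      Finset.sum_nonneg fun _ _ => le_max_right _ _
    simp only [s]
    linarith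
  have hyN : ∀ v t i, Real.log (D.av v (rp (y i) t)) ≤ N t := by
    intro v t i
    refine le_trans ?_ (hsN v t)
    have h1 : max (Real.log (D.av v (rp (y i) t))) 0 ≤
        ∑ i, max (Real.log (D.av v (rp (y i) t))) 0 :=
      Finset.single_le_sum (f := fun i => max (Real.log (D.av v (rp (y i) t))) 0)
        (fun _ _ => le_max_right _ _) (Finset.mem_univ i)
    have h2 : 0 ≤ ∑ j, |Real.log (D.av v (rp (d.w j : BA M 𝒰) t))| :=
      Finset.sum_nonneg fun _ _ => abs_nonneg _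
    have h3 := le_max_left (Real.log (D.av v (rp (y i) t))) 0
    simp only [s]
    linarith
  have hNt : Tendsto N (𝒰 : Filter ℕ) atTop := by
    refine tendsto_of_unbdd N ?_
    rintro ⟨C, hC⟩
    let j0 : Fin d.r := ⟨0, d.hr⟩
    obtain ⟨c, hc⟩ := const_of_bdd (D := D) (𝒰 := 𝒰) (d.w j0 : BA M 𝒰) (d.hw𝒲 j0).1
      (Real.exp C) (by
        filter_upwards [hC, Pool.Agent.Y742.AR.rep_ne (K := M) (𝒰 := 𝒰) (d.w j0 : BA M 𝒰)
          (Units.ne_zero _)] with t h1 h2 v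
        rw [← Real.log_le_iff_le_exp (D.av_pos v _ h2)]
        exact ((le_abs_self _).trans (hwN v t j0)).trans h1)
    exact d.hnc j0 c hc
  -- the elements of the ring
  have hwB : ∀ j, Bd D N 𝒰 (rp (d.w j : BA M 𝒰)) := by
    intro j
    refine ⟨1, zero_le_one, ?_⟩
    filter_upwards [Pool.Agent.Y742.AR.rep_ne (K := M) (𝒰 := 𝒰) (d.w j : BA M 𝒰)
      (Units.ne_zero _)] with t h2 v
    rw [one_mul, ← Real.log_le_iff_le_exp (D.av_pos v _ h2)]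
    exact (le_abs_self _).trans (hwN v t j)
  have hwB' : ∀ j, Bd D N 𝒰 (rp ((d.w j)⁻¹ : (BA M 𝒰)ˣ)) := by
    intro j
    refine ⟨1, zero_le_one, ?_⟩
    rw [Units.val_inv_eq_inv_val]
    filter_upwards [Pool.Agent.Y742.AR.rep_ne (K := M) (𝒰 := 𝒰) (d.w j : BA M 𝒰)
      (Units.ne_zero _), Pool.Agent.Y742.AR.rep_inv (K := M) (𝒰 := 𝒰) (d.w j : BA M 𝒰)
      (Units.ne_zero _)] with t h2 h3 v
    have h4 : rp ((d.w j : BA M 𝒰)⁻¹) t = (rp (d.w j : BA M 𝒰) t)⁻¹ := h3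
    rw [h4, one_mul, ← Real.log_le_iff_le_exp (D.av_pos v _ (inv_ne_zero h2)), av_inv _ _ h2]
    exact (neg_le_abs _).trans (hwN v t j)
  have hyB : ∀ i, Bd D N 𝒰 (rp (y i)) := by
    intro i
    refine ⟨1, zero_le_one, Filter.Eventually.of_forall fun t v => ?_⟩
    rw [one_mul]
    by_cases h0 : rp (y i) t = 0
    · rw [h0, D.av_zero]
      exact (Real.exp_pos _).le
    · rw [← Real.log_le_iff_le_exp (D.av_pos v _ h0)]
      exact hyN v t i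
  let wR : Fin d.r → (RA D 𝒰 N hN)ˣ := fun j =>
    { val := mkR (d.w j : BA M 𝒰) (d.hw𝒲 j).1 (hwB j)
      inv := mkR ((d.w j)⁻¹ : (BA M 𝒰)ˣ) (d.hw𝒲 j).2 (hwB' j)
      val_inv := by
        apply vl_inj
        rw [vl_mul, vl_mkR, vl_mkR, vl_one]
        exact Units.mul_inv (d.w j)
      inv_val := by
        apply vl_inj
        rw [vl_mul, vl_mkR, vl_mkR, vl_one]
        exact Units.inv_mul (d.w j) }
  let yR : Fin n → RA D 𝒰 N hN := fun i => mkR (y i) (hy i) (hyB i)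
  let V : ℝ := Fintype.card ((M ≃ₐ[ℚ] M) ⊕ Fin D.s)
  refine curve_of_dat (rpA M 𝒰) d (DcA hNt) (incA D 𝒰 N hN) (incA_inj D 𝒰 N hN) wR
    (fun j => rfl) yR (fun i => rfl) ⟨V, Nat.cast_nonneg _, ?_⟩ (not_neg_oneA hNt) F hF
  intro ε hε
  filter_upwards [hNt.eventually_ge_atTop (V / ε)] with t ht
  rw [div_le_iff₀ hε] at ht
  have h1 : ∑ v, ((N t) - V * s v t) ≤ ε * N t := by
    rw [Finset.sum_sub_distrib, ← Finset.mul_sum, Finset.sum_const, nsmul_eq_mul,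
      Finset.card_univ]
    have h2 : (∑ v, s v t) = N t - 1 := by
      simp only [N]
      ring
    rw [h2]
    have h3 : ((Fintype.card ((M ≃ₐ[ℚ] M) ⊕ Fin D.s) : ℕ) : ℝ) = V := rfl
    rw [h3]
    linarith
  exact h1

end germs

theorem LinOff.map {n : ℕ} {U : Finset (Fin n)} {R S : Type} [CommRing R] [CommRing S]
    {P : MvPolynomial (Fin n) R} (h : LinOff U P) (f : R →+* S) :
    LinOff U (MvPolynomial.map f P) := fun s hs => h s (MvPolynomial.support_map_subset f P hs)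

end Pool.Agent.N754.LT
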