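import Mathlib

/-!
Germs along an ultrafilter with values in the complex numbers.
-/

set_option autoImplicit false
set_option linter.unusedSectionVars false

open Finset MvPolynomial Filter

namespace Pool.Agent.N754.LT

variable {α : Type} (𝒰 : Ultrafilter α)

/-- germs of complex functions -/
abbrev GC (α : Type) (𝒰 : Ultrafilter α) : Type := Germ (𝒰 : Filter α) ℂ

/-- the germ of a function -/
noncomputable def gc : (α → ℂ) →+* GC α 𝒰 := Germ.coeRingHom (𝒰 : Filter α)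

theorem gc_eq (f g : α → ℂ) : gc 𝒰 f = gc 𝒰 g ↔ ∀ᶠ t in (𝒰 : Filter α), f t = g t :=
  Germ.coe_eq

theorem gc_surj (x : GC α 𝒰) : ∃ f : α → ℂ, gc 𝒰 f = x := by
  induction x using Germ.inductionOn with
  | _ f => exact ⟨f, rfl⟩

theorem gc_zero (f : α → ℂ) : gc 𝒰 f = 0 ↔ ∀ᶠ t in (𝒰 : Filter α), f t = 0 := by
  rw [← map_zero (gc 𝒰), gc_eq]
  rfl

instance gc_closed : IsAlgClosed (GC α 𝒰) := by
  classical
  refine IsAlgClosed.of_exists_root _ fun p hp hirr => ?_
  choose a ha using fun i => gc_surj 𝒰 (p.coeff i)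
  set d : ℕ := p.natDegree with hd
  have hd0 : d ≠ 0 := by
    intro h
    have h1 := hirr.natDegree_pos
    omega
  let P : α → Polynomial ℂ := fun t => Polynomial.X ^ d +
    ∑ i ∈ Finset.range d, Polynomial.C (a i t) * Polynomial.X ^ i
  have hlt : ∀ t, (∑ i ∈ Finset.range d, Polynomial.C (a i t) * Polynomial.X ^ i :
      Polynomial ℂ).degree < d := by
    intro t
    refine (Polynomial.degree_sum_le _ _).trans_lt ?_
    refine (Finset.sup_lt_iff (WithBot.bot_lt_coe d)).2 fun i hi => ?_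
    refine (Polynomial.degree_C_mul_X_pow_le _ _).trans_lt ?_
    exact Nat.cast_lt.2 (Finset.mem_range.1 hi)
  have hdeg : ∀ t, (P t).degree ≠ 0 := by
    intro t
    simp only [P]
    rw [Polynomial.degree_add_eq_left_of_degree_lt (by rw [Polynomial.degree_X_pow]; exact hlt t),
      Polynomial.degree_X_pow]
    exact_mod_cast hd0
  choose ξ hξ using fun t => IsAlgClosed.exists_root (P t) (hdeg t)
  refine ⟨gc 𝒰 ξ, ?_⟩
  rw [Polynomial.eval_eq_sum_range, Finset.sum_range_succ, ← hd]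
  have h1 : p.coeff d = 1 := hp.coeff_natDegree
  rw [h1, one_mul]
  have h2 : ∑ i ∈ Finset.range d, p.coeff i * gc 𝒰 ξ ^ i + gc 𝒰 ξ ^ d =
      gc 𝒰 (∑ i ∈ Finset.range d, a i * ξ ^ i + ξ ^ d) := by
    rw [map_add, map_sum, map_pow]
    congr 1
    refine Finset.sum_congr rfl fun i _ => ?_
    rw [map_mul, map_pow, ha]
  rw [h2, gc_zero]
  refine Filter.Eventually.of_forall fun t => ?_
  have h3 := hξ t
  simp only [P, Polynomial.IsRoot.def, Polynomial.eval_add, Polynomial.eval_pow,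
    Polynomial.eval_X, Polynomial.eval_finsetSum, Polynomial.eval_mul, Polynomial.eval_C] at h3
  rw [Pi.add_apply, Finset.sum_apply, Pi.pow_apply, add_comm]
  exact h3

/-- values of polynomials at germs -/
theorem gc_eval {R : Type} [CommRing R] (τ : R →+* ℂ) {n : ℕ} (z : α → Fin n → ℂ)
    (P : MvPolynomial (Fin n) R) :
    eval₂ ((gc 𝒰).comp ((Pi.constRingHom α ℂ).comp τ)) (fun j => gc 𝒰 fun t => z t j) P =
      gc 𝒰 fun t => eval₂ τ (z t) P := by
  have h1 := hom_eval₂ P ((Pi.constRingHom α ℂ).comp τ) (gc 𝒰) (fun j => fun t => z t j)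
  rw [← h1]
  congr 1
  funext t
  have h2 := hom_eval₂ P ((Pi.constRingHom α ℂ).comp τ) (Pi.evalRingHom (fun _ : α => ℂ) t)
    (fun j => fun t => z t j)
  exact h2

/-- a second germ gives second points -/
theorem gc_second {R : Type} [CommRing R] (τ : R →+* ℂ) {n : ℕ} (U : Finset (Fin n)) {ι : Type}
    [Finite ι] (F : ι → MvPolynomial (Fin n) R) (y : α → Fin n → ℂ)
    (h : ∃ z : Fin n → GC α 𝒰, (∀ l, eval₂ ((gc 𝒰).comp ((Pi.constRingHom α ℂ).comp τ)) z (F l) = 0) ∧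
      (∀ i ∈ U, z i = gc 𝒰 fun t => y t i) ∧ z ≠ fun j => gc 𝒰 fun t => y t j) :
    ∀ᶠ t in (𝒰 : Filter α), ∃ z' : Fin n → ℂ, (∀ l, eval₂ τ z' (F l) = 0) ∧
      (∀ i ∈ U, z' i = y t i) ∧ z' ≠ y t := by
  classical
  obtain ⟨z, h1, h2, h3⟩ := h
  choose ζ hζ using fun j => gc_surj 𝒰 (z j)
  have hz : z = fun j => gc 𝒰 fun t => ζ j t := funext fun j => (hζ j).symm
  obtain ⟨j0, hj0⟩ := Function.ne_iff.1 h3
  have e1 : ∀ᶠ t in (𝒰 : Filter α), ∀ l, eval₂ τ (fun j => ζ j t) (F l) = 0 := by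
    refine (Filter.eventually_all).2 fun l => ?_
    have h4 := h1 l
    rw [hz, gc_eval 𝒰 τ (fun t j => ζ j t), gc_zero] at h4
    exact h4
  have e2 : ∀ᶠ t in (𝒰 : Filter α), ∀ i ∈ U, ζ i t = y t i := by
    refine (Filter.eventually_all_finset U).2 fun i hi => ?_
    have h4 := h2 i hi
    rw [← hζ i, gc_eq] at h4
    exact h4
  have e3 : ∀ᶠ t in (𝒰 : Filter α), ζ j0 t ≠ y t j0 := by
    rw [← hζ j0, Ne, gc_eq] at hj0
    exact Ultrafilter.eventually_not.2 hj0
  filter_upwards [e1, e2, e3] with t g1 g2 g3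
  exact ⟨fun j => ζ j t, g1, g2, fun h => g3 (congrFun h j0)⟩

end Pool.Agent.N754.LT
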