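import Mathlib
import Pool.Agent.N754.LT.Str

/-!
A second point in the fibre, or a rational function.
-/

set_option autoImplicit false
set_option linter.unusedSectionVars false

open Finset MvPolynomial Filter

namespace Pool.Agent.N754.LT

/-- the alternative for the fibre over a point of a torus -/
theorem second_point {k B : Type} [Field k] [CharZero k] [CommRing B] [IsDomain B] [Algebra k B]
    {n : ℕ} (U : Finset (Fin n)) {ι : Type} (F : ι → MvPolynomial (Fin n) k) (y : Fin n → B)
    (hF : ∀ l, aeval y (F l) = 0) {r : ℕ} (w : Fin r → B) (hw : AlgebraicIndependent k w)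
    (f g : Fin n → MvPolynomial (Fin r) k) (hg : ∀ i ∈ U, g i ≠ 0)
    (hfg : ∀ i ∈ U, aeval w (g i) * y i = aeval w (f i))
    {E : Type} [Field E] [IsAlgClosed E] (θ : B →+* E) (hθ : Function.Injective θ) :
    (∃ z : Fin n → E, (∀ l, eval₂ (θ.comp (algebraMap k B)) z (F l) = 0) ∧
      (∀ i ∈ U, z i = θ (y i)) ∧ z ≠ fun j => θ (y j)) ∨
    ∀ j, ∃ p q : MvPolynomial (Fin r) k, IsRelPrime q p ∧ q ≠ 0 ∧ aeval w q * y j = aeval w p := by
  classical
  let A : Type := MvPolynomial (Fin r) k
  let K0 : Type := FractionRing A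
  have hinj : Function.Injective (aeval (R := k) w) := hw
  have hKinj : Function.Injective (algebraMap A K0) := IsFractionRing.injective A K0
  let φ : A →+* E := θ.comp (aeval w : A →ₐ[k] B).toRingHom
  have hφ : Function.Injective φ := hθ.comp hinj
  have hφe : ∀ P : A, φ P = θ (aeval w P) := fun P => rfl
  let Θ : K0 →+* E := IsFractionRing.lift hφ
  have hΘ : ∀ P : A, Θ (algebraMap A K0 P) = θ (aeval w P) := fun P =>
    IsFractionRing.lift_algebraMap hφ P
  have hchar : CharZero K0 := by
    have h1 : Function.Injective (algebraMap k K0) := (algebraMap k K0).injective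
    exact charZero_of_injective_algebraMap h1
  let N : Type := AlgebraicClosure K0
  let : Algebra K0 E := Θ.toAlgebra
  let lam : N →ₐ[K0] E := IsAlgClosed.lift
  have hlam : Function.Injective lam := (lam : N →+* E).injective
  let Y : Fin n → K0 := fun i => algebraMap A K0 (f i) / algebraMap A K0 (g i)
  have hY : ∀ i ∈ U, Θ (Y i) = θ (y i) := by
    intro i hi
    simp only [Y]
    rw [map_div₀, hΘ, hΘ, ← hfg i hi, map_mul]
    have h1 : θ (aeval w (g i)) ≠ 0 := by
      rw [← hφe]
      exact (map_ne_zero_iff φ hφ).2 (hg i hi)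
    rw [mul_comm, mul_div_assoc, div_self h1, mul_one]
  let c0 : k →+* K0 := algebraMap k K0
  have hc0 : ∀ c : k, Θ (c0 c) = θ (algebraMap k B c) := by
    intro c
    have h1 : c0 c = algebraMap A K0 (algebraMap k A c) := rfl
    rw [h1, hΘ, AlgHom.commutes]
  let I : Ideal (MvPolynomial (Fin n) K0) := Ideal.span
    ((Set.range fun l => MvPolynomial.map c0 (F l)) ∪ ((fun i => X i - C (Y i)) '' (U : Set (Fin n))))
  -- points of the zero locus in `E`
  let ev : MvPolynomial (Fin n) K0 →+* E := eval₂Hom Θ (fun j => θ (y j))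
  have hevC : ∀ c, ev (C c) = Θ c := fun c => eval₂_C _ _ _
  have hevX : ∀ j, ev (X j) = θ (y j) := fun j => eval₂_X _ _ _
  have hevI : ∀ P ∈ I, ev P = 0 := by
    have h1 : I ≤ RingHom.ker ev := by
      rw [Ideal.span_le]
      rintro P (⟨l, rfl⟩ | ⟨i, hi, rfl⟩)
      · show ev _ = 0
        have h2 : ev (MvPolynomial.map c0 (F l)) = θ (aeval y (F l)) := by
          show eval₂ Θ (fun j => θ (y j)) (MvPolynomial.map c0 (F l)) = _
          rw [eval₂_map, aeval_def, hom_eval₂]
          congr 1
          ext c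
          exact hc0 c
        rw [h2, hF, map_zero]
      · show ev _ = 0
        rw [map_sub, hevX, hevC, hY i hi, sub_self]
    exact fun P hP => h1 hP
  have hZmem : ∀ z : Fin n → N, z ∈ zeroLocus N I ↔
      (∀ l, eval₂ ((algebraMap K0 N).comp c0) z (F l) = 0) ∧
        ∀ i ∈ U, z i = algebraMap K0 N (Y i) := by
    intro z
    constructor
    · intro hz
      refine ⟨fun l => ?_, fun i hi => ?_⟩
      · have h1 := hz _ (Ideal.subset_span (Or.inl ⟨l, rfl⟩))
        rwa [aeval_def, eval₂_map] at h1
      · have h1 := hz _ (Ideal.subset_span (Or.inr ⟨i, hi, rfl⟩))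
        rw [map_sub, aeval_X, aeval_C, sub_eq_zero] at h1
        exact h1
    · rintro ⟨h1, h2⟩ P hP
      have h3 : I ≤ RingHom.ker (aeval z : MvPolynomial (Fin n) K0 →ₐ[K0] N).toRingHom := by
        rw [Ideal.span_le]
        rintro P (⟨l, rfl⟩ | ⟨i, hi, rfl⟩)
        · show aeval z _ = 0
          rw [aeval_def, eval₂_map]
          exact h1 l
        · show aeval z _ = 0
          rw [map_sub, aeval_X, aeval_C, h2 i hi, sub_self]
      exact h3 hP
  -- from points over `N` to points over `E`
  have hpt : ∀ z ∈ zeroLocus N I, (∀ l, eval₂ (θ.comp (algebraMap k B)) (fun j => lam (z j)) (F l) = 0) ∧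
      ∀ i ∈ U, lam (z i) = θ (y i) := by
    intro z hz
    obtain ⟨h1, h2⟩ := (hZmem z).1 hz
    refine ⟨fun l => ?_, fun i hi => ?_⟩
    · have h3 := congrArg lam (h1 l)
      rw [map_zero] at h3
      have h4 : (lam : N →+* E) (eval₂ ((algebraMap K0 N).comp c0) z (F l)) =
          eval₂ ((lam : N →+* E).comp ((algebraMap K0 N).comp c0)) (fun j => lam (z j)) (F l) :=
        hom_eval₂ _ _ _ _
      have h5 : (lam : N →+* E).comp ((algebraMap K0 N).comp c0) = θ.comp (algebraMap k B) := by
        ext c
        show lam (algebraMap K0 N (c0 c)) = _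
        rw [AlgHom.commutes]
        exact hc0 c
      rw [h5] at h4
      rw [← h4]
      exact h3
    · rw [h2 i hi, AlgHom.commutes]
      exact hY i hi
  by_cases hsub : (zeroLocus N I).Subsingleton
  · right
    have hne : (zeroLocus N I).Nonempty := by
      by_contra hcon
      rw [Set.not_nonempty_iff_eq_empty] at hcon
      have h1 : (1 : MvPolynomial (Fin n) K0) ∈ vanishingIdeal K0 (zeroLocus N I) := by
        rw [hcon, mem_vanishingIdeal_iff]
        intro x hx
        exact absurd hx (Set.notMem_empty _)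
      rw [vanishingIdeal_zeroLocus_eq_radical] at h1
      obtain ⟨m, hm⟩ := h1
      rw [one_pow] at hm
      have h2 := hevI 1 hm
      rw [map_one] at h2
      exact one_ne_zero h2
    obtain ⟨z0, hz0⟩ := hne
    intro j
    have hfix : ∀ s : Gal(N/K0), s (z0 j) = z0 j := by
      intro s
      have h1 : (fun j => s (z0 j)) ∈ zeroLocus N I := by
        obtain ⟨h2, h3⟩ := (hZmem z0).1 hz0
        refine (hZmem _).2 ⟨fun l => ?_, fun i hi => ?_⟩
        · have h4 := congrArg s (h2 l)
          rw [map_zero] at h4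
          have h5 : ((s : N →ₐ[K0] N) : N →+* N) (eval₂ ((algebraMap K0 N).comp c0) z0 (F l)) =
              eval₂ (((s : N →ₐ[K0] N) : N →+* N).comp ((algebraMap K0 N).comp c0))
                (fun j => s (z0 j)) (F l) := hom_eval₂ _ _ _ _
          have h6 : ((s : N →ₐ[K0] N) : N →+* N).comp ((algebraMap K0 N).comp c0) =
              (algebraMap K0 N).comp c0 := by
            ext c
            show s (algebraMap K0 N (c0 c)) = _
            rw [AlgEquiv.commutes]
            rfl
          rw [h6] at h5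
          rw [← h5]
          exact h4
        · rw [h3 i hi, AlgEquiv.commutes]
      exact congrFun (hsub h1 hz0) j
    obtain ⟨x, hx⟩ := (InfiniteGalois.mem_range_algebraMap_iff_fixed (k := K0) (K := N) (z0 j)).2 hfix
    have h1 : X j - C x ∈ vanishingIdeal K0 (zeroLocus N I) := by
      rw [mem_vanishingIdeal_iff]
      intro z hz
      rw [map_sub, aeval_X, aeval_C, hsub hz hz0, hx, sub_self]
    rw [vanishingIdeal_zeroLocus_eq_radical] at h1
    obtain ⟨m, hm⟩ := h1
    have h2 := hevI _ hm
    rw [map_pow, map_sub, hevX, hevC] at h2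
    have h3 : θ (y j) = Θ x := sub_eq_zero.1 (eq_zero_of_pow_eq_zero h2)
    obtain ⟨p, q, hpq, hX2⟩ := IsFractionRing.exists_reduced_fraction (A := A) (K := K0) x
    refine ⟨p, q, hpq.symm, nonZeroDivisors.ne_zero q.2, ?_⟩
    apply hθ
    rw [map_mul, h3, ← hX2, ← hΘ, ← hΘ, ← map_mul]
    congr 1
    exact IsLocalization.mk'_spec' K0 p q
  · left
    rw [Set.not_subsingleton_iff] at hsub
    obtain ⟨z1, hz1, z2, hz2, hne⟩ := hsub
    by_cases h1 : (fun j => lam (z1 j)) = fun j => θ (y j)
    · refine ⟨fun j => lam (z2 j), (hpt z2 hz2).1, (hpt z2 hz2).2, fun h2 => hne ?_⟩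
      funext j
      apply hlam
      rw [show lam (z1 j) = θ (y j) from congrFun h1 j, show lam (z2 j) = θ (y j) from congrFun h2 j]
    · exact ⟨fun j => lam (z1 j), (hpt z1 hz1).1, (hpt z1 hz1).2, h1⟩

end Pool.Agent.N754.LT
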