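import Mathlib
import Pool.Agent.N754.LT.Gen

/-!
The data of a solution, or a second point in the fibre.
-/

set_option autoImplicit false
set_option linter.unusedSectionVars false

open Finset MvPolynomial Filter

namespace Pool.Agent.N754.LT

variable {k B : Type} [Field k] [CharZero k] [CommRing B] [IsDomain B] [Algebra k B] {n : ℕ}

theorem dat_or2 (U : Finset (Fin n)) {ι : Type} (F : ι → MvPolynomial (Fin n) k) (y : Fin n → B) (hF : ∀ l, aeval y (F l) = 0)
    (𝒲 : Subgroup Bˣ)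
    (hunit : ∀ (m : ℕ) (g : Fin m → Bˣ), (∀ i, g i ∈ 𝒲) →
      (∀ i j, i ≠ j → ∀ c : k, (g i : B) ≠ algebraMap k B c * g j) →
      ∀ c : Fin m → k, ∑ i, algebraMap k B (c i) * g i = 0 → c = 0)
    (htf : ∀ g ∈ 𝒲, ∀ m : ℕ, 0 < m → (∃ c : k, ((g ^ m : Bˣ) : B) = algebraMap k B c) →
      ∃ c : k, (g : B) = algebraMap k B c)
    (hyU : ∀ i ∈ U, ∃ u ∈ 𝒲, (u : B) = y i)
    (hync : ∃ i, ∀ c : k, y i ≠ algebraMap k B c) {E : Type} [Field E] [IsAlgClosed E]
    (θ : B →+* E) (hθ : Function.Injective θ) :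
    (∃ z : Fin n → E, (∀ l, eval₂ (θ.comp (algebraMap k B)) z (F l) = 0) ∧
      (∀ i ∈ U, z i = θ (y i)) ∧ z ≠ fun j => θ (y j)) ∨ Nonempty (Dat k U y 𝒲) := by
  classical
  choose! u hu𝒲 huy using hyU
  let C : Subgroup 𝒲 := (constU k B).subgroupOf 𝒲
  obtain ⟨r, w', a', c', hc', hu', hind', hspan'⟩ := exists_basis C
    (fun g m hm h => by
      obtain ⟨c, hc⟩ := htf g.1 g.2 m hm h
      exact ⟨c, hc⟩) (fun i : U => (⟨u i, hu𝒲 i i.2⟩ : 𝒲))
  let w : Fin r → Bˣ := fun j => (w' j).1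
  have hw𝒲 : ∀ j, w j ∈ 𝒲 := fun j => (w' j).2
  have hprod : ∀ b : Fin r → ℤ, ((∏ j, w' j ^ b j : 𝒲) : Bˣ) = ∏ j, w j ^ b j := by
    intro b
    rw [Subgroup.val_finsetProd]
    exact Finset.prod_congr rfl fun j _ => rfl
  have hind : ∀ b : Fin r → ℤ, (∃ c : k, ((∏ j, w j ^ b j : Bˣ) : B) = algebraMap k B c) →
      b = 0 := by
    intro b ⟨c, hc⟩
    apply hind'
    refine ⟨c, ?_⟩
    have h1 : (𝒲.subtype (∏ j, w' j ^ b j) : Bˣ) = ∏ j, w j ^ b j := hprod b
    rw [h1]
    exact hc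
  have hwAI := algInd_of_units 𝒲 hunit w hw𝒲 hind
  have hnc : ∀ j, ∀ c : k, (w j : B) ≠ algebraMap k B c := by
    intro j c hc
    have h1 := hind (Pi.single j 1) ⟨c, by
      have h2 : ∏ l, w l ^ (Pi.single j (1 : ℤ) : Fin r → ℤ) l = w j := by
        rw [Finset.prod_eq_single j]
        · rw [Pi.single_eq_same, zpow_one]
        · intro l _ hl
          rw [Pi.single_eq_of_ne hl, zpow_zero]
        · intro h
          exact absurd (Finset.mem_univ _) h
      rw [h2]
      exact hc⟩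
    have h2 := congrFun h1 j
    rw [Pi.single_eq_same, Pi.zero_apply] at h2
    exact one_ne_zero h2
  have hc2 : ∀ i : U, ∃ c : k, ((c' i).1 : B) = algebraMap k B c := fun i => hc' i
  choose c2 hc2 using hc2
  let a : Fin n → Fin r → ℤ := fun i => if h : i ∈ U then a' ⟨i, h⟩ else 0
  let c : Fin n → k := fun i => if h : i ∈ U then c2 ⟨i, h⟩ else 1
  have ha : ∀ i : U, a i = a' i := fun i => by
    simp only [a]
    rw [dif_pos i.2]
  have hcc : ∀ i : U, c i = c2 i := fun i => by
    simp only [c]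
    rw [dif_pos i.2]
  have hc0 : ∀ i, c i ≠ 0 := by
    intro i
    simp only [c]
    by_cases hi : i ∈ U
    · rw [dif_pos hi]
      intro h
      have h1 := hc2 ⟨i, hi⟩
      rw [h, map_zero] at h1
      exact (c' ⟨i, hi⟩).1.ne_zero h1
    · rw [dif_neg hi]
      exact one_ne_zero
  have hU : ∀ i ∈ U, y i = algebraMap k B (c i) * (∏ j, w j ^ a i j : Bˣ) := by
    intro i hi
    have h1 := congrArg (fun g : 𝒲 => ((g : Bˣ) : B)) (hu' ⟨i, hi⟩)
    simp only [Subgroup.coe_mul, Units.val_mul] at h1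
    rw [huy i hi, hprod, hc2, ← ha, ← hcc] at h1
    exact h1
  have hspan : ∀ j, Pi.single j 1 ∈ Submodule.span ℤ (a '' U) := by
    intro j
    refine Submodule.span_mono ?_ (hspan' j)
    rintro _ ⟨i, rfl⟩
    exact ⟨i.1, i.2, ha i⟩
  -- monomials
  let em : Fin n → (Fin r →₀ ℕ) := fun i => Finsupp.equivFunOnFinite.symm fun j => (-a i j).toNat
  let ep : Fin n → (Fin r →₀ ℕ) := fun i => Finsupp.equivFunOnFinite.symm fun j => (a i j).toNat
  let g0 : Fin n → MvPolynomial (Fin r) k := fun i => monomial (em i) 1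
  let f0 : Fin n → MvPolynomial (Fin r) k := fun i => monomial (ep i) (c i)
  have hg0 : ∀ i, g0 i ≠ 0 := fun i => by
    simp only [g0]
    rw [Ne, monomial_eq_zero]
    exact one_ne_zero
  have hmonB : ∀ (e : Fin r → ℕ), (∏ j, (w j : B) ^ e j) = ((∏ j, w j ^ e j : Bˣ) : B) := fun e => by
    rw [Units.coe_prod]
    exact Finset.prod_congr rfl fun j _ => (Units.val_pow_eq_pow_val _ _).symm
  have hfg : ∀ i ∈ U, aeval (fun j => (w j : B)) (g0 i) * y i =
      aeval (fun j => (w j : B)) (f0 i) := by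
    intro i hi
    simp only [g0, f0]
    rw [aeval_monomial, aeval_monomial, Finsupp.prod_fintype _ _ (fun _ => pow_zero _),
      Finsupp.prod_fintype _ _ (fun _ => pow_zero _), map_one, one_mul, hmonB, hmonB, hU i hi]
    have h1 : (∏ j, w j ^ em i j) * (∏ j, w j ^ a i j) = ∏ j, w j ^ ep i j := by
      rw [← Finset.prod_mul_distrib]
      refine Finset.prod_congr rfl fun j _ => ?_
      rw [← zpow_natCast, ← zpow_natCast, ← zpow_add]
      congr 1
      have h2 : em i j = (-a i j).toNat := rfl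
      have h3 : ep i j = (a i j).toNat := rfl
      rw [h2, h3]
      omega
    rw [← h1, Units.val_mul]
    ring
  rcases second_point U F y hF (fun j => (w j : B)) hwAI f0 g0 (fun i _ => hg0 i) hfg θ hθ with
    h | h
  · exact Or.inl h
  right
  choose p1 q1 h1 h2 h3 using h
  have hr : 1 ≤ r := by
    by_contra hr0
    have hr0 : r = 0 := by omega
    subst hr0
    obtain ⟨i, hi⟩ := hync
    by_cases hiU : i ∈ U
    · have h4 := hU i hiU
      rw [Finset.univ_eq_empty, Finset.prod_empty, Units.val_one, mul_one] at h4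
      exact hi _ h4
    · have h4 := h3 i
      have h5 : ∀ P : MvPolynomial (Fin 0) k, P = MvPolynomial.C (coeff 0 P) := fun P =>
        eq_C_of_isEmpty P
      rw [h5 (q1 i), h5 (p1 i), ← MvPolynomial.algebraMap_eq, AlgHom.commutes,
        AlgHom.commutes] at h4
      have h6 : coeff 0 (q1 i) ≠ 0 := by
        intro h
        apply h2 i
        rw [h5 (q1 i), h, C_0]
      apply hi ((coeff 0 (q1 i))⁻¹ * coeff 0 (p1 i))
      rw [map_mul, ← h4, ← mul_assoc, ← map_mul, inv_mul_cancel₀ h6, map_one, one_mul]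
  refine ⟨{ r := r, hr := hr, w := w, hw𝒲 := hw𝒲, hw := hwAI, hnc := hnc, a := a, c := c, hc := hc0, hU := hU, hspan := hspan, p := fun i => if i ∈ U then f0 i else p1 i, q := fun i => if i ∈ U then g0 i else q1 i, hqU := ?_, hpq := ?_, hq := ?_, hqp := ?_ }⟩
  · intro i hi b hb b' hb'
    simp only [if_pos hi, g0] at hb hb'
    have h4 := support_monomial_subset hb
    have h5 := support_monomial_subset hb'
    rw [Finset.mem_singleton] at h4 h5
    rw [h4, h5]
  · intro i hi
    simp only [if_neg hi]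
    exact h1 i
  · intro i
    by_cases hi : i ∈ U
    · simp only [if_pos hi]
      exact hg0 i
    · simp only [if_neg hi]
      exact h2 i
  · intro i
    by_cases hi : i ∈ U
    · simp only [if_pos hi]
      exact hfg i hi
    · simp only [if_neg hi]
      exact h3 i

end Pool.Agent.N754.LT
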