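import Mathlib

/-!
Change of bases.
-/

set_option autoImplicit false

open Finset

namespace Pool.Agent.N754.LT

theorem exists_coords {k V : Type} [Field k] [AddCommGroup V] [Module k V] {m : ℕ}
    (x y : Fin m → V) (hx : LinearIndependent k x)
    (h : Submodule.span k (Set.range x) = Submodule.span k (Set.range y)) :
    ∃ M : Fin m → Fin m → k, (∀ a, ∑ j, M a j • x j = y a) ∧
      (Matrix.of fun a j => M a j).det ≠ 0 := by
  classical
  have hco : ∀ a, ∃ f : Fin m → k, ∑ j, f j • x j = y a := by
    intro a
    rw [← Submodule.mem_span_range_iff_exists_fun, h]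
    exact Submodule.subset_span ⟨a, rfl⟩
  choose M hM using hco
  have hco' : ∀ a, ∃ f : Fin m → k, ∑ j, f j • y j = x a := by
    intro a
    rw [← Submodule.mem_span_range_iff_exists_fun, ← h]
    exact Submodule.subset_span ⟨a, rfl⟩
  choose M' hM' using hco'
  refine ⟨M, hM, ?_⟩
  have h1 : (Matrix.of fun a j => M' a j) * (Matrix.of fun a j => M a j) = 1 := by
    ext a b
    rw [Matrix.mul_apply]
    simp only [Matrix.of_apply]
    have h2 : ∑ b, (∑ j, M' a j * M j b) • x b =
        ∑ b, (if a = b then (1 : k) else 0) • x b := by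
      have h3 : ∑ b, (if a = b then (1 : k) else 0) • x b = x a := by
        simp
      rw [h3, ← hM' a]
      simp only [← hM, Finset.smul_sum, Finset.sum_smul, mul_smul]
      rw [Finset.sum_comm]
    have h4 := Fintype.linearIndependent_iff.1 hx
      (fun b => ∑ j, M' a j * M j b - if a = b then (1 : k) else 0) (by
        simp only [sub_smul, Finset.sum_sub_distrib]
        rw [h2, sub_self]) b
    rw [sub_eq_zero] at h4
    rw [h4, Matrix.one_apply]
  intro h
  have h2 := congrArg Matrix.det h1
  rw [Matrix.det_mul, h, mul_zero, Matrix.det_one] at h2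
  exact zero_ne_one h2

end Pool.Agent.N754.LT
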