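import Mathlib
import Pool.Agent.W602.NC.Good

/-!
Growth scales and good circles for finitely many entire functions of bounded growth.
-/

set_option autoImplicit false
set_option linter.unusedSectionVars false

open Finset Filter Metric

namespace Pool.Agent.N754.LT

open Pool.Agent.H159R3.NV Pool.Agent.W602.NC

/-- proximity function -/
noncomputable def mm (f : ℂ → ℂ) (s : ℝ) : ℝ :=
  Real.circleAverage (fun z => Real.posLog ‖f z‖) 0 s

theorem mm_nonneg (f : ℂ → ℂ) (s : ℝ) : 0 ≤ mm f s :=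
  Real.circleAverage_nonneg_of_nonneg (fun _ _ => Real.posLog_nonneg)

theorem T2_one (f : ℂ → ℂ) (s : ℝ) : T2 (fun _ => 1) f s = mm f s := by
  unfold T2 mm L
  have h1 : (fun z : ℂ => Real.log ‖(fun _ : ℂ => (1 : ℂ)) z‖) = fun _ => (0 : ℝ) := by
    funext z
    simp
  rw [h1, Real.circleAverage_const, zero_add]
  simp

theorem mm_mono {f : ℂ → ℂ} (hf : Differentiable ℂ f) {r s : ℝ} (hr : 0 < r) (hrs : r ≤ s) :
    mm f r ≤ mm f s := by
  rw [← T2_one, ← T2_one]
  exact T2_mono (differentiable_const _) (x := 0) one_ne_zero hf hr hrs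

/-- a growth scale -/
structure Sc (T : ℝ → ℝ) : Prop where
  le : ∀ s, 1 ≤ s → 1 + s ≤ T s
  mono : ∀ r s, 1 ≤ r → r ≤ s → T r ≤ T s

theorem Sc.one_le {T : ℝ → ℝ} (h : Sc T) {s : ℝ} (hs : 1 ≤ s) : 1 ≤ T s := by
  have := h.le s hs
  linarith

theorem Sc.growth {T : ℝ → ℝ} (h : Sc T) (R0 : ℝ) (hR0 : 1 ≤ R0) :
    ∃ r, R0 ≤ r ∧ T (r + 1 / T r) ≤ 2 * T r := by
  by_contra hcon
  push Not at hcon
  let x : ℕ → ℝ := fun k => Nat.rec R0 (fun _ r => r + 1 / T r) k
  have hx0 : x 0 = R0 := rfl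
  have hxs : ∀ k, x (k + 1) = x k + 1 / T (x k) := fun k => rfl
  have h1 : ∀ k, R0 ≤ x k ∧ x k ≤ R0 + 2 - 2 / 2 ^ k ∧ 2 ^ k ≤ T (x k) := by
    intro k
    induction k with
    | zero =>
      refine ⟨le_refl _, by rw [hx0]; norm_num, ?_⟩
      rw [hx0, pow_zero]
      exact h.one_le hR0
    | succ k ih =>
      obtain ⟨h2, h3, h4⟩ := ih
      have hT : 0 < T (x k) := lt_of_lt_of_le (by positivity) h4
      have h5 : 1 / T (x k) ≤ 1 / 2 ^ k := one_div_le_one_div_of_le (by positivity) h4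
      refine ⟨?_, ?_, ?_⟩
      · rw [hxs]
        have : 0 < 1 / T (x k) := by positivity
        linarith
      · rw [hxs]
        have h6 : (2 : ℝ) / 2 ^ (k + 1) = 1 / 2 ^ k := by
          rw [pow_succ]
          field_simp
        have h7 : (2 : ℝ) / 2 ^ k = 1 / 2 ^ k + 1 / 2 ^ k := by ring
        rw [h6]
        linarith
      · rw [hxs, pow_succ]
        have := hcon (x k) h2
        linarith
  have h2 : ∀ k : ℕ, (2 : ℝ) ^ k ≤ T (R0 + 2) := by
    intro k
    obtain ⟨h3, h4, h5⟩ := h1 k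
    refine h5.trans (h.mono _ _ (hR0.trans h3) ?_)
    have : (0 : ℝ) < 2 / 2 ^ k := by positivity
    linarith
  obtain ⟨k, hk⟩ := pow_unbounded_of_one_lt (T (R0 + 2)) (one_lt_two)
  exact absurd (h2 k) (not_le.2 hk)

/-- division by a power of the variable -/
theorem zero_div (f : ℂ → ℂ) (hf : Differentiable ℂ f) (h0 : ∃ z, f z ≠ 0) :
    ∃ (k : ℕ) (g : ℂ → ℂ), Differentiable ℂ g ∧ g 0 ≠ 0 ∧ ∀ z, f z = z ^ k * g z := by
  have hfin : analyticOrderAt f 0 ≠ ⊤ := by
    intro h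
    rw [analyticOrderAt_eq_top] at h
    obtain ⟨x, hx⟩ := h0
    have hev := ev_ne hf hx 0
    have h1 : ∀ᶠ z in nhdsWithin (0 : ℂ) {0}ᶜ, f z = 0 := h.filter_mono nhdsWithin_le_nhds
    obtain ⟨z, h2, h3⟩ := (hev.and h1).exists
    exact h2 h3
  obtain ⟨m, hm⟩ := ENat.ne_top_iff_exists.1 hfin
  clear hfin h0
  induction m generalizing f with
  | zero =>
    refine ⟨0, f, hf, ?_, fun z => by rw [pow_zero, one_mul]⟩
    have h1 : analyticOrderAt f 0 = 0 := by rw [← hm]; rfl
    exact ((hf.analyticAt 0).analyticOrderAt_eq_zero).1 h1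
  | succ m ih =>
    have hf0 : f 0 = 0 := by
      by_contra h
      have h1 := ((hf.analyticAt 0).analyticOrderAt_eq_zero).2 h
      rw [h1] at hm
      exact absurd hm (by simp)
    have hd : Differentiable ℂ (dslope f 0) := dslope_diff hf 0
    have hfac : ∀ z, f z = z * dslope f 0 z := by
      intro z
      have := dslope_fac hf0 z
      rwa [sub_zero] at this
    have hord : analyticOrderAt f 0 = 1 + analyticOrderAt (dslope f 0) 0 := by
      have h1 : f = (fun z => z) * dslope f 0 := funext hfac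
      have hid : AnalyticAt ℂ (fun z : ℂ => z) 0 := analyticAt_id
      conv_lhs => rw [h1]
      rw [analyticOrderAt_mul hid (hd.analyticAt 0)]
      congr 1
      have h2 : analyticOrderAt (fun z : ℂ => z) 0 = ((1 : ℕ) : ℕ∞) := by
        rw [AnalyticAt.analyticOrderAt_eq_natCast hid]
        exact ⟨fun _ => 1, analyticAt_const, one_ne_zero, Filter.Eventually.of_forall fun z => by
          simp⟩
      rw [h2]
      rfl
    rw [hord] at hm
    have hm' : (m : ℕ∞) = analyticOrderAt (dslope f 0) 0 := by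
      have h1 : ((m + 1 : ℕ) : ℕ∞) = 1 + (m : ℕ∞) := by
        push_cast
        rw [add_comm]
      rw [h1] at hm
      exact ENat.add_right_injective_of_ne_top (n := 1) (by simp) hm
    obtain ⟨k, g, hg, hg0, hfg⟩ := ih (dslope f 0) hd hm'
    refine ⟨k + 1, g, hg, hg0, fun z => ?_⟩
    rw [hfac, hfg, pow_succ]
    ring

/-- no zeros and small oscillation near a circle -/
def Good (T : ℝ → ℝ) (f : ℂ → ℂ) (s : ℝ) : Prop :=
  ∀ z, ‖z‖ = s → ∀ w ∈ closedBall z (((T s) ^ 10)⁻¹), f w ≠ 0 ∧ ‖f w‖ ≤ Real.exp 2 * ‖f z‖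

/-- bounded growth -/
def BG (T : ℝ → ℝ) (f : ℂ → ℂ) : Prop := ∃ C : ℝ, ∀ s, 1 ≤ s → mm f s ≤ C * T s

theorem exists_good {T : ℝ → ℝ} (hT : Sc T) {p : ℕ} (f : Fin p → ℂ → ℂ)
    (hf : ∀ j, Differentiable ℂ (f j)) (h0 : ∀ j, ∃ z, f j z ≠ 0) (hg : ∀ j, BG T (f j)) (R0 : ℝ) :
    ∃ s, R0 ≤ s ∧ ∀ j, Good T (f j) s := by
  classical
  choose k g hgd hg0 hfg using fun j => zero_div (f j) (hf j) (h0 j)
  choose C hC using hg
  let v : Fin (p + 1) → ℂ → ℂ := Fin.cons (fun _ => 1) g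
  have hv0 : v 0 = fun _ => 1 := rfl
  have hvs : ∀ j : Fin p, v j.succ = g j := fun j => by simp [v]
  let Λ : ℝ := ∑ j, |Real.log ‖v j 0‖|
  have hbase : Base v Λ :=
    { hv := fun j => by
        refine Fin.cases ?_ (fun j => ?_) j
        · rw [hv0]; exact differentiable_const _
        · rw [hvs]; exact hgd j
      hv0 := fun j => by
        refine Fin.cases ?_ (fun j => ?_) j
        · rw [hv0]; exact one_ne_zero
        · rw [hvs]; exact hg0 j
      hΛ0 := Finset.sum_nonneg fun _ _ => abs_nonneg _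
      hΛ := fun j => Finset.single_le_sum (f := fun j => |Real.log ‖v j 0‖|)
        (fun _ _ => abs_nonneg _) (Finset.mem_univ j) }
  have hΛ0 : 0 ≤ Λ := hbase.hΛ0
  -- growth of the quotients
  have hgm : ∀ j s, 1 ≤ s → mm (g j) s ≤ |C j| * T s := by
    intro j s hs
    have hTs := hT.one_le hs
    have h1 : mm (g j) s ≤ mm (f j) s := by
      refine Real.circleAverage_mono (ci_posLog (mero_of_diff (hgd j)) s)
        (ci_posLog (mero_of_diff (hf j)) s) fun z hz => ?_
      have hzs : ‖z‖ = s := by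
        rw [mem_sphere, dist_zero_right, abs_of_pos (by linarith)] at hz
        exact hz
      refine Real.posLog_le_posLog (norm_nonneg _) ?_
      rw [hfg, norm_mul, norm_pow, hzs]
      exact le_mul_of_one_le_left (norm_nonneg _) (one_le_pow₀ hs)
    refine (h1.trans (hC j s hs)).trans ?_
    exact mul_le_mul_of_nonneg_right (le_abs_self _) (by linarith)
  let A : ℝ := (∑ j, |C j|) + (p + 1) * Λ
  have hA0 : 0 ≤ A := add_nonneg (Finset.sum_nonneg fun _ _ => abs_nonneg _) (by positivity)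
  have hSS : ∀ s, 1 ≤ s → SS v Λ s ≤ A * T s := by
    intro s hs
    have hTs := hT.one_le hs
    have h1 : SS v Λ s = ∑ j, (mm (v j) s + Λ) := by
      unfold SS
      refine Finset.sum_congr rfl fun j _ => ?_
      rw [hv0, T2_one]
    rw [h1, Finset.sum_add_distrib, Finset.sum_const, Finset.card_univ, Fintype.card_fin,
      nsmul_eq_mul, Fin.sum_univ_succ]
    have h2 : mm (v 0) s = 0 := by
      rw [hv0]
      unfold mm
      have h3 : (fun z : ℂ => Real.posLog ‖(fun _ : ℂ => (1 : ℂ)) z‖) = fun _ => (0 : ℝ) := by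
        funext z
        simp
      rw [h3, Real.circleAverage_const]
    rw [h2, zero_add]
    have h3 : ∑ j : Fin p, mm (v j.succ) s ≤ (∑ j, |C j|) * T s := by
      rw [Finset.sum_mul]
      refine Finset.sum_le_sum fun j _ => ?_
      rw [hvs]
      exact hgm j s hs
    have h4 : ((p + 1 : ℕ) : ℝ) * Λ ≤ (p + 1) * Λ * T s := by
      push_cast
      exact le_mul_of_one_le_right (by positivity) hTs
    have h5 : A * T s = (∑ j, |C j|) * T s + (p + 1) * Λ * T s := by
      simp only [A]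
      ring
    rw [h5]
    linarith
  -- the radius
  let C' : ℝ := 2000 * 8 * (2 * A + 1) ^ 2 * 256
  have hC'0 : 0 ≤ C' := by positivity
  let k' : ℝ := ∑ j, (k j : ℝ)
  have hk'0 : 0 ≤ k' := Finset.sum_nonneg fun _ _ => Nat.cast_nonneg _
  obtain ⟨r, hr, hgr⟩ := hT.growth (|R0| + C' + k' + 2) (by
    have := abs_nonneg R0
    linarith)
  have hR0 := abs_nonneg R0
  have hr1 : 1 ≤ r := by linarith
  have hTr : 1 ≤ T r := hT.one_le hr1
  have hδ : 0 < 1 / (4 * T r) := by positivity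
  have hδ1 : 1 / (4 * T r) ≤ 1 := by
    rw [div_le_one (by positivity)]
    linarith
  obtain ⟨s, ε, hrs, hsr, hε, hε1, hεb, hne, hosc⟩ := hbase.good hr1 hδ hδ1
  have hs1 : 1 ≤ s := by linarith
  have hTs : T r ≤ T s := hT.mono _ _ hr1 hrs
  have hTs1 : 1 ≤ T s := hTr.trans hTs
  have hr4 : r + 4 * (1 / (4 * T r)) = r + 1 / T r := by
    field_simp
  have hρ : 1 ≤ r + 1 / T r := by
    have : 0 < 1 / T r := by positivity
    linarith
  have hTρ : T (r + 1 / T r) ≤ 2 * T s := by linarith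
  have hρT : r + 1 / T r ≤ 2 * T s := by
    have := hT.le _ hρ
    linarith
  have hSρ : SS v Λ (r + 1 / T r) ≤ 2 * A * T s := by
    refine (hSS _ hρ).trans ?_
    nlinarith
  have hSρ0 : 0 ≤ SS v Λ (r + 1 / T r) := hbase.SS_nonneg (by linarith)
  have hεT : 1 / ε ≤ T s ^ 10 := by
    refine hεb.trans ?_
    rw [hr4]
    have h1 : (r + 1 / T r) ^ 3 ≤ (2 * T s) ^ 3 := pow_le_pow_left₀ (by linarith) hρT 3
    have h2 : (SS v Λ (r + 1 / T r) + 1) ^ 2 ≤ ((2 * A + 1) * T s) ^ 2 := by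
      refine pow_le_pow_left₀ (by linarith) ?_ 2
      nlinarith
    have h3 : 1 / (1 / (4 * T r)) ^ 4 ≤ (4 * T s) ^ 4 := by
      have h4 : 1 / (1 / (4 * T r)) ^ 4 = (4 * T r) ^ 4 := by
        rw [one_div, one_div, inv_pow, inv_inv]
      rw [h4]
      exact pow_le_pow_left₀ (by linarith) (by linarith) 4
    have hTs0 : 0 ≤ T s := by linarith
    have h0 : 0 ≤ (r + 1 / T r) ^ 3 := by
      apply pow_nonneg
      linarith
    calc 2 * (1000 * (r + 1 / T r) ^ 3 * (SS v Λ (r + 1 / T r) + 1) ^ 2 / (1 / (4 * T r)) ^ 4)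
        = 2 * (1000 * (r + 1 / T r) ^ 3 * (SS v Λ (r + 1 / T r) + 1) ^ 2 *
          (1 / (1 / (4 * T r)) ^ 4)) := by ring
      _ ≤ 2 * (1000 * (2 * T s) ^ 3 * ((2 * A + 1) * T s) ^ 2 * (4 * T s) ^ 4) := by
        gcongr
      _ = C' * T s ^ 9 := by
        simp only [C']
        ring
      _ ≤ T s * T s ^ 9 := by
        refine mul_le_mul_of_nonneg_right ?_ (by positivity)
        have := hT.le s hs1
        linarith
      _ = T s ^ 10 := by ring
  refine ⟨s, by linarith [le_abs_self R0], fun j => ?_⟩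
  intro z hz w hw
  set ε0 : ℝ := ((T s) ^ 10)⁻¹ with hε0
  have hε0ε : ε0 ≤ ε := by
    rw [hε0]
    rw [one_div] at hεT
    exact inv_le_of_inv_le₀ hε hεT
  have hε01 : ε0 ≤ 1 := hε0ε.trans hε1
  have hε00 : 0 < ε0 := by positivity
  have hw2 : w ∈ closedBall z ε := closedBall_subset_closedBall hε0ε hw
  have hgw : g j w ≠ 0 := by
    have := hne z hz j.succ w hw2
    rwa [hvs] at this
  have hgo : ‖g j w‖ ≤ Real.exp 1 * ‖g j z‖ := by
    have := hosc z hz 0 j.succ w hw2
    rw [hvs, hv0] at this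
    simpa using this
  rw [mem_closedBall, dist_eq_norm] at hw
  have hs2 : 2 ≤ s := by linarith
  have hwn : ‖w‖ ≤ s + 1 := by
    calc ‖w‖ = ‖z + (w - z)‖ := by congr 1; ring
      _ ≤ ‖z‖ + ‖w - z‖ := norm_add_le _ _
      _ ≤ s + 1 := by rw [hz]; linarith
  have hw0 : w ≠ 0 := by
    intro h
    rw [h, zero_sub, norm_neg, hz] at hw
    linarith
  rw [hfg, hfg]
  refine ⟨mul_ne_zero (pow_ne_zero _ hw0) hgw, ?_⟩
  rw [norm_mul, norm_mul, norm_pow, norm_pow, hz]
  have hkj : (k j : ℝ) ≤ s := by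
    have h1 : (k j : ℝ) ≤ k' := Finset.single_le_sum (f := fun j => (k j : ℝ))
      (fun _ _ => Nat.cast_nonneg _) (Finset.mem_univ j)
    linarith
  have hpow : ‖w‖ ^ k j ≤ s ^ k j * Real.exp 1 := by
    have h1 : ‖w‖ ≤ s * (1 + 1 / s) := by
      have : s * (1 + 1 / s) = s + 1 := by
        field_simp
      rw [this]
      exact hwn
    calc ‖w‖ ^ k j ≤ (s * (1 + 1 / s)) ^ k j := pow_le_pow_left₀ (norm_nonneg _) h1 _
      _ = s ^ k j * (1 + 1 / s) ^ k j := mul_pow _ _ _
      _ ≤ s ^ k j * Real.exp 1 := by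
        refine mul_le_mul_of_nonneg_left ?_ (by positivity)
        have h2 : 1 + 1 / s ≤ Real.exp (1 / s) := by
          have := Real.add_one_le_exp (1 / s)
          linarith
        refine (pow_le_pow_left₀ (by positivity) h2 _).trans ?_
        rw [← Real.exp_nat_mul]
        refine Real.exp_le_exp.2 ?_
        rw [mul_one_div, div_le_one (by linarith)]
        exact hkj
  calc ‖w‖ ^ k j * ‖g j w‖ ≤ (s ^ k j * Real.exp 1) * (Real.exp 1 * ‖g j z‖) := by
        gcongr
    _ = Real.exp 2 * (s ^ k j * ‖g j z‖) := by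
        have : Real.exp 2 = Real.exp 1 * Real.exp 1 := by
          rw [← Real.exp_add]
          norm_num
        rw [this]
        ring

end Pool.Agent.N754.LT
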