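import Mathlib
import Pool.Agent.N754.LT.Cur
import Pool.Agent.N754.LT.Sc
import Pool.Agent.N754.LT.Mat

/-!
The analytic instance: entire functions of bounded growth.
-/

set_option autoImplicit false
set_option linter.unusedSectionVars false

open Finset Filter Metric

namespace Pool.Agent.N754.LT

open Pool.Agent.H159R3.NV Pool.Agent.W602.NC

/-- entire functions of bounded growth -/
def RT (T : ℝ → ℝ) (hT : Sc T) : Subalgebra ℂ Ent where
  carrier := {f | BG T (f : ℂ → ℂ)}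
  mul_mem' := by
    rintro a b ⟨C, hC⟩ ⟨D, hD⟩
    refine ⟨C + D, fun s hs => ?_⟩
    have h1 : mm ((a * b : Ent) : ℂ → ℂ) s ≤ mm (a : ℂ → ℂ) s + mm (b : ℂ → ℂ) s := by
      unfold mm
      rw [← Real.circleAverage_fun_add (ci_posLog (mero_of_diff a.2) s)
        (ci_posLog (mero_of_diff b.2) s)]
      refine Real.circleAverage_mono (ci_posLog (mero_of_diff (a * b).2) s)
        ((ci_posLog (mero_of_diff a.2) s).add (ci_posLog (mero_of_diff b.2) s)) fun z _ => ?_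
      have h2 : ((a * b : Ent) : ℂ → ℂ) z = (a : ℂ → ℂ) z * (b : ℂ → ℂ) z := rfl
      rw [h2, norm_mul]
      exact Real.posLog_mul
    have := hC s hs
    have := hD s hs
    rw [add_mul]
    linarith
  add_mem' := by
    rintro a b ⟨C, hC⟩ ⟨D, hD⟩
    refine ⟨C + D + Real.log 2, fun s hs => ?_⟩
    have h1 : mm ((a + b : Ent) : ℂ → ℂ) s ≤ mm (a : ℂ → ℂ) s + mm (b : ℂ → ℂ) s + Real.log 2 := by
      unfold mm
      have i1 := ci_posLog (mero_of_diff a.2) s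
      have i2 := ci_posLog (mero_of_diff b.2) s
      have i3 : CircleIntegrable (fun _ : ℂ => Real.log 2) 0 s := circleIntegrable_const _ _ _
      have h3 := Real.circleAverage_const (Real.log 2) (0 : ℂ) s
      have i12 : CircleIntegrable (fun z => Real.posLog ‖(a : ℂ → ℂ) z‖ +
        Real.posLog ‖(b : ℂ → ℂ) z‖) 0 s := i1.add i2
      rw [← Real.circleAverage_fun_add i1 i2]
      conv_rhs => rw [← h3]
      rw [← Real.circleAverage_fun_add i12 i3]
      refine Real.circleAverage_mono (ci_posLog (mero_of_diff (a + b).2) s)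
        ((i1.add i2).add i3) fun z _ => ?_
      have h2 : ((a + b : Ent) : ℂ → ℂ) z = (a : ℂ → ℂ) z + (b : ℂ → ℂ) z := rfl
      rw [h2]
      have h4 : Real.posLog ‖(a : ℂ → ℂ) z + (b : ℂ → ℂ) z‖ ≤
          Real.posLog (‖(a : ℂ → ℂ) z‖ + ‖(b : ℂ → ℂ) z‖) :=
        Real.posLog_le_posLog (norm_nonneg _) (norm_add_le _ _)
      have h5 := Real.posLog_add (x := ‖(a : ℂ → ℂ) z‖) (y := ‖(b : ℂ → ℂ) z‖)
      show _ ≤ Real.posLog ‖(a : ℂ → ℂ) z‖ + Real.posLog ‖(b : ℂ → ℂ) z‖ + Real.log 2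
      linarith
    have h2 := hC s hs
    have h3 := hD s hs
    have h4 := hT.one_le hs
    have h5 : 0 ≤ Real.log 2 := Real.log_nonneg (by norm_num)
    have h6 : Real.log 2 ≤ Real.log 2 * T s := le_mul_of_one_le_right h5 h4
    rw [add_mul, add_mul]
    linarith
  algebraMap_mem' := by
    intro c
    refine ⟨Real.posLog ‖c‖, fun s hs => ?_⟩
    have h1 : mm ((algebraMap ℂ Ent c : Ent) : ℂ → ℂ) s = Real.posLog ‖c‖ := by
      unfold mm
      exact Real.circleAverage_const (Real.posLog ‖c‖) (0 : ℂ) s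
    rw [h1]
    exact le_mul_of_one_le_right Real.posLog_nonneg (hT.one_le hs)

theorem mem_RT {T : ℝ → ℝ} {hT : Sc T} (f : Ent) : f ∈ RT T hT ↔ BG T (f : ℂ → ℂ) := Iff.rfl

/-- the filter of good radii -/
def FF (T : ℝ → ℝ) : Filter ℝ where
  sets := {P | ∃ (V : Set (ℂ → ℂ)) (R0 : ℝ), V.Finite ∧
    (∀ f ∈ V, Differentiable ℂ f ∧ (∃ z, f z ≠ 0) ∧ BG T f) ∧
    ∀ s, R0 ≤ s → (∀ f ∈ V, Good T f s) → s ∈ P}
  univ_sets := ⟨∅, 0, Set.finite_empty, fun f hf => absurd hf (Set.notMem_empty _),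
    fun s _ _ => Set.mem_univ s⟩
  sets_of_superset := by
    rintro P Q ⟨V, R0, h1, h2, h3⟩ hPQ
    exact ⟨V, R0, h1, h2, fun s hs hV => hPQ (h3 s hs hV)⟩
  inter_sets := by
    rintro P Q ⟨V, R0, h1, h2, h3⟩ ⟨V', R0', h1', h2', h3'⟩
    refine ⟨V ∪ V', max R0 R0', h1.union h1', ?_, fun s hs hV => ⟨?_, ?_⟩⟩
    · rintro f (hf | hf)
      · exact h2 f hf
      · exact h2' f hf
    · exact h3 s ((le_max_left _ _).trans hs) fun f hf => hV f (Or.inl hf)
    · exact h3' s ((le_max_right _ _).trans hs) fun f hf => hV f (Or.inr hf)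

theorem FF_neBot {T : ℝ → ℝ} (hT : Sc T) : (FF T).NeBot := by
  rw [Filter.neBot_iff]
  intro h
  have h1 : (∅ : Set ℝ) ∈ FF T := by rw [h]; exact Filter.mem_bot
  obtain ⟨V, R0, hV, h2, h3⟩ := h1
  have := hV.fintype
  let e := Fintype.equivFin V
  obtain ⟨s, hs, hg⟩ := exists_good hT (fun j => ((e.symm j : V) : ℂ → ℂ))
    (fun j => (h2 _ (e.symm j).2).1) (fun j => (h2 _ (e.symm j).2).2.1)
    (fun j => (h2 _ (e.symm j).2).2.2) R0
  refine h3 s hs fun f hf => ?_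
  have := hg (e ⟨f, hf⟩)
  rwa [Equiv.symm_apply_apply] at this

theorem FF_ge {T : ℝ → ℝ} (R0 : ℝ) : ∀ᶠ s in FF T, R0 ≤ s :=
  ⟨∅, R0, Set.finite_empty, fun f hf => absurd hf (Set.notMem_empty _), fun _ hs _ => hs⟩

theorem FF_good {T : ℝ → ℝ} {f : ℂ → ℂ} (hf : Differentiable ℂ f) (h0 : ∃ z, f z ≠ 0)
    (hg : BG T f) : ∀ᶠ s in FF T, Good T f s :=
  ⟨{f}, 0, Set.finite_singleton _, fun g hg' => by
    rw [Set.mem_singleton_iff] at hg'
    subst hg'
    exact ⟨hf, h0, hg⟩, fun s _ h => h f rfl⟩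

theorem Good.ne {T : ℝ → ℝ} (hT : Sc T) {f : ℂ → ℂ} {s : ℝ} (hs : 1 ≤ s) (h : Good T f s) (z : ℂ)
    (hz : ‖z‖ = s) : f z ≠ 0 := by
  refine (h z hz z (mem_closedBall_self ?_)).1
  have := hT.one_le hs
  positivity

/-- upper averages -/
def UA (f : ℂ → ℝ) (s c : ℝ) : Prop :=
  ∃ h : ℂ → ℝ, CircleIntegrable h 0 s ∧
    (∀ᶠ z in codiscreteWithin (sphere (0 : ℂ) |s|), f z ≤ h z) ∧ Real.circleAverage h 0 s ≤ c

theorem cod_of_all {s : ℝ} (hs : 0 < s) {p : ℂ → Prop} (h : ∀ z : ℂ, ‖z‖ = s → p z) :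
    ∀ᶠ z in codiscreteWithin (sphere (0 : ℂ) |s|), p z := by
  filter_upwards [self_mem_codiscreteWithin (sphere (0 : ℂ) |s|)] with z hz
  rw [mem_sphere, dist_zero_right, abs_of_pos hs] at hz
  exact h z hz

theorem UA.mono {f g : ℂ → ℝ} {s c d : ℝ} (hs : 0 < s) (h : UA f s c)
    (hfg : ∀ z : ℂ, ‖z‖ = s → g z ≤ f z) (hcd : c ≤ d) : UA g s d := by
  obtain ⟨k, h1, h2, h3⟩ := h
  refine ⟨k, h1, ?_, h3.trans hcd⟩
  filter_upwards [h2, cod_of_all hs hfg] with z h4 h5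
  exact h5.trans h4

theorem UA.add {f g : ℂ → ℝ} {s c d : ℝ} (h : UA f s c) (h' : UA g s d) :
    UA (fun z => f z + g z) s (c + d) := by
  obtain ⟨k, h1, h2, h3⟩ := h
  obtain ⟨k', h1', h2', h3'⟩ := h'
  refine ⟨fun z => k z + k' z, h1.add h1', ?_, ?_⟩
  · filter_upwards [h2, h2'] with z h4 h5
    exact add_le_add h4 h5
  · rw [Real.circleAverage_fun_add h1 h1']
    exact add_le_add h3 h3'

theorem UA.smul {f : ℂ → ℝ} {s c : ℝ} (a : ℝ) (ha : 0 ≤ a) (h : UA f s c) :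
    UA (fun z => a * f z) s (a * c) := by
  obtain ⟨k, h1, h2, h3⟩ := h
  refine ⟨fun z => a • k z, h1.const_smul, ?_, ?_⟩
  · filter_upwards [h2] with z h4
    exact mul_le_mul_of_nonneg_left h4 ha
  · rw [Real.circleAverage_fun_smul, smul_eq_mul]
    exact mul_le_mul_of_nonneg_left h3 ha

theorem UA.const (c s : ℝ) : UA (fun _ => c) s c :=
  ⟨fun _ => c, circleIntegrable_const _ _ _, Filter.Eventually.of_forall fun _ => le_refl _,
    (Real.circleAverage_const _ _ _).le⟩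

theorem evN {T : ℝ → ℝ} {p : ℂ → Prop} :
    (∀ᶠ z in Filter.comap (fun z : ℂ => ‖z‖) (FF T), p z) ↔
      ∀ᶠ s in FF T, ∀ z : ℂ, ‖z‖ = s → p z := Filter.eventually_comap

theorem FF_big {T : ℝ → ℝ} (hT : Sc T) (C : ℝ) : ∀ᶠ s in FF T, C ≤ T s := by
  filter_upwards [FF_ge (T := T) (max 1 C)] with s hs
  have h1 := hT.le s ((le_max_left _ _).trans hs)
  have h2 := (le_max_right 1 C).trans hs
  linarith

theorem FF_tendsto {T : ℝ → ℝ} (hT : Sc T) : Tendsto T (FF T) atTop :=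
  tendsto_atTop.2 fun C => FF_big hT C

theorem FF_log {T : ℝ → ℝ} (hT : Sc T) (C C' ε : ℝ) (hε : 0 < ε) :
    ∀ᶠ s in FF T, C + C' * Real.log (T s) ≤ ε * T s := by
  have h1 : ∀ᶠ x : ℝ in atTop, C + C' * Real.log x ≤ ε * x := by
    have h2 : (fun x : ℝ => C' * Real.log x) =o[atTop] (fun x : ℝ => x) :=
      Real.isLittleO_log_id_atTop.const_mul_left C'
    filter_upwards [h2.bound (half_pos hε), eventually_ge_atTop (C / (ε / 2)),
      eventually_ge_atTop 0] with x h3 h4 h5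
    rw [div_le_iff₀ (half_pos hε)] at h4
    rw [Real.norm_eq_abs, Real.norm_eq_abs, abs_of_nonneg h5] at h3
    have h6 := le_abs_self (C' * Real.log x)
    linarith
  exact (FF_tendsto hT).eventually h1

/-- Wronskians -/
noncomputable def Wr {m : ℕ} (f : Fin m → Ent) : Ent :=
  (Matrix.of fun b l : Fin m => ((Dv : Ent → Ent)^[(l : ℕ)]) (f b)).det

theorem Dv_iter_lin (l : ℕ) (x : Ent) :
    (Dv : Ent → Ent)^[l] x = ((Dv.toLinearMap : Module.End ℂ Ent) ^ l) x := by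
  rw [Module.End.pow_apply]
  rfl

theorem Wr_lin {m : ℕ} (f g : Fin m → Ent) (M : Fin m → Fin m → ℂ)
    (h : ∀ a, g a = ∑ j, M a j • f j) :
    Wr g = algebraMap ℂ Ent (Matrix.of fun a j => M a j).det * Wr f := by
  have h1 : (Matrix.of fun b l : Fin m => ((Dv : Ent → Ent)^[(l : ℕ)]) (g b)) =
      ((algebraMap ℂ Ent).mapMatrix (Matrix.of fun a j => M a j)) *
        (Matrix.of fun b l : Fin m => ((Dv : Ent → Ent)^[(l : ℕ)]) (f b)) := by
    ext1 a l
    rw [Matrix.mul_apply]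
    simp only [Matrix.of_apply, RingHom.mapMatrix_apply, Matrix.map_apply]
    rw [h a, Dv_iter_lin, map_sum]
    refine Finset.sum_congr rfl fun j _ => ?_
    rw [map_smul, Dv_iter_lin, Algebra.smul_def]
  unfold Wr
  rw [h1, Matrix.det_mul, RingHom.map_det]

theorem Wr_val {m : ℕ} (f : Fin m → Ent) (z : ℂ) : ((Wr f : Ent) : ℂ → ℂ) z =
    (Matrix.of fun b l : Fin m => iteratedDeriv l ((f b : Ent) : ℂ → ℂ) z).det := by
  let ev : Ent →+* ℂ := (Pi.evalRingHom (fun _ : ℂ => ℂ) z).comp Ent.val.toRingHom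
  have h1 : ev (Wr f) = (Matrix.of fun b l : Fin m => iteratedDeriv l ((f b : Ent) : ℂ → ℂ) z).det := by
    unfold Wr
    rw [RingHom.map_det]
    congr 1
    ext b l
    simp only [RingHom.mapMatrix_apply, Matrix.map_apply, Matrix.of_apply]
    show (((Dv : Ent → Ent)^[(l : ℕ)] (f b) : Ent) : ℂ → ℂ) z = _
    rw [Dv_iter]
  exact h1

theorem Wr_ne {m : ℕ} (f : Fin m → Ent)
    (hf : ∀ c : Fin m → ℂ, ∑ i, c i • f i = 0 → c = 0) : Wr f ≠ 0 := by
  intro h
  obtain ⟨c, hc, hs⟩ := wron_dep m f h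
  exact hc (hf c hs)

/-- the pointwise bound for the Wronskian -/
theorem Wr_le {T : ℝ → ℝ} (hT : Sc T) {m : ℕ} (f : Fin m → Ent) {s : ℝ} (hs : 1 ≤ s)
    (hg : ∀ a, Good T (f a : ℂ → ℂ) s) (z : ℂ) (hz : ‖z‖ = s) (hW : (Wr f : ℂ → ℂ) z ≠ 0) :
    Real.log ‖(Wr f : ℂ → ℂ) z‖ ≤ Real.log m.factorial +
      m * (Real.log m.factorial + 10 * m * Real.log (T s) + 2) +
      ∑ a, Real.log ‖(f a : ℂ → ℂ) z‖ := by
  have hT1 := hT.one_le hs
  set ε : ℝ := ((T s) ^ 10)⁻¹ with hε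
  have hε0 : 0 < ε := by positivity
  have hne : ∀ a, (f a : ℂ → ℂ) z ≠ 0 := fun a => (hg a).ne hT hs z hz
  have hK : ∀ b l : Fin m, ‖(Matrix.of fun b l : Fin m => iteratedDeriv l ((f b : Ent) : ℂ → ℂ) z)
      b l‖ ≤ m.factorial * (T s) ^ (10 * m) * (Real.exp 2 * ‖(f b : ℂ → ℂ) z‖) := by
    intro b l
    simp only [Matrix.of_apply]
    have h1 := Complex.norm_iteratedDeriv_le_of_forall_mem_sphere_norm_le (n := l) (c := z)
      (R := ε) (C := Real.exp 2 * ‖(f b : ℂ → ℂ) z‖) (f := (f b : ℂ → ℂ)) hε0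
      (f b).2.diffContOnCl (fun w hw => (hg b z hz w (sphere_subset_closedBall hw)).2)
    refine h1.trans ?_
    have h2 : (Nat.factorial (l : ℕ) : ℝ) ≤ Nat.factorial m := by
      exact_mod_cast Nat.factorial_le l.2.le
    have h3 : 1 / ε ^ (l : ℕ) ≤ (T s) ^ (10 * m) := by
      rw [hε, inv_pow, one_div, inv_inv, ← pow_mul]
      exact pow_le_pow_right₀ hT1 (by
        have := l.2.le
        omega)
    calc (Nat.factorial (l : ℕ) : ℝ) * (Real.exp 2 * ‖(f b : ℂ → ℂ) z‖) / ε ^ (l : ℕ)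
        = (Nat.factorial (l : ℕ) : ℝ) * (1 / ε ^ (l : ℕ)) * (Real.exp 2 * ‖(f b : ℂ → ℂ) z‖) := by
          ring
      _ ≤ _ := by gcongr
  have h1 := det_bound _ _ hK
  rw [← Wr_val] at h1
  have hpos : ∀ b, 0 < (m.factorial : ℝ) * (T s) ^ (10 * m) * (Real.exp 2 * ‖(f b : ℂ → ℂ) z‖) := by
    intro b
    have := norm_pos_iff.2 (hne b)
    have := Nat.factorial_pos m
    positivity
  have hmf : (0 : ℝ) < m.factorial := by exact_mod_cast Nat.factorial_pos m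
  have h2 := Real.log_le_log (norm_pos_iff.2 hW) h1
  rw [Real.log_mul hmf.ne' (Finset.prod_ne_zero_iff.2 fun b _ => (hpos b).ne'),
    Real.log_prod (fun b _ => (hpos b).ne')] at h2
  have h3 : ∀ b, Real.log ((m.factorial : ℝ) * (T s) ^ (10 * m) *
      (Real.exp 2 * ‖(f b : ℂ → ℂ) z‖)) = (Real.log m.factorial + 10 * m * Real.log (T s) + 2) +
      Real.log ‖(f b : ℂ → ℂ) z‖ := by
    intro b
    have h4 := norm_pos_iff.2 (hne b)
    rw [Real.log_mul (by positivity) (by positivity), Real.log_mul (by positivity) (by positivity),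
      Real.log_mul (by positivity) (by positivity), Real.log_pow, Real.log_exp]
    push_cast
    ring
  simp only [h3, Finset.sum_add_distrib, Finset.sum_const, Finset.card_univ, Fintype.card_fin,
    nsmul_eq_mul] at h2
  linarith


end Pool.Agent.N754.LT
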