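import Mathlib
import Pool.Agent.N754.LT.AnF

/-!
The analytic instance: the comparison theorem for entire functions of bounded growth.
-/

set_option autoImplicit false
set_option linter.unusedSectionVars false

open Finset Filter Metric

namespace Pool.Agent.N754.LT

open Pool.Agent.H159R3.NV Pool.Agent.W602.NC

/-- the ring of entire functions of bounded growth -/
def RN (T : ℝ → ℝ) (hT : Sc T) : Type := RT T hT

noncomputable instance {T : ℝ → ℝ} {hT : Sc T} : CommRing (RN T hT) :=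
  inferInstanceAs (CommRing (RT T hT))

instance {T : ℝ → ℝ} {hT : Sc T} : IsDomain (RN T hT) := inferInstanceAs (IsDomain (RT T hT))

noncomputable instance {T : ℝ → ℝ} {hT : Sc T} : Algebra ℂ (RN T hT) :=
  inferInstanceAs (Algebra ℂ (RT T hT))

/-- the inclusion -/
noncomputable def eN (T : ℝ → ℝ) (hT : Sc T) : RN T hT →ₐ[ℂ] Ent := (RT T hT).val

theorem eN_inj {T : ℝ → ℝ} {hT : Sc T} : Function.Injective (eN T hT) := Subtype.val_injective

theorem eN_bg {T : ℝ → ℝ} {hT : Sc T} (f : RN T hT) : BG T (eN T hT f : ℂ → ℂ) := Subtype.prop f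

/-- elements from functions -/
def mkN {T : ℝ → ℝ} {hT : Sc T} (f : Ent) (h : BG T (f : ℂ → ℂ)) : RN T hT :=
  (⟨f, h⟩ : RT T hT)

theorem eN_mkN {T : ℝ → ℝ} {hT : Sc T} (f : Ent) (h : BG T (f : ℂ → ℂ)) :
    eN T hT (mkN f h) = f := rfl

/-- the underlying function -/
noncomputable def fn {T : ℝ → ℝ} {hT : Sc T} (f : RN T hT) : ℂ → ℂ := ((eN T hT f : Ent) : ℂ → ℂ)

theorem fn_diff {T : ℝ → ℝ} {hT : Sc T} (f : RN T hT) : Differentiable ℂ (fn f) :=
  (eN T hT f : Ent).2

theorem fn_mul {T : ℝ → ℝ} {hT : Sc T} (f g : RN T hT) (z : ℂ) : fn (f * g) z = fn f z * fn g z :=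
  rfl

theorem fn_add {T : ℝ → ℝ} {hT : Sc T} (f g : RN T hT) (z : ℂ) : fn (f + g) z = fn f z + fn g z :=
  rfl

theorem fn_one {T : ℝ → ℝ} {hT : Sc T} (z : ℂ) : fn (1 : RN T hT) z = 1 := rfl

theorem fn_zero {T : ℝ → ℝ} {hT : Sc T} (z : ℂ) : fn (0 : RN T hT) z = 0 := rfl

theorem fn_ne {T : ℝ → ℝ} {hT : Sc T} (f : RN T hT) (hf : f ≠ 0) : ∃ z, fn f z ≠ 0 := by
  by_contra hcon
  push Not at hcon
  apply hf
  apply eN_inj
  rw [map_zero]
  apply Subtype.ext
  funext z
  exact hcon z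

theorem fn_good {T : ℝ → ℝ} {hT : Sc T} (f : RN T hT) (hf : f ≠ 0) :
    ∀ᶠ s in FF T, Good T (fn f) s := FF_good (fn_diff f) (fn_ne f hf) (eN_bg f)

theorem smtN {T : ℝ → ℝ} (hT : Sc T) (m : ℕ) (κ : Type) [Finite κ] (B : κ → Fin m → RN T hT)
    (hli : ∀ c, LinearIndependent ℂ (B c))
    (hspan : ∀ c c', Submodule.span ℂ (Set.range (B c)) = Submodule.span ℂ (Set.range (B c')))
    (s : ℂ → κ) (ε : ℝ) (hε : 0 < ε) :
    ∀ᶠ r in FF T, UA (fun z => -∑ a, Real.log ‖fn (B (s z) a) z‖) r (ε * T r) := by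
  classical
  have := Fintype.ofFinite κ
  let c0 : κ := s 0
  -- coordinates
  have hcd := fun c => exists_coords (B c0) (B c) (hli c0) (hspan c0 c)
  choose M hM hdet using hcd
  let E : κ → Fin m → Ent := fun c a => eN T hT (B c a)
  have hEli : ∀ c, ∀ b : Fin m → ℂ, ∑ i, b i • E c i = 0 → b = 0 := by
    intro c b hb
    have h1 : eN T hT (∑ i, b i • B c i) = 0 := by
      rw [map_sum, ← hb]
      refine Finset.sum_congr rfl fun i _ => ?_
      exact map_smul (eN T hT) _ _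
    have h2 : ∑ i, b i • B c i = 0 := eN_inj (by rw [h1, map_zero])
    funext i
    exact Fintype.linearIndependent_iff.1 (hli c) b h2 i
  have hWlin : ∀ c, Wr (E c) = algebraMap ℂ Ent (Matrix.of fun a j => M c a j).det * Wr (E c0) := by
    intro c
    refine Wr_lin (E c0) (E c) (M c) fun a => ?_
    show eN T hT (B c a) = _
    rw [← hM c a, map_sum]
    refine Finset.sum_congr rfl fun j _ => ?_
    exact map_smul (eN T hT) _ _
  have hW0 : Wr (E c0) ≠ 0 := Wr_ne _ (hEli c0)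
  obtain ⟨x0, hx0⟩ : ∃ x, (Wr (E c0) : ℂ → ℂ) x ≠ 0 := by
    by_contra hcon
    push Not at hcon
    exact hW0 (Subtype.ext (funext hcon))
  let Dm : ℝ := ∑ c, |Real.log ‖(Matrix.of fun a j => M c a j).det‖|
  let C0 : ℝ := Real.log m.factorial + m * (Real.log m.factorial + 2) + Dm -
    L (Wr (E c0) : ℂ → ℂ) 1
  have hgood : ∀ᶠ r in FF T, ∀ c a, Good T (fn (B c a)) r :=
    (Filter.eventually_all).2 fun c => (Filter.eventually_all).2 fun a =>
      fn_good _ ((hli c).ne_zero a)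
  filter_upwards [hgood, FF_ge (T := T) 1, FF_log hT C0 (m * (10 * m)) ε hε] with r h1 h2 h3
  have hr0 : 0 < r := by linarith
  let C1 : ℝ := Real.log m.factorial + m * (Real.log m.factorial + 10 * m * Real.log (T r) + 2) + Dm
  have hci : CircleIntegrable (fun z => Real.log ‖(Wr (E c0) : ℂ → ℂ) z‖) 0 r :=
    ci_log (mero_of_diff (Wr (E c0)).2) r
  refine ⟨fun z => C1 - Real.log ‖(Wr (E c0) : ℂ → ℂ) z‖, (circleIntegrable_const _ _ _).sub hci,
    ?_, ?_⟩
  · filter_upwards [ne_cod (Wr (E c0)).2 hx0 r, self_mem_codiscreteWithin (sphere (0 : ℂ) |r|)]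
      with z hz1 hz2
    rw [mem_sphere, dist_zero_right, abs_of_pos hr0] at hz2
    have h4 : (Wr (E (s z)) : ℂ → ℂ) z =
        (Matrix.of fun a j => M (s z) a j).det * (Wr (E c0) : ℂ → ℂ) z := by
      rw [hWlin (s z)]
      rfl
    have h5 : (Wr (E (s z)) : ℂ → ℂ) z ≠ 0 := by
      rw [h4]
      exact mul_ne_zero (hdet _) hz1
    have h6 := Wr_le hT (E (s z)) h2 (fun a => h1 (s z) a) z hz2 h5
    rw [h4, norm_mul, Real.log_mul (norm_ne_zero_iff.2 (hdet _)) (norm_ne_zero_iff.2 hz1)] at h6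
    have h7 : -|Real.log ‖(Matrix.of fun a j => M (s z) a j).det‖| ≤
        Real.log ‖(Matrix.of fun a j => M (s z) a j).det‖ := neg_abs_le _
    have h8 : |Real.log ‖(Matrix.of fun a j => M (s z) a j).det‖| ≤ Dm :=
      Finset.single_le_sum (f := fun c => |Real.log ‖(Matrix.of fun a j => M c a j).det‖|)
        (fun _ _ => abs_nonneg _) (Finset.mem_univ (s z))
    have h9 : ∑ a, Real.log ‖(E (s z) a : ℂ → ℂ) z‖ = ∑ a, Real.log ‖fn (B (s z) a) z‖ := rfl
    rw [h9] at h6
    simp only [C1]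
    linarith
  · rw [Real.circleAverage_fun_sub (circleIntegrable_const _ _ _) hci, Real.circleAverage_const]
    have h4 : L (Wr (E c0) : ℂ → ℂ) 1 ≤ L (Wr (E c0) : ℂ → ℂ) r :=
      L_mono (Wr (E c0)).2 one_pos h2
    have h5 : Real.circleAverage (fun z => Real.log ‖(Wr (E c0) : ℂ → ℂ) z‖) 0 r =
        L (Wr (E c0) : ℂ → ℂ) r := rfl
    rw [h5]
    simp only [C1]
    simp only [C0] at h3
    nlinarith

theorem log_inv_unit {T : ℝ → ℝ} {hT : Sc T} (u : (RN T hT)ˣ) (z : ℂ) :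
    fn (u : RN T hT) z ≠ 0 ∧
      Real.log ‖fn ((u⁻¹ : (RN T hT)ˣ) : RN T hT) z‖ = -Real.log ‖fn (u : RN T hT) z‖ := by
  have h1 : fn (u : RN T hT) z * fn ((u⁻¹ : (RN T hT)ˣ) : RN T hT) z = 1 := by
    rw [← fn_mul, Units.mul_inv, fn_one]
  have h2 : fn (u : RN T hT) z ≠ 0 := left_ne_zero_of_mul_eq_one h1
  refine ⟨h2, ?_⟩
  have h3 : fn ((u⁻¹ : (RN T hT)ˣ) : RN T hT) z = (fn (u : RN T hT) z)⁻¹ :=
    eq_inv_of_mul_eq_one_right h1
  rw [h3, norm_inv, Real.log_inv]

/-- the analytic instance -/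
noncomputable def DcN {T : ℝ → ℝ} (hT : Sc T) : Dc ℂ (RN T hT) where
  Ω := ℂ
  ev := Filter.comap (fun z : ℂ => ‖z‖) (FF T)
  A f z := ‖fn f z‖
  Neg f := ∀ ε : ℝ, 0 < ε → ∀ᶠ s in FF T, UA f s (ε * T s)
  one z := T ‖z‖
  A_zero := Filter.Eventually.of_forall fun z => by rw [fn_zero, norm_zero]
  A_pos f hf := by
    rw [evN]
    filter_upwards [fn_good f hf, FF_ge (T := T) 1] with s h1 h2 z hz
    exact norm_pos_iff.2 (h1.ne hT h2 z hz)
  A_mul f g := Filter.Eventually.of_forall fun z => by rw [fn_mul, norm_mul]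
  A_add f g := Filter.Eventually.of_forall fun z => by rw [fn_add]; exact norm_add_le _ _
  A_const c := ⟨‖c‖, Filter.Eventually.of_forall fun z => le_refl _⟩
  neg_mono f g h hf ε hε := by
    filter_upwards [evN.1 h, hf ε hε, FF_ge (T := T) 1] with s h1 h2 h3
    exact h2.mono (by linarith) h1 (le_refl _)
  neg_add f g hf hg ε hε := by
    filter_upwards [hf (ε / 2) (by positivity), hg (ε / 2) (by positivity),
      FF_ge (T := T) 1] with s h1 h2 h3
    exact (h1.add h2).mono (by linarith) (fun z _ => le_refl _) (by linarith)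
  neg_smul f c hc hf ε hε := by
    filter_upwards [hf (ε / (c + 1)) (by positivity), FF_ge (T := T) 1] with s h1 h2
    refine (h1.smul c hc).mono (by linarith) (fun z _ => le_refl _) ?_
    have h3 := hT.one_le h2
    have h4 : c * (ε / (c + 1)) ≤ ε := by
      rw [← mul_div_assoc, div_le_iff₀ (by positivity)]
      nlinarith
    calc c * (ε / (c + 1) * T s) = c * (ε / (c + 1)) * T s := by ring
      _ ≤ ε * T s := mul_le_mul_of_nonneg_right h4 (by linarith)
  neg_const c ε hε := by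
    filter_upwards [FF_big hT (c / ε), FF_ge (T := T) 1] with s h1 h2
    rw [div_le_iff₀ hε] at h1
    exact (UA.const c s).mono (by linarith) (fun z _ => le_refl _) (by linarith)
  one_nonneg := by
    rw [evN]
    filter_upwards [FF_ge (T := T) 1] with s h z hz
    rw [hz]
    have := hT.one_le h
    linarith
  arch f h ε hε := by
    filter_upwards [h (ε / 2) (by positivity) (ε / 2) (by positivity),
      FF_ge (T := T) 1] with s h1 h2
    refine (h1.add (UA.const (ε / 2 * T s) s)).mono (by linarith) (fun z hz => ?_) (by linarith)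
    rw [hz]
    linarith
  bdd u := by
    obtain ⟨C1, h1⟩ := eN_bg (u : RN T hT)
    obtain ⟨C2, h2⟩ := eN_bg ((u⁻¹ : (RN T hT)ˣ) : RN T hT)
    refine ⟨|C1| + |C2|, by positivity, fun ε hε => ?_⟩
    filter_upwards [FF_ge (T := T) 1] with s hs
    have hTs := hT.one_le hs
    have i1 := ci_posLog (mero_of_diff (fn_diff (u : RN T hT))) s
    have i2 := ci_posLog (mero_of_diff (fn_diff ((u⁻¹ : (RN T hT)ˣ) : RN T hT))) s
    refine ⟨fun z => (Real.posLog ‖fn (u : RN T hT) z‖ +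
      Real.posLog ‖fn ((u⁻¹ : (RN T hT)ˣ) : RN T hT) z‖) - (|C1| + |C2|) * T s,
      (i1.add i2).sub (circleIntegrable_const _ _ _), ?_, ?_⟩
    · refine cod_of_all (by linarith) fun z hz => ?_
      have h3 := (log_inv_unit u z).2
      have h4 : |Real.log ‖fn (u : RN T hT) z‖| ≤ Real.posLog ‖fn (u : RN T hT) z‖ +
          Real.posLog ‖fn ((u⁻¹ : (RN T hT)ˣ) : RN T hT) z‖ := by
        rw [Real.posLog_apply, Real.posLog_apply, h3]
        rcases abs_cases (Real.log ‖fn (u : RN T hT) z‖) with ⟨h5, _⟩ | ⟨h5, _⟩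
        · rw [h5]
          have := le_max_right 0 (Real.log ‖fn (u : RN T hT) z‖)
          have := le_max_left 0 (-Real.log ‖fn (u : RN T hT) z‖)
          linarith
        · rw [h5]
          have := le_max_left 0 (Real.log ‖fn (u : RN T hT) z‖)
          have := le_max_right 0 (-Real.log ‖fn (u : RN T hT) z‖)
          linarith
      show |Real.log ‖fn (u : RN T hT) z‖| - (|C1| + |C2|) * T ‖z‖ ≤ _
      rw [hz]
      exact sub_le_sub_right h4 _
    · have i12 : CircleIntegrable (fun z => Real.posLog ‖fn (u : RN T hT) z‖ +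
        Real.posLog ‖fn ((u⁻¹ : (RN T hT)ˣ) : RN T hT) z‖) 0 s := i1.add i2
      rw [Real.circleAverage_fun_sub i12 (circleIntegrable_const _ _ _),
        Real.circleAverage_fun_add i1 i2, Real.circleAverage_const]
      have h3 : Real.circleAverage (fun z => Real.posLog ‖fn (u : RN T hT) z‖) 0 s ≤ C1 * T s :=
        h1 s hs
      have h4 : Real.circleAverage (fun z =>
          Real.posLog ‖fn ((u⁻¹ : (RN T hT)ˣ) : RN T hT) z‖) 0 s ≤ C2 * T s := h2 s hs
      have h5 : C1 * T s ≤ |C1| * T s := mul_le_mul_of_nonneg_right (le_abs_self _) (by linarith)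
      have h6 : C2 * T s ≤ |C2| * T s := mul_le_mul_of_nonneg_right (le_abs_self _) (by linarith)
      have h7 : 0 ≤ ε * T s := by positivity
      linarith
  unit_neg u ε hε := by
    have hL : ∀ s, L (fn ((u⁻¹ : (RN T hT)ˣ) : RN T hT)) s = -L (fn (u : RN T hT)) s := by
      intro s
      unfold L
      have h1 : (fun z => Real.log ‖fn ((u⁻¹ : (RN T hT)ˣ) : RN T hT) z‖) =
          fun z => (-1 : ℝ) • Real.log ‖fn (u : RN T hT) z‖ := by
        funext z
        rw [(log_inv_unit u z).2, smul_eq_mul, neg_one_mul]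
      rw [h1, Real.circleAverage_fun_smul, smul_eq_mul, neg_one_mul]
    filter_upwards [FF_ge (T := T) 1,
      FF_big hT ((L (fn (u : RN T hT)) 1) / ε)] with s hs hb
    rw [div_le_iff₀ hε] at hb
    refine ⟨fun z => Real.log ‖fn (u : RN T hT) z‖, ci_log (mero_of_diff (fn_diff _)) s,
      Filter.Eventually.of_forall fun z => le_refl _, ?_⟩
    have h1 : L (fn ((u⁻¹ : (RN T hT)ˣ) : RN T hT)) 1 ≤ L (fn ((u⁻¹ : (RN T hT)ˣ) : RN T hT)) s :=
      L_mono (fn_diff _) one_pos hs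
    rw [hL, hL] at h1
    have h2 : Real.circleAverage (fun z => Real.log ‖fn (u : RN T hT) z‖) 0 s =
        L (fn (u : RN T hT)) s := rfl
    rw [h2]
    linarith
  smt m κ _ B hli hspan s ε hε := smtN hT m κ B hli hspan s ε hε

theorem not_neg_oneN {T : ℝ → ℝ} (hT : Sc T) : ¬ (DcN hT).Neg (DcN hT).one := by
  intro h
  have h1 : ∀ᶠ s in FF T, UA (fun z => T ‖z‖) s (1 / 2 * T s) := h (1 / 2) (by norm_num)
  have := FF_neBot hT
  obtain ⟨s, ⟨k, h2, h3, h4⟩, hs⟩ := (h1.and (FF_ge (T := T) 1)).exists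
  have h5 := hT.one_le hs
  have h6 : Real.circleAverage (fun _ : ℂ => T s) 0 s ≤ Real.circleAverage k 0 s := by
    refine avg_le_cod (circleIntegrable_const _ _ _) h2 (by linarith) ?_
    filter_upwards [h3, self_mem_codiscreteWithin (sphere (0 : ℂ) |s|)] with z hz1 hz2
    rw [mem_sphere, dist_zero_right, abs_of_pos (by linarith)] at hz2
    rwa [hz2] at hz1
  rw [Real.circleAverage_const] at h6
  linarith

end Pool.Agent.N754.LT
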