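import Mathlib
import Pool.Agent.N754.LT.AnD
import Pool.Agent.N754.LT.Ari

/-!
The analytic half: curves through the points of an entire curve.
-/

set_option autoImplicit false
set_option linter.unusedSectionVars false

open Finset Filter Metric MvPolynomial

namespace Pool.Agent.N754.LT

open Pool.Agent.H159R3.NV Pool.Agent.W602.NC
open NumberField Pool.Agent.W235.RM Pool.Agent.H159R3.Exp

/-- specialisations of entire functions near a point -/
noncomputable def rpN (z1 : ℂ) : Rp ℂ Ent where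
  T := ℂ
  G := nhdsWithin z1 {z1}ᶜ
  rep f z := (f : ℂ → ℂ) z
  rep_add _ _ := Filter.Eventually.of_forall fun _ => rfl
  rep_mul _ _ := Filter.Eventually.of_forall fun _ => rfl
  rep_const _ := Filter.Eventually.of_forall fun _ => rfl
  rep_ne x hx := by
    obtain ⟨z, hz⟩ : ∃ z, (x : ℂ → ℂ) z ≠ 0 := by
      by_contra hcon
      push Not at hcon
      exact hx (Subtype.ext (funext hcon))
    exact ev_ne x.2 hz z1

theorem unit_val (u : Entˣ) (z : ℂ) : ((u : Ent) : ℂ → ℂ) z ≠ 0 ∧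
    (((u⁻¹ : Entˣ) : Ent) : ℂ → ℂ) z = (((u : Ent) : ℂ → ℂ) z)⁻¹ := by
  have h1 : ((u : Ent) : ℂ → ℂ) z * (((u⁻¹ : Entˣ) : Ent) : ℂ → ℂ) z = 1 := by
    have h2 := congrArg (fun f : Ent => (f : ℂ → ℂ) z) (Units.mul_inv u)
    exact h2
  exact ⟨left_ne_zero_of_mul_eq_one h1, eq_inv_of_mul_eq_one_right h1⟩

/-- zero-free entire functions are exponentials -/
theorem entire_log (g : ℂ → ℂ) (hg : Differentiable ℂ g) (h0 : ∀ z, g z ≠ 0) :
    ∃ G : ℂ → ℂ, Differentiable ℂ G ∧ ∀ z, g z = Complex.exp (G z) := by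
  have hdg : Differentiable ℂ (deriv g) := (hg.contDiff (n := 2)).differentiable_deriv_two
  have hprim : ∃ h : ℂ → ℂ, ∀ z, HasDerivAt h (deriv g z / g z) z := by
    have hf : Differentiable ℂ (fun z => deriv g z / g z) := hdg.div hg h0
    refine ⟨fun w => Complex.wedgeIntegral 0 w (fun z => deriv g z / g z), fun z => ?_⟩
    have h1 : Complex.IsConservativeOn (fun z => deriv g z / g z) (ball (0 : ℂ) (‖z‖ + 1)) :=
      hf.differentiableOn.isConservativeOn
    exact h1.hasDerivAt_wedgeIntegral (z := z) hf.continuous.continuousOn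
      (by rw [mem_ball, dist_zero_right]; linarith)
  obtain ⟨h, hh⟩ := hprim
  have hhd : Differentiable ℂ h := fun z => (hh z).differentiableAt
  have hder : ∀ z, HasDerivAt (fun z => g z * Complex.exp (-h z)) 0 z := by
    intro z
    have h1 : HasDerivAt (fun z => Complex.exp (-h z)) (Complex.exp (-h z) * -(deriv g z / g z)) z :=
      (hh z).neg.cexp
    have h2 := ((hg z).hasDerivAt).mul h1
    have e : deriv g z * Complex.exp (-h z) + g z * (Complex.exp (-h z) * -(deriv g z / g z)) = 0 := by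
      have := h0 z
      field_simp
      ring
    rw [e] at h2
    exact h2
  have hconst : ∀ z, g z * Complex.exp (-h z) = g 0 * Complex.exp (-h 0) := by
    intro z
    exact is_const_of_deriv_eq_zero (fun z => (hder z).differentiableAt)
      (fun z => (hder z).deriv) z 0
  refine ⟨fun z => h z + Complex.log (g 0 * Complex.exp (-h 0)), hhd.add_const _, fun z => ?_⟩
  rw [Complex.exp_add, Complex.exp_log (mul_ne_zero (h0 0) (Complex.exp_ne_zero _)), ← hconst z,
    mul_comm, mul_assoc, ← Complex.exp_add, neg_add_cancel, Complex.exp_zero, mul_one]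

theorem unitN (m : ℕ) (g : Fin m → Entˣ)
    (hne : ∀ i j, i ≠ j → ∀ c : ℂ, (g i : Ent) ≠ algebraMap ℂ Ent c * g j)
    (c : Fin m → ℂ) (hc : ∑ i, algebraMap ℂ Ent (c i) * g i = 0) : c = 0 := by
  classical
  choose G hG hgG using fun i => entire_log ((g i : Ent) : ℂ → ℂ) (g i : Ent).2
    (fun z => (unit_val (g i) z).1)
  have h1 := borel_spec (B := Fin m → ℂ) G hG (fun i => Pi.single i 1) (by
    intro i j a ha
    by_cases hij : i = j
    · subst hij
      have h2 : a = 0 := by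
        have := ha 0
        exact left_eq_add.1 this
      rw [h2, Complex.exp_zero, one_smul]
    · exfalso
      apply hne i j hij (Complex.exp a)
      apply Subtype.ext
      funext z
      have h2 : ((algebraMap ℂ Ent (Complex.exp a) * (g j : Ent) : Ent) : ℂ → ℂ) z =
          Complex.exp a * ((g j : Ent) : ℂ → ℂ) z := rfl
      rw [h2, hgG, hgG, ha z, Complex.exp_add]
      ring) Finset.univ c (by
    intro z
    have h2 := congrArg (fun f : Ent => (f : ℂ → ℂ) z) hc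
    have h3 : ((∑ i, algebraMap ℂ Ent (c i) * (g i : Ent) : Ent) : ℂ → ℂ) z =
        ∑ i, c i * ((g i : Ent) : ℂ → ℂ) z := by
      let ev : Ent →+* ℂ := (Pi.evalRingHom (fun _ : ℂ => ℂ) z).comp Ent.val.toRingHom
      have h4 : ev (∑ i, algebraMap ℂ Ent (c i) * (g i : Ent)) =
          ∑ i, c i * ((g i : Ent) : ℂ → ℂ) z := by
        rw [map_sum]
        exact Finset.sum_congr rfl fun i _ => rfl
      exact h4
    have h5 : ((∑ i, algebraMap ℂ Ent (c i) * (g i : Ent) : Ent) : ℂ → ℂ) z = 0 := h2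
    rw [h3] at h5
    rw [← h5]
    exact Finset.sum_congr rfl fun i _ => by rw [hgG])
  funext i
  have h2 := congrFun h1 i
  rw [Finset.sum_apply, Finset.sum_eq_single i] at h2
  · simpa using h2
  · intro j _ hj
    rw [Pi.smul_apply, Pi.single_eq_of_ne (Ne.symm hj), smul_zero]
  · intro h
    exact absurd (Finset.mem_univ _) h

theorem tfN (g : Entˣ) (m : ℕ) (hm : 0 < m)
    (h : ∃ c : ℂ, ((g ^ m : Entˣ) : Ent) = algebraMap ℂ Ent c) :
    ∃ c : ℂ, (g : Ent) = algebraMap ℂ Ent c := by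
  obtain ⟨c, hc⟩ := h
  obtain ⟨G, hG, hgG⟩ := entire_log ((g : Ent) : ℂ → ℂ) (g : Ent).2 (fun z => (unit_val g z).1)
  have h1 : ∀ z, Complex.exp (m * G z) = c := by
    intro z
    rw [Complex.exp_nat_mul, ← hgG]
    have h2 := congrArg (fun f : Ent => (f : ℂ → ℂ) z) hc
    exact h2
  have h2 : ∀ z, G z = G 0 := by
    intro z
    have h3 := const_of_exp (G := fun z => m * G z) (hG.const_mul _) h1 z 0
    have hm0 : (m : ℂ) ≠ 0 := Nat.cast_ne_zero.2 hm.ne'
    exact mul_left_cancel₀ hm0 h3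
  refine ⟨Complex.exp (G 0), ?_⟩
  apply Subtype.ext
  funext z
  rw [hgG, h2]
  rfl

/-- growth of nonconstant units -/
theorem unit_growth (u : Entˣ) (hu : ∀ c : ℂ, (u : Ent) ≠ algebraMap ℂ Ent c) :
    ∃ c s0 : ℝ, 0 < c ∧ 1 ≤ s0 ∧ ∀ s, s0 ≤ s →
      c * s ≤ mm ((u : Ent) : ℂ → ℂ) s + mm (((u⁻¹ : Entˣ) : Ent) : ℂ → ℂ) s := by
  set k : ℂ → ℂ := ((u : Ent) : ℂ → ℂ) with hk
  have hkd : Differentiable ℂ k := (u : Ent).2
  have hk0 : ∀ z, k z ≠ 0 := fun z => (unit_val u z).1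
  have h1 : ∃ w z, Real.log ‖k w‖ ≠ Real.log ‖k z‖ := by
    by_contra hcon
    push Not at hcon
    have h2 : ∀ z, ‖k z‖ = ‖k 0‖ := fun z =>
      Real.log_injOn_pos (norm_pos_iff.2 (hk0 z)) (norm_pos_iff.2 (hk0 0)) (hcon z 0)
    have h3 : Bornology.IsBounded (Set.range k) := by
      rw [isBounded_iff_forall_norm_le]
      refine ⟨‖k 0‖, ?_⟩
      rintro _ ⟨z, rfl⟩
      exact (h2 z).le
    apply hu (k 0)
    apply Subtype.ext
    funext z
    exact hkd.apply_eq_apply_of_bounded h3 z 0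
  obtain ⟨w, z, hwz⟩ := h1
  have hne : w ≠ z := fun h => hwz (by rw [h])
  have hd : 0 < ‖w - z‖ := norm_pos_iff.2 (sub_ne_zero.2 hne)
  have hΔ : 0 < |Real.log ‖k w‖ - Real.log ‖k z‖| := abs_pos.2 (sub_ne_zero.2 hwz)
  refine ⟨|Real.log ‖k w‖ - Real.log ‖k z‖| / (8 * ‖w - z‖), 1 + 2 * ‖w‖ + 2 * ‖z‖,
    by positivity, by
      have := norm_nonneg w
      have := norm_nonneg z
      linarith, fun s hs => ?_⟩
  have hw0 := norm_nonneg w
  have hz0 := norm_nonneg z
  have hs0 : 0 < s := by linarith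
  have h2 := poisson_diff (k := k) (R := s) (δ := s / 2) hs0 (by positivity)
    (fun x _ => hkd.analyticAt x) (fun x _ => hk0 x) (w := w) (z := z) (by linarith) (by linarith)
  have i1 := ci_posLog (mero_of_diff hkd) s
  have i2 := ci_posLog (mero_of_diff ((u⁻¹ : Entˣ) : Ent).2) s
  have h3 : Real.circleAverage (fun ζ => |Real.log ‖k ζ‖|) 0 s ≤
      mm k s + mm (((u⁻¹ : Entˣ) : Ent) : ℂ → ℂ) s := by
    unfold mm
    rw [← Real.circleAverage_fun_add i1 i2]
    refine Real.circleAverage_mono (ci_abs (ci_log (mero_of_diff hkd) s)) (i1.add i2)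
      fun x _ => ?_
    have h4 := (unit_val u x).2
    rw [h4, norm_inv, Real.posLog_apply, Real.posLog_apply, Real.log_inv]
    rcases abs_cases (Real.log ‖k x‖) with ⟨h5, _⟩ | ⟨h5, _⟩
    · rw [h5]
      have := le_max_right 0 (Real.log ‖k x‖)
      have := le_max_left 0 (-Real.log ‖k x‖)
      linarith
    · rw [h5]
      have := le_max_left 0 (Real.log ‖k x‖)
      have := le_max_right 0 (-Real.log ‖k x‖)
      linarith
  have h4 : 2 * s * ‖w - z‖ / (s / 2) ^ 2 = 8 * ‖w - z‖ / s := by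
    field_simp
    ring
  rw [h4] at h2
  have h5 : |Real.log ‖k w‖ - Real.log ‖k z‖| / (8 * ‖w - z‖) * s ≤
      Real.circleAverage (fun ζ => |Real.log ‖k ζ‖|) 0 s := by
    rw [div_mul_eq_mul_div, div_le_iff₀ (by positivity)]
    have h6 : |Real.log ‖k w‖ - Real.log ‖k z‖| * s ≤ 8 * ‖w - z‖ / s *
        Real.circleAverage (fun ζ => |Real.log ‖k ζ‖|) 0 s * s :=
      mul_le_mul_of_nonneg_right h2 hs0.le
    refine h6.trans (le_of_eq ?_)
    field_simp
  exact h5.trans h3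

/-- curves from entire solutions -/
theorem curveN_dat (z1 : ℂ) {n : ℕ} {U : Finset (Fin n)} {ι : Type} [Finite ι]
    (F : ι → MvPolynomial (Fin n) ℂ) (y : Fin n → Ent)
    (hF : ∀ l, aeval y (F l) = 0) (d : Dat ℂ U y (⊤ : Subgroup Entˣ)) :
    ∀ᶠ z in (rpN z1).G, CurveAt (rpN z1) F y z := by
  classical
  let mw : Fin d.r → ℝ → ℝ := fun j s =>
    mm ((d.w j : Ent) : ℂ → ℂ) s + mm ((((d.w j)⁻¹ : Entˣ) : Ent) : ℂ → ℂ) s
  let A : ℝ → ℝ := fun s => ∑ j, mw j s + ∑ i, mm (y i : ℂ → ℂ) s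
  have hmw0 : ∀ j s, 0 ≤ mw j s := fun j s => add_nonneg (mm_nonneg _ _) (mm_nonneg _ _)
  let T : ℝ → ℝ := fun s => 1 + s + A s
  have hA0 : ∀ s, 0 ≤ A s := fun s => add_nonneg (Finset.sum_nonneg fun _ _ => hmw0 _ _)
    (Finset.sum_nonneg fun _ _ => mm_nonneg _ _)
  have hT : Sc T :=
    { le := fun s _ => by
        have := hA0 s
        simp only [T]
        linarith
      mono := fun r s hr hrs => by
        have h1 : A r ≤ A s := by
          refine add_le_add (Finset.sum_le_sum fun j _ => add_le_add ?_ ?_)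
            (Finset.sum_le_sum fun i _ => ?_)
          · exact mm_mono (d.w j : Ent).2 (by linarith) hrs
          · exact mm_mono (((d.w j)⁻¹ : Entˣ) : Ent).2 (by linarith) hrs
          · exact mm_mono (y i).2 (by linarith) hrs
        simp only [T]
        linarith }
  have hmwT : ∀ j s, 1 ≤ s → mw j s ≤ T s := by
    intro j s hs
    have h1 : mw j s ≤ ∑ j, mw j s :=
      Finset.single_le_sum (f := fun j => mw j s) (fun _ _ => hmw0 _ _) (Finset.mem_univ j)
    have h2 : 0 ≤ ∑ i, mm (y i : ℂ → ℂ) s := Finset.sum_nonneg fun _ _ => mm_nonneg _ _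
    simp only [T, A]
    linarith
  have hwB : ∀ j, BG T ((d.w j : Ent) : ℂ → ℂ) := fun j => ⟨1, fun s hs => by
    have h1 := hmwT j s hs
    have h2 := mm_nonneg ((((d.w j)⁻¹ : Entˣ) : Ent) : ℂ → ℂ) s
    simp only [mw] at h1
    linarith⟩
  have hwB' : ∀ j, BG T ((((d.w j)⁻¹ : Entˣ) : Ent) : ℂ → ℂ) := fun j => ⟨1, fun s hs => by
    have h1 := hmwT j s hs
    have h2 := mm_nonneg ((d.w j : Ent) : ℂ → ℂ) s
    simp only [mw] at h1
    linarith⟩
  have hyB : ∀ i, BG T (y i : ℂ → ℂ) := fun i => ⟨1, fun s hs => by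
    have h1 : mm (y i : ℂ → ℂ) s ≤ ∑ i, mm (y i : ℂ → ℂ) s :=
      Finset.single_le_sum (f := fun i => mm (y i : ℂ → ℂ) s) (fun _ _ => mm_nonneg _ _)
        (Finset.mem_univ i)
    have h2 : 0 ≤ ∑ j, mw j s := Finset.sum_nonneg fun _ _ => hmw0 _ _
    simp only [T, A]
    linarith⟩
  let wR : Fin d.r → (RN T hT)ˣ := fun j =>
    { val := mkN (d.w j : Ent) (hwB j)
      inv := mkN (((d.w j)⁻¹ : Entˣ) : Ent) (hwB' j)
      val_inv := by
        apply eN_inj
        rw [map_mul, eN_mkN, eN_mkN, map_one]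
        exact Units.mul_inv (d.w j)
      inv_val := by
        apply eN_inj
        rw [map_mul, eN_mkN, eN_mkN, map_one]
        exact Units.inv_mul (d.w j) }
  let yR : Fin n → RN T hT := fun i => mkN (y i) (hyB i)
  obtain ⟨c, s0, hc, hs0, hgr⟩ := unit_growth (d.w ⟨0, d.hr⟩) (d.hnc ⟨0, d.hr⟩)
  let C : ℝ := 1 + 1 / c
  have hC : 0 ≤ C := by positivity
  refine curve_of_dat (rpN z1) d (DcN hT) (eN T hT) eN_inj wR (fun j => rfl) yR (fun i => rfl)
    ⟨C, hC, ?_⟩ (not_neg_oneN hT) F hF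
  intro ε hε
  filter_upwards [FF_ge (T := T) s0, FF_big hT (1 / ε)] with s hs hb
  rw [div_le_iff₀ hε] at hb
  have hs1 : 1 ≤ s := hs0.trans hs
  have iw : ∀ j, CircleIntegrable (fun z => Real.posLog ‖((d.w j : Ent) : ℂ → ℂ) z‖ +
      Real.posLog ‖((((d.w j)⁻¹ : Entˣ) : Ent) : ℂ → ℂ) z‖) 0 s := fun j =>
    (ci_posLog (mero_of_diff (d.w j : Ent).2) s).add
      (ci_posLog (mero_of_diff (((d.w j)⁻¹ : Entˣ) : Ent).2) s)
  have iy : ∀ i, CircleIntegrable (fun z => Real.posLog ‖(y i : ℂ → ℂ) z‖) 0 s := fun i =>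
    ci_posLog (mero_of_diff (y i).2) s
  let W : ℂ → ℝ := fun z => ∑ j, (Real.posLog ‖((d.w j : Ent) : ℂ → ℂ) z‖ +
      Real.posLog ‖((((d.w j)⁻¹ : Entˣ) : Ent) : ℂ → ℂ) z‖)
  let Y : ℂ → ℝ := fun z => ∑ i, Real.posLog ‖(y i : ℂ → ℂ) z‖
  have iW : CircleIntegrable W 0 s := by
    have h1 := CircleIntegrable.sum Finset.univ (fun j _ => iw j)
    have h2 : W = ∑ j, fun z => (Real.posLog ‖((d.w j : Ent) : ℂ → ℂ) z‖ +
      Real.posLog ‖((((d.w j)⁻¹ : Entˣ) : Ent) : ℂ → ℂ) z‖) := by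
      funext z
      rw [Finset.sum_apply]
    rw [h2]
    exact h1
  have iY : CircleIntegrable Y 0 s := by
    have h1 := CircleIntegrable.sum Finset.univ (fun i _ => iy i)
    have h2 : Y = ∑ i, fun z => Real.posLog ‖(y i : ℂ → ℂ) z‖ := by
      funext z
      rw [Finset.sum_apply]
    rw [h2]
    exact h1
  have iWY : CircleIntegrable (fun z => W z + Y z) 0 s := iW.add iY
  have iCWY : CircleIntegrable (fun z => C • (W z + Y z)) 0 s := iWY.const_smul
  refine ⟨fun z => T s - C • (W z + Y z), (circleIntegrable_const _ _ _).sub iCWY, ?_, ?_⟩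
  · refine cod_of_all (by linarith) fun z hz => ?_
    have h1 : ∀ j, |Real.log ‖((d.w j : Ent) : ℂ → ℂ) z‖| =
        Real.posLog ‖((d.w j : Ent) : ℂ → ℂ) z‖ +
        Real.posLog ‖((((d.w j)⁻¹ : Entˣ) : Ent) : ℂ → ℂ) z‖ := by
      intro j
      have h4 := (unit_val (d.w j) z).2
      rw [h4, norm_inv, Real.posLog_apply, Real.posLog_apply, Real.log_inv]
      rcases abs_cases (Real.log ‖((d.w j : Ent) : ℂ → ℂ) z‖) with ⟨h5, h6⟩ | ⟨h5, h6⟩
      · rw [h5, max_eq_right h6, max_eq_left (by linarith), add_zero]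
      · rw [h5, max_eq_left h6.le, max_eq_right (by linarith), zero_add]
    have h2 : ∀ i, max (Real.log ‖(y i : ℂ → ℂ) z‖) 0 = Real.posLog ‖(y i : ℂ → ℂ) z‖ := by
      intro i
      rw [Real.posLog_apply, max_comm]
    show T ‖z‖ - C * (∑ j, |Real.log ‖((d.w j : Ent) : ℂ → ℂ) z‖| +
      ∑ i, max (Real.log ‖(y i : ℂ → ℂ) z‖) 0) ≤ T s - C * (W z + Y z)
    rw [hz]
    simp only [h1, h2]
    exact le_refl _
  · rw [Real.circleAverage_fun_sub (circleIntegrable_const _ _ _) iCWY, Real.circleAverage_const,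
      Real.circleAverage_fun_smul, Real.circleAverage_fun_add iW iY, smul_eq_mul]
    have h1 : Real.circleAverage W 0 s = ∑ j, mw j s := by
      simp only [W]
      rw [Real.circleAverage_fun_sum (fun j _ => iw j)]
      refine Finset.sum_congr rfl fun j _ => ?_
      exact Real.circleAverage_fun_add (ci_posLog (mero_of_diff (d.w j : Ent).2) s)
        (ci_posLog (mero_of_diff (((d.w j)⁻¹ : Entˣ) : Ent).2) s)
    have h2 : Real.circleAverage Y 0 s = ∑ i, mm (y i : ℂ → ℂ) s := by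
      simp only [Y]
      rw [Real.circleAverage_fun_sum (fun i _ => iy i)]
      rfl
    rw [h1, h2]
    have h3 : ∑ j, mw j s + ∑ i, mm (y i : ℂ → ℂ) s = A s := rfl
    rw [h3]
    have h4 : c * s ≤ A s := by
      refine (hgr s hs).trans ?_
      have h5 : mw ⟨0, d.hr⟩ s ≤ ∑ j, mw j s :=
        Finset.single_le_sum (f := fun j => mw j s) (fun _ _ => hmw0 _ _) (Finset.mem_univ _)
      have h6 : 0 ≤ ∑ i, mm (y i : ℂ → ℂ) s := Finset.sum_nonneg fun _ _ => mm_nonneg _ _
      have h7 : mw ⟨0, d.hr⟩ s = mm ((d.w ⟨0, d.hr⟩ : Ent) : ℂ → ℂ) s +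
        mm ((((d.w ⟨0, d.hr⟩)⁻¹ : Entˣ) : Ent) : ℂ → ℂ) s := rfl
      linarith
    have h5 : T s - C * A s ≤ 1 := by
      have h6 : T s - C * A s = 1 + s - (1 / c) * A s := by
        simp only [T, C]
        ring
      rw [h6]
      have h7 : (1 / c) * (c * s) ≤ (1 / c) * A s := mul_le_mul_of_nonneg_left h4 (by positivity)
      have h8 : (1 / c) * (c * s) = s := by field_simp
      linarith
    linarith


end Pool.Agent.N754.LT
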