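import Mathlib
import Pool.Agent.N754.LT.Ana
import Pool.Agent.N754.LT.Str2
import Pool.Agent.N754.LT.Grm

/-!
Varieties whose points are alone in their fibres over a torus.
-/

set_option autoImplicit false
set_option linter.unusedSectionVars false

open Finset MvPolynomial Filter Metric

namespace Pool.Agent.N754.LT

open NumberField IsDedekindDomain
open Pool.Agent.Y742.SF Pool.Agent.Y742.AR
open Pool.Agent.W235.RM Pool.Agent.H159R3.Exp Pool.Agent.H159R3.NV

section arith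

variable {M : Type} [Field M] [NumberField M] (𝒰 : Ultrafilter ℕ) (ψ : M →+* ℂ)

/-- germs over a number field give complex germs -/
noncomputable def thA : BA M 𝒰 →+* GC ℕ 𝒰 where
  toFun x := gc 𝒰 fun t => ψ (rep (K := M) (𝒰 := 𝒰) x t)
  map_one' := by
    rw [← map_one (gc 𝒰), gc_eq]
    filter_upwards [Pool.Agent.Y742.AR.rep_one (K := M) (𝒰 := 𝒰)] with t h
    have h1 : rep (K := M) (𝒰 := 𝒰) (1 : BA M 𝒰) t = 1 := h
    rw [h1, map_one]
    rfl
  map_zero' := by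
    rw [gc_zero]
    filter_upwards [Pool.Agent.Y742.AR.rep_zero (K := M) (𝒰 := 𝒰)] with t h
    have h1 : rep (K := M) (𝒰 := 𝒰) (0 : BA M 𝒰) t = 0 := h
    rw [h1, map_zero]
  map_mul' x y := by
    rw [← map_mul (gc 𝒰), gc_eq]
    filter_upwards [Pool.Agent.Y742.AR.rep_mul (K := M) (𝒰 := 𝒰) x y] with t h
    have h1 : rep (K := M) (𝒰 := 𝒰) (x * y : BA M 𝒰) t =
      rep (K := M) (𝒰 := 𝒰) x t * rep (K := M) (𝒰 := 𝒰) y t := h
    rw [h1, map_mul]
    rfl
  map_add' x y := by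
    rw [← map_add (gc 𝒰), gc_eq]
    filter_upwards [Pool.Agent.Y742.AR.rep_add (K := M) (𝒰 := 𝒰) x y] with t h
    have h1 : rep (K := M) (𝒰 := 𝒰) (x + y : BA M 𝒰) t =
      rep (K := M) (𝒰 := 𝒰) x t + rep (K := M) (𝒰 := 𝒰) y t := h
    rw [h1, map_add]
    rfl

theorem thA_const : (thA 𝒰 ψ).comp (algebraMap M (BA M 𝒰)) =
    (gc 𝒰).comp ((Pi.constRingHom ℕ ℂ).comp ψ) := by
  ext c
  show gc 𝒰 _ = gc 𝒰 _
  rw [gc_eq]
  filter_upwards [Pool.Agent.Y742.AR.rep_cg (K := M) (𝒰 := 𝒰) c] with t h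
  have h1 : rep (K := M) (𝒰 := 𝒰) (algebraMap M (BA M 𝒰) c) t = c := h
  rw [h1]
  rfl

theorem curveA2 [IsGalois ℚ M] (D : PD M) {n : ℕ} (U : Finset (Fin n)) {ι : Type} [Finite ι]
    (F : ι → MvPolynomial (Fin n) M) (y : Fin n → BA M 𝒰)
    (hF : ∀ l, aeval y (F l) = 0) (hy : ∀ i, y i ∈ TIR D 𝒰)
    (hyU : ∀ i ∈ U, ∃ u ∈ WA D 𝒰, (u : BA M 𝒰) = y i)
    (hync : ∃ i, ∀ c : M, y i ≠ algebraMap M (BA M 𝒰) c) :
    (∀ᶠ t in (𝒰 : Filter ℕ), CurveAt (rpA M 𝒰) F y t) ∨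
    ∀ᶠ t in (𝒰 : Filter ℕ), ∃ z' : Fin n → ℂ, (∀ l, eval₂ ψ z' (F l) = 0) ∧
      (∀ i ∈ U, z' i = ψ (rep (K := M) (𝒰 := 𝒰) (y i) t)) ∧
      z' ≠ fun j => ψ (rep (K := M) (𝒰 := 𝒰) (y j) t) := by
  classical
  rcases dat_or2 U F y hF (WA D 𝒰) (unitA D 𝒰) (tfA D 𝒰) hyU hync (thA 𝒰 ψ)
    (thA 𝒰 ψ).injective with h | ⟨⟨d⟩⟩
  · right
    rw [thA_const] at h
    exact gc_second 𝒰 ψ U F (fun t j => ψ (rep (K := M) (𝒰 := 𝒰) (y j) t)) h
  exact Or.inl (curveA_dat D 𝒰 F y hF hy d)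

end arith

/-- points outside `V'` are alone in their fibres -/
def Alone {K : Type} [Field K] {ι κ : Type} {n : ℕ} (σ : K →+* ℂ)
    (F : ι → MvPolynomial (Fin n) (𝓞 K)) (G : κ → MvPolynomial (Fin n) (𝓞 K))
    (U : Finset (Fin n)) : Prop :=
  ∀ z z' : Fin n → ℂ, (∀ l, eval₂ (σ.comp (algebraMap (𝓞 K) K)) z (F l) = 0) →
    (∀ l, eval₂ (σ.comp (algebraMap (𝓞 K) K)) z' (F l) = 0) → (∀ i ∈ U, z' i = z i) →
    (∃ l, eval₂ (σ.comp (algebraMap (𝓞 K) K)) z (G l) ≠ 0) → z' = z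

theorem integral_of_alone {K : Type} [Field K] [NumberField K] (σ : K →+* ℂ) {ι κ : Type}
    [Finite ι] {n : ℕ} (F : ι → MvPolynomial (Fin n) (𝓞 K)) (G : κ → MvPolynomial (Fin n) (𝓞 K))
    (U : Finset (Fin n))
    (hU : ∀ z : Fin n → ℂ, (∀ l, eval₂ (σ.comp (algebraMap (𝓞 K) K)) z (F l) = 0) →
      ∀ i ∈ U, z i ≠ 0)
    (hal : Alone σ F G U) (h0 : ¬ HasLaurent F G) : FinitelyManyIntegral F G := by
  classical
  by_contra h
  unfold FinitelyManyIntegral at h
  push Not at h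
  obtain ⟨L, hL1, hL2, hL3, S, hS, hinf⟩ := h
  obtain ⟨M, hM1, hM2, hM3, hgal, hi⟩ := exists_big L
  obtain ⟨S', hS', hSS'⟩ := ext_int L M S hS
  obtain ⟨D, hD⟩ := exists_PD hi S' hS'
  let 𝒰 : Ultrafilter ℕ := Filter.hyperfilter ℕ
  have hinf2 : (intPoints F L S \ intPoints G L S).Infinite := hinf
  let e := hinf2.natEmbedding
  let xs : ℕ → Fin n → L := fun t => (e t).1
  have hxs : ∀ t, xs t ∈ intPoints F L S \ intPoints G L S := fun t => (e t).2
  let : Algebra K M := ((algebraMap L M).comp (algebraMap K L)).toAlgebra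
  let τ : 𝓞 K →+* M := (algebraMap K M).comp (algebraMap (𝓞 K) K)
  have hτ : τ = (algebraMap L M).comp ((algebraMap K L).comp (algebraMap (𝓞 K) K)) := rfl
  let : Algebra K ℂ := σ.toAlgebra
  have : Algebra.IsAlgebraic K M := by
    have h1 : Algebra.IsAlgebraic ℚ M := inferInstance
    exact Algebra.IsAlgebraic.tower_top (K := ℚ) K
  let ψ0 : M →ₐ[K] ℂ := IsAlgClosed.lift
  let ψ : M →+* ℂ := ψ0
  have hψ : ψ.comp τ = σ.comp (algebraMap (𝓞 K) K) := by
    ext c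
    exact ψ0.commutes _
  let FM : ι → MvPolynomial (Fin n) M := fun l => MvPolynomial.map τ (F l)
  let y : Fin n → BA M 𝒰 := fun j => (gm 𝒰 (fun t => algebraMap L M (xs t j)) : GK M 𝒰)
  have hyrep : ∀ᶠ t in (𝒰 : Filter ℕ), ∀ j,
      rep (K := M) (𝒰 := 𝒰) (y j) t = algebraMap L M (xs t j) := by
    refine (Filter.eventually_all).2 fun j => ?_
    exact rep_gm (K := M) (𝒰 := 𝒰) (fun t => algebraMap L M (xs t j))
  have hevm : ∀ (t : ℕ) (P : MvPolynomial (Fin n) (𝓞 K)),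
      eval (fun j => algebraMap L M (xs t j)) (MvPolynomial.map τ P) =
      algebraMap L M (eval₂ ((algebraMap K L).comp (algebraMap (𝓞 K) K)) (xs t) P) := by
    intro t P
    rw [eval_map, hτ]
    exact (MvPolynomial.hom_eval₂ P _ (algebraMap L M) (xs t)).symm
  have hFM : ∀ l, aeval y (FM l) = 0 := by
    intro l
    apply zero_of_rep 𝒰
    have h1 := (rpA M 𝒰).rep_aeval y (FM l)
    have h2 : ∀ᶠ t in (𝒰 : Filter ℕ), rep (K := M) (𝒰 := 𝒰) (aeval y (FM l)) t =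
        eval (fun i => rep (K := M) (𝒰 := 𝒰) (y i) t) (FM l) := h1
    filter_upwards [h2, hyrep] with t g1 g2
    rw [g1]
    have g3 : (fun i => rep (K := M) (𝒰 := 𝒰) (y i) t) = fun j => algebraMap L M (xs t j) :=
      funext g2
    rw [g3]
    simp only [FM]
    rw [hevm, (hxs t).1.2 l, map_zero]
  have hyTI : ∀ j, y j ∈ TIR D 𝒰 := by
    intro j
    rw [mem_TIR]
    refine ⟨1, one_ne_zero, ?_⟩
    filter_upwards [hyrep] with t ht
    rw [ht]
    have h1 : ((1 : 𝓞 M) : M) = 1 := rfl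
    rw [h1, one_mul]
    intro w hw
    have h2 := hSS' _ ((hxs t).1.1 j)
    refine (mem_integer_iff S' _).1 h2 w ?_
    intro hwS
    obtain ⟨v, hv⟩ := hD w hwS
    exact hw v hv
  have hyU : ∀ i ∈ U, ∃ u ∈ WA D 𝒰, (u : BA M 𝒰) = y i := by
    intro i hi
    obtain ⟨B, hB⟩ := unit_cert σ (fun l => MvPolynomial.map (algebraMap (𝓞 K) K) (F l)) i
      (fun z hz => hU z (fun l => by
        have := hz l
        rwa [eval₂_map] at this) i hi)
    let Θ : MvPolynomial (Fin n) K →+* BA M 𝒰 :=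
      eval₂Hom ((algebraMap M (BA M 𝒰)).comp (algebraMap K M)) y
    have hΘF : ∀ l, Θ (MvPolynomial.map (algebraMap (𝓞 K) K) (F l)) = 0 := by
      intro l
      have h1 := hFM l
      simp only [FM] at h1
      rw [aeval_def, eval₂_map] at h1
      show eval₂ _ _ _ = 0
      rw [eval₂_map]
      exact h1
    have h1 : Θ (B * X i - 1) = 0 := by
      have h2 : Ideal.span (Set.range fun l => MvPolynomial.map (algebraMap (𝓞 K) K) (F l)) ≤
          RingHom.ker Θ := by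
        rw [Ideal.span_le]
        rintro _ ⟨l, rfl⟩
        exact hΘF l
      exact h2 hB
    have h3 : Θ B * y i = 1 := by
      rw [map_sub, map_mul, map_one, sub_eq_zero] at h1
      rw [← h1]
      congr 1
      exact (eval₂_X _ _ _).symm
    have h4 : Θ B ∈ TIR D 𝒰 := by
      have h5 : ∀ P : MvPolynomial (Fin n) K, Θ P ∈ TIR D 𝒰 := by
        intro P
        induction P using MvPolynomial.induction_on with
        | C a =>
          have h6 : Θ (C a) = algebraMap M (BA M 𝒰) (algebraMap K M a) := eval₂_C _ _ _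
          rw [h6]
          exact cg_mem_TIR D 𝒰 _
        | add p q hp hq =>
          rw [map_add]
          exact add_mem hp hq
        | mul_X p j hp =>
          rw [map_mul]
          refine mul_mem hp ?_
          have h6 : Θ (X j) = y j := eval₂_X _ _ _
          rw [h6]
          exact hyTI j
      exact h5 B
    refine ⟨⟨y i, Θ B, by rw [mul_comm]; exact h3, h3⟩, ?_, rfl⟩
    exact ⟨hyTI i, h4⟩
  have hync : ∃ i, ∀ c : M, y i ≠ algebraMap M (BA M 𝒰) c := by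
    by_contra hcon
    push Not at hcon
    choose c hc using hcon
    have h1 : ∀ᶠ t in (𝒰 : Filter ℕ), ∀ j, algebraMap L M (xs t j) = c j := by
      refine (Filter.eventually_all).2 fun j => ?_
      have h2 : ∀ᶠ t in (𝒰 : Filter ℕ), rep (K := M) (𝒰 := 𝒰) (y j) t = c j := by
        rw [hc j]
        exact Pool.Agent.Y742.AR.rep_cg (K := M) (𝒰 := 𝒰) (c j)
      filter_upwards [h2, hyrep] with t g1 g2
      rw [← g2, g1]
    have h2 : {t : ℕ | ∀ j, algebraMap L M (xs t j) = c j}.Subsingleton := by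
      intro t ht t' ht'
      apply e.injective
      apply Subtype.ext
      funext j
      apply (algebraMap L M).injective
      exact (ht j).trans (ht' j).symm
    exact Filter.notMem_hyperfilter_of_finite h2.finite h1
  have hG : ∀ t, ∃ l, eval₂ ((algebraMap K L).comp (algebraMap (𝓞 K) K)) (xs t) (G l) ≠ 0 := by
    intro t
    by_contra hcon
    push Not at hcon
    exact (hxs t).2 ⟨(hxs t).1.1, hcon⟩
  rcases curveA2 𝒰 ψ D U FM y hFM hyTI hyU hync with hcurve | hsec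
  · obtain ⟨t, ⟨v, hv1, hv2, hv3, j0, hj0⟩, ht⟩ := (hcurve.and hyrep).exists
    have hv1' : v 1 = fun j => algebraMap L M (xs t j) := by
      rw [hv3]
      exact funext ht
    apply h0
    refine ⟨M, hM1, hM2, inferInstance, v, hv1, ?_, ?_, 1, j0, ?_⟩
    · intro l s hs
      have h1 := hv2 l s hs
      simp only [FM] at h1
      rw [eval_map] at h1
      exact h1
    · obtain ⟨l, hl⟩ := hG t
      refine ⟨l, ?_⟩
      have h3 := hevm t (G l)
      rw [eval_map] at h3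
      rw [hv1']
      intro h4
      apply hl
      apply (algebraMap L M).injective
      rw [map_zero, ← h3]
      exact h4
    · rw [pow_one]
      exact hj0
  · obtain ⟨t, ⟨z', hz1, hz2, hz3⟩, ht⟩ := (hsec.and hyrep).exists
    have hev : ∀ P : MvPolynomial (Fin n) (𝓞 K),
        eval₂ (σ.comp (algebraMap (𝓞 K) K)) (fun j => ψ (rep (K := M) (𝒰 := 𝒰) (y j) t)) P =
        ψ (algebraMap L M (eval₂ ((algebraMap K L).comp (algebraMap (𝓞 K) K)) (xs t) P)) := by
      intro P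
      have g3 : (fun j => ψ (rep (K := M) (𝒰 := 𝒰) (y j) t)) =
          fun j => ψ (algebraMap L M (xs t j)) := funext fun j => by rw [ht]
      rw [g3, ← hψ, ← hevm, eval_map]
      exact (MvPolynomial.hom_eval₂ P τ ψ _).symm
    apply hz3
    refine hal _ _ (fun l => ?_) (fun l => ?_) (fun i hi => hz2 i hi) ?_
    · rw [hev, (hxs t).1.2 l, map_zero, map_zero]
    · have h1 := hz1 l
      simp only [FM] at h1
      rw [eval₂_map, hψ] at h1
      exact h1
    · obtain ⟨l, hl⟩ := hG t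
      refine ⟨l, ?_⟩
      rw [hev]
      exact (map_ne_zero _).2 ((map_ne_zero _).2 hl)

theorem entire_of_alone {K : Type} [Field K] [NumberField K] (σ : K →+* ℂ) {ι κ : Type}
    [Finite ι] {n : ℕ} (F : ι → MvPolynomial (Fin n) (𝓞 K)) (G : κ → MvPolynomial (Fin n) (𝓞 K))
    (U : Finset (Fin n))
    (hU : ∀ z : Fin n → ℂ, (∀ l, eval₂ (σ.comp (algebraMap (𝓞 K) K)) z (F l) = 0) →
      ∀ i ∈ U, z i ≠ 0)
    (hal : Alone σ F G U) (h : GmCurvesIn σ F G) : EntireCurvesIn σ F G := by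
  classical
  intro f hf hF hnc z1 l
  by_contra hG
  let τ : 𝓞 K →+* ℂ := σ.comp (algebraMap (𝓞 K) K)
  have hfj : ∀ j, Differentiable ℂ (fun z => f z j) := fun j => (differentiable_pi.1 hf) j
  let y : Fin n → Ent := fun j => ⟨fun z => f z j, hfj j⟩
  let FC : ι → MvPolynomial (Fin n) ℂ := fun i => MvPolynomial.map τ (F i)
  have hev : ∀ (P : MvPolynomial (Fin n) ℂ) (z : ℂ), ((aeval y P : Ent) : ℂ → ℂ) z =
      eval (f z) P := by
    intro P z
    let ev : Ent →ₐ[ℂ] ℂ := (Pi.evalAlgHom ℂ (fun _ : ℂ => ℂ) z).comp Ent.val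
    have h1 : ev (aeval y P) = aeval (fun j => ev (y j)) P := by
      have h3 : (ev.comp (aeval y)) = aeval (fun j => ev (y j)) := by
        ext i
        simp
      exact DFunLike.congr_fun h3 P
    have h2 : aeval (fun j => ev (y j)) P = eval (f z) P := by
      rw [ae_eval]
      rfl
    rw [← h2, ← h1]
    rfl
  have hFC : ∀ i, aeval y (FC i) = 0 := by
    intro i
    apply Subtype.ext
    funext z
    rw [hev]
    simp only [FC]
    rw [eval_map]
    exact hF z i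
  have hyU : ∀ i ∈ U, ∃ u ∈ (⊤ : Subgroup Entˣ), (u : Ent) = y i := by
    intro i hi
    have h0 : ∀ z, f z i ≠ 0 := fun z => hU (f z) (fun l => hF z l) i hi
    let v : Ent := ⟨fun z => (f z i)⁻¹, (hfj i).inv h0⟩
    have h1 : y i * v = 1 := by
      apply Subtype.ext
      funext z
      exact mul_inv_cancel₀ (h0 z)
    exact ⟨⟨y i, v, h1, by rw [mul_comm]; exact h1⟩, trivial, rfl⟩
  have hync : ∃ i, ∀ c : ℂ, y i ≠ algebraMap ℂ Ent c := by
    by_contra hcon
    push Not at hcon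
    obtain ⟨z, w, hzw⟩ := hnc
    apply hzw
    funext j
    obtain ⟨c, hc⟩ := hcon j
    have h1 : ∀ z, f z j = c := fun z => by
      have h2 := congrArg (fun g : Ent => (g : ℂ → ℂ) z) hc
      exact h2
    rw [h1, h1]
  have hGc : ∀ᶠ z in nhdsWithin z1 {z1}ᶜ, eval₂ τ (f z) (G l) ≠ 0 := by
    have h1 : Differentiable ℂ (fun z => eval₂ τ (f z) (G l)) := by
      have h2 : (fun z => eval₂ τ (f z) (G l)) =
          ((aeval y (MvPolynomial.map τ (G l)) : Ent) : ℂ → ℂ) := by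
        funext z
        rw [hev, eval_map]
      rw [h2]
      exact (aeval y (MvPolynomial.map τ (G l)) : Ent).2
    exact ev_ne h1 hG z1
  let 𝒰 : Ultrafilter ℂ := Ultrafilter.of (nhdsWithin z1 ({z1}ᶜ : Set ℂ))
  have h𝒰 : (𝒰 : Filter ℂ) ≤ nhdsWithin z1 ({z1}ᶜ : Set ℂ) := Ultrafilter.of_le _
  let θ : Ent →+* GC ℂ 𝒰 := (gc 𝒰).comp Ent.val.toRingHom
  have hθ : Function.Injective θ := by
    rw [injective_iff_map_eq_zero]
    intro x hx
    by_contra hx0
    have h1 : ∀ᶠ z in (𝒰 : Filter ℂ), (x : ℂ → ℂ) z = 0 := (gc_zero 𝒰 _).1 hx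
    have h2 : ∀ᶠ z in (𝒰 : Filter ℂ), (x : ℂ → ℂ) z ≠ 0 := h𝒰 ((rpN z1).rep_ne x hx0)
    obtain ⟨z, h3, h4⟩ := (h1.and h2).exists
    exact h4 h3
  rcases dat_or2 U FC y hFC ⊤ (fun m g _ => unitN m g) (fun g _ => tfN g) hyU hync θ hθ with
    hsec | ⟨⟨d⟩⟩
  · have hsec2 := gc_second 𝒰 (RingHom.id ℂ) U FC f hsec
    obtain ⟨z, ⟨z', hz1, hz2, hz3⟩, hz4⟩ := (hsec2.and (h𝒰 hGc)).exists
    apply hz3
    refine hal (f z) z' (fun l => hF z l) (fun l => ?_) hz2 ⟨l, hz4⟩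
    have h1 := hz1 l
    simp only [FC] at h1
    rw [eval₂_map, RingHom.id_comp] at h1
    exact h1
  · have hcurve : ∀ᶠ z : ℂ in nhdsWithin z1 ({z1}ᶜ : Set ℂ),
        CurveAt (rpN z1) FC y (show (rpN z1).T from z) := curveN_dat z1 FC y hFC d
    obtain ⟨z, ⟨v, hv1, hv2, hv3, j0, hj0⟩, hz⟩ := (hcurve.and hGc).exists
    have h1 := h v hv1 (fun i t ht => by
      have h2 := hv2 i t ht
      simp only [FC] at h2
      rw [eval_map] at h2
      exact h2) ⟨2, 1, two_ne_zero, one_ne_zero, fun h2 => hj0 (congrFun h2 j0)⟩ l 1 one_ne_zero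
    rw [hv3] at h1
    exact hz h1

end Pool.Agent.N754.LT
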